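import Pool.Agent.H999R3.Tm.Geo2

namespace Pool.Agent.H999R3.Tm

open Finset Module MeasureTheory

noncomputable section

/-! ### statement-level homology -/

/-- faces of a complex together with the empty face -/
def Cplx.X (C : Cplx) : Set (Finset C.V) := {s | s ∈ C.faces ∨ s = ∅}

theorem Cplx.X_down (C : Cplx) : Down C.X := by
  rintro s hs t hts
  by_cases ht : t = ∅
  · exact Or.inr ht
  · rcases hs with hs | hs
    · exact Or.inl (C.down s hs t hts (Finset.nonempty_iff_ne_empty.mpr ht))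
    · rw [hs, subset_empty] at hts; exact absurd hts ht

theorem Cplx.X_empty (C : Cplx) : ∅ ∈ C.X := Or.inr rfl

theorem Cplx.chains_eq (C : Cplx) (n : ℕ) : C.chains n = Sp (ZMod 2) C.X (n + 1) := by
  ext c
  constructor
  · intro hc s hs
    exact ⟨Or.inl (hc s hs).1, (hc s hs).2⟩
  · intro hc s hs
    obtain ⟨h1, h2⟩ := hc s hs
    refine ⟨?_, h2⟩
    rcases h1 with h1 | h1
    · exact h1
    · rw [h1] at h2; simp at h2

theorem sg2 {V : Type} (h : V → ℕ) (v : V) (t : Finset V) : sg (ZMod 2) h v t = 1 := by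
  unfold sg
  have : (-1 : ZMod 2) = 1 := by decide
  rw [this, one_pow]

theorem Cplx.bd_eq (C : Cplx) (h : C.V → ℕ) {X : Set (Finset C.V)} {n : ℕ}
    {c : Finset C.V → ZMod 2} (hc : c ∈ Sp (ZMod 2) X (n + 2)) : C.bd c = D h c := by
  funext t
  rw [D_apply]
  show (if t = ∅ then 0 else ∑ v ∈ tᶜ, c (insert v t)) = _
  simp only [sg2, one_mul]
  by_cases ht : t = ∅
  · rw [if_pos ht, ht]
    symm
    apply sum_eq_zero
    intro v _
    by_contra h1
    have := (hc _ h1).2
    simp at this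
  · rw [if_neg ht]

theorem Cplx.betti_eq (C : Cplx) (h : C.V → ℕ) (n : ℕ) :
    C.betti (n + 1) = be (ZMod 2) h C.X (n + 2) := by
  have e1 : C.cycles (n + 1) = Zc (ZMod 2) h C.X (n + 2) := by
    ext c
    rw [mem_Zc, Cplx.cycles, Submodule.mem_inf, LinearMap.mem_ker, C.chains_eq]
    constructor
    · rintro ⟨h1, h2⟩
      exact ⟨h1, by rw [← C.bd_eq h h1]; exact h2⟩
    · rintro ⟨h1, h2⟩
      exact ⟨h1, by rw [C.bd_eq h h1]; exact h2⟩
  have e2 : C.boundaries (n + 1) = Bc (ZMod 2) h C.X (n + 2) := by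
    ext c
    rw [mem_Bc, Cplx.boundaries, Submodule.mem_map, C.chains_eq]
    constructor
    · rintro ⟨b, h1, h2⟩
      exact ⟨b, h1, by rw [← C.bd_eq h h1]; exact h2⟩
    · rintro ⟨b, h1, h2⟩
      exact ⟨b, h1, by rw [C.bd_eq h h1]; exact h2⟩
  unfold Cplx.betti be
  rw [e1, e2]

theorem Cplx.sd_X (C : Cplx) : C.sd.X = SD C.X := by
  ext S
  constructor
  · rintro (⟨_, h2, h3⟩ | h1)
    · exact ⟨fun s hs => ⟨Or.inl (h2 s hs), C.nonempty s (h2 s hs)⟩, h3⟩
    · rw [h1]
      exact ⟨fun s hs => absurd hs (Finset.notMem_empty s),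
        fun s hs => absurd hs (Finset.notMem_empty s)⟩
  · rintro ⟨h1, h2⟩
    by_cases hS : S = ∅
    · exact Or.inr hS
    · left
      refine ⟨Finset.nonempty_iff_ne_empty.mpr hS, fun s hs => ?_, h2⟩
      rcases (h1 s hs).1 with h3 | h3
      · exact h3
      · have := (h1 s hs).2
        rw [h3] at this
        simp at this

def enum (V : Type) [Fintype V] : V → ℕ := fun v => (Fintype.equivFin V v).1

theorem enum_inj (V : Type) [Fintype V] : Function.Injective (enum V) := by
  intro a b hab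
  exact (Fintype.equivFin V).injective (Fin.ext hab)

theorem be_order {F : Type} [Field F] (C : Cplx) {h h' : C.V → ℕ} (hh : Function.Injective h)
    (hh' : Function.Injective h') (n : ℕ) : be F h C.X n = be F h' C.X n := by
  rw [← be_sd (F := F) (h2 := enum _) hh (enum_inj _) C.X_down C.X_empty n,
    ← be_sd (F := F) (h2 := enum _) hh' (enum_inj _) C.X_down C.X_empty n]

theorem be_iter {F : Type} [Field F] (n : ℕ) : ∀ (k : ℕ) (C : Cplx)
    (h : (Cplx.sd^[k] C).V → ℕ) (h' : C.V → ℕ), Function.Injective h → Function.Injective h' →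
    be F h (Cplx.sd^[k] C).X n = be F h' C.X n := by
  intro k
  induction k with
  | zero =>
    intro C h h' hh hh'
    exact be_order C hh hh' n
  | succ k ih =>
    intro C h h' hh hh'
    have h1 := ih C.sd h (enum _) hh (enum_inj _)
    have h2 : be F (enum C.sd.V) C.sd.X n = be F h' C.X n := by
      rw [C.sd_X]
      exact be_sd hh' (enum_inj _) C.X_down C.X_empty n
    exact h1.trans h2

/-- no iterated subdivision is perfect if a Betti number is larger over another field -/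
theorem not_perfect {F : Type} [Field F] (C : Cplx) (h : C.V → ℕ) (hh : Function.Injective h)
    (n : ℕ) (hlt : be (ZMod 2) h C.X (n + 2) < be F h C.X (n + 2)) (k : ℕ) :
    ¬ (Cplx.sd^[k] C).Perfect := by
  rintro ⟨f, hf, hc⟩
  have h1 := morse (F := F) (Cplx.sd^[k] C) (enum _) (enum_inj _) f hf n
  have h2 := hc (n + 1)
  rw [Cplx.betti_eq _ (enum _) n] at h2
  have h3 := be_iter (F := F) (n + 2) k C (enum _) h (enum_inj _) hh
  have h4 := be_iter (F := ZMod 2) (n + 2) k C (enum _) h (enum_inj _) hh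
  rw [h4] at h2
  have h5 : be F h C.X (n + 2) ≤ ((Cplx.sd^[k] C).crit f (n + 1)).ncard := by
    rw [← h3]; exact h1
  omega

/-! ### tightness -/

section tight

variable {ι : Type} [Fintype ι] [DecidableEq ι]

def hz (ι : Type) [Fintype ι] [DecidableEq ι] (x : SV ι) : ℕ :=
  (zs x).card * Fintype.card (SV ι) + enum (SV ι) x

theorem enum_lt (V : Type) [Fintype V] (v : V) : enum V v < Fintype.card V :=
  (Fintype.equivFin V v).2

theorem hz_inj : Function.Injective (hz ι) := by
  intro x y hxy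
  apply enum_inj
  have key : ∀ w : SV ι, hz ι w % Fintype.card (SV ι) = enum (SV ι) w := by
    intro w
    unfold hz
    rw [Nat.add_comm, Nat.add_mul_mod_self_right, Nat.mod_eq_of_lt (enum_lt _ _)]
  rw [← key x, ← key y, hxy]

theorem hz_mono (x y : SV ι) (h : le x y) (hne : x ≠ y) : hz ι x < hz ι y := by
  have h1 := zs_card_lt h hne
  have h2 := enum_lt (SV ι) x
  unfold hz
  have h3 : ((zs x).card + 1) * Fintype.card (SV ι) ≤ (zs y).card * Fintype.card (SV ι) :=
    Nat.mul_le_mul_right _ h1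
  rw [Nat.add_mul, one_mul] at h3
  omega

theorem C0_X {K : Set (Finset ι)} : (C0 K).X = XT K univ := by
  ext s
  constructor
  · rintro (h | h)
    · exact h.2
    · rw [h]
      exact ⟨fun y hy => absurd hy (Finset.notMem_empty y),
        fun y hy => absurd hy (Finset.notMem_empty y)⟩
  · intro h
    by_cases hs : s = ∅
    · exact Or.inr hs
    · exact Or.inl ⟨Finset.nonempty_iff_ne_empty.mpr hs, h⟩

def ev (x : SV ι) : EuclideanSpace ℝ ι := WithLp.toLp 2 (fun i => ((x i : SignType) : ℝ))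

omit [DecidableEq ι] in
theorem inner_ev (p : EuclideanSpace ℝ ι) (x : SV ι) : inner ℝ p (ev x) = ell p.ofLp x := by
  rw [PiLp.inner_apply]
  unfold ell
  refine sum_congr rfl fun i _ => ?_
  simp [ev, mul_comm]

omit [DecidableEq ι] in
theorem ev_inj {x y : SV ι} (h : ev x = ev y) : x = y := by
  funext i
  have h1 : (ev x).ofLp i = (ev y).ofLp i := by rw [h]
  have h2 : ((x i : SignType) : ℝ) = ((y i : SignType) : ℝ) := h1
  revert h2
  rcases x i with _ | _ | _ <;> rcases y i with _ | _ | _ <;> intro h2 <;> first | rfl | (exfalso; norm_num at h2)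

theorem ae_inj : ∀ᵐ p : EuclideanSpace ℝ ι, Function.Injective (ell p.ofLp) := by
  have h1 : ∀ x y : SV ι, ∀ᵐ p : EuclideanSpace ℝ ι, x ≠ y → ell p.ofLp x ≠ ell p.ofLp y := by
    intro x y
    by_cases hxy : x = y
    · exact Filter.Eventually.of_forall fun p h => absurd hxy h
    · set S : Submodule ℝ (EuclideanSpace ℝ ι) := (Submodule.span ℝ {ev x - ev y})ᗮ with hS
      have hne : S ≠ ⊤ := by
        intro h2
        have h3 : ev x - ev y ∈ S := by rw [h2]; exact Submodule.mem_top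
        rw [hS, Submodule.mem_orthogonal_singleton_iff_inner_left] at h3
        have h4 := inner_self_eq_zero.mp h3
        exact hxy (ev_inj (sub_eq_zero.mp h4))
      have h5 : volume (S : Set (EuclideanSpace ℝ ι)) = 0 := Measure.addHaar_submodule _ S hne
      have h6 : ∀ᵐ p : EuclideanSpace ℝ ι, p ∉ (S : Set (EuclideanSpace ℝ ι)) :=
        measure_eq_zero_iff_ae_notMem.mp h5
      filter_upwards [h6] with p hp _ he
      apply hp
      rw [SetLike.mem_coe, hS, Submodule.mem_orthogonal_singleton_iff_inner_left, inner_sub_right,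
        inner_ev, inner_ev, he, sub_self]
  have h2 : ∀ᵐ p : EuclideanSpace ℝ ι, ∀ x y : SV ι, x ≠ y → ell p.ofLp x ≠ ell p.ofLp y := by
    rw [ae_all_iff]
    intro x
    rw [ae_all_iff]
    exact h1 x
  filter_upwards [h2] with p hp x y hxy
  by_contra h3
  exact hp x y h3 hxy

theorem tight_C0 {K : Set (Finset ι)} (hK : Down K) (h0 : ∅ ∈ K) : (C0 K).Tight := by
  refine ⟨ι, inferInstance, fun x => ev x, ?_, ?_⟩
  · intro w hw w' hw' h
    apply C0_inj hw hw'
    funext i
    have h1 := congrArg (fun q : EuclideanSpace ℝ ι => q.ofLp i) h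
    simp only [WithLp.ofLp_sum, WithLp.ofLp_smul, Finset.sum_apply, Pi.smul_apply, smul_eq_mul] at h1
    exact h1
  · filter_upwards [ae_inj] with p hp t
    intro n z hzz hzU hzb
    obtain ⟨b, hb, rfl⟩ := hzb
    rw [SetLike.mem_coe, Cplx.chains_eq, C0_X] at hb
    have hbd := (C0 K).bd_eq (hz ι) hb
    set T2 : Finset (SV ι) := univ.filter fun x => t ≤ ell p.ofLp x with hT2
    have hup : UpC p.ofLp T2 := by
      intro y hy z hyz
      simp only [hT2, mem_filter, mem_univ, true_and] at hy ⊢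
      linarith
    have hzc := hzz.1
    rw [SetLike.mem_coe, Cplx.chains_eq, C0_X] at hzc
    have hDb0 : (C0 K).bd b ∈ Sp (ZMod 2) (XT K T2) (n + 1) := by
      intro s hs
      obtain ⟨h1, h2⟩ := hzc s hs
      refine ⟨⟨fun y hy => ⟨(h1.1 y hy).1, ?_⟩, h1.2⟩, h2⟩
      have h3 : t ≤ inner ℝ p (ev y) := hzU s hs y hy
      rw [inner_ev] at h3
      rw [hT2, mem_filter]
      exact ⟨mem_univ _, h3⟩
    have hDb : D (hz ι) b ∈ Sp (ZMod 2) (XT K T2) (n + 1) :=
      Eq.mp (congrArg (fun c => c ∈ Sp (ZMod 2) (XT K T2) (n + 1)) hbd) hDb0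
    obtain ⟨b', hb', hDb'⟩ := inj_all (F := ZMod 2) (h := hz ι) hz_inj hz_mono hK h0 hp hup _ univ
      (fun y _ z _ => mem_univ z) (subset_univ _) rfl n b hb hDb
    have hb'2 : b' ∈ Sp (ZMod 2) (XT K univ) (n + 2) := by
      refine Sp_mono ?_ _ hb'
      rintro s ⟨h1, h2⟩
      exact ⟨fun y hy => ⟨(h1 y hy).1, mem_univ _⟩, h2⟩
    refine ⟨b', ?_, ?_, ?_⟩
    · rw [Cplx.chains_eq, C0_X]; exact hb'2
    · intro s hs y hy
      have hT2m : ∀ q : SV ι, q ∈ T2 → t ≤ inner ℝ p (ev q) := by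
        intro q hq
        rw [hT2, mem_filter] at hq
        rw [inner_ev]; exact hq.2
      exact hT2m y ((hb' s hs).1.1 y hy).2
    · exact ((C0 K).bd_eq (hz ι) hb'2).trans (hDb'.trans hbd.symm)

end tight

/-! ### manifold -/

theorem manifold_of_charts {M H : Type} [TopologicalSpace M] [TopologicalSpace H]
    (h : ∀ p : M, ∃ e : OpenPartialHomeomorph M H, p ∈ e.source) :
    Nonempty (ChartedSpace H M) := by
  choose e he using h
  exact ⟨{ atlas := Set.univ
           chartAt := e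
           mem_chart_source := he
           chart_mem_atlas := fun _ => Set.mem_univ _ }⟩

theorem C0_manifold {V : Type} [Fintype V] [DecidableEq V] {L : Set (Finset V)} (hL : Down L)
    {d : ℕ} (hd : Fintype.card V = d + 1) : (C0 (Bi L)).IsManifold d := by
  apply manifold_of_charts
  intro q
  obtain ⟨φ⟩ := homeo (Bi_down hL)
  obtain ⟨i0, e, he⟩ := bier_chart L hL (φ q)
  have hc : Fintype.card {v : V // v ≠ i0} = d := by
    rw [Fintype.card_subtype_compl, Fintype.card_subtype_eq, hd]; simp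
  let σ : {v : V // v ≠ i0} ≃ Fin d := Fintype.equivFinOfCardEq hc
  let ψ : ({v : V // v ≠ i0} → ℝ) ≃ₜ EuclideanSpace ℝ (Fin d) :=
    (Homeomorph.piCongrLeft (Y := fun _ => ℝ) σ).trans
      (EuclideanSpace.equiv (Fin d) ℝ).symm.toHomeomorph
  exact ⟨(φ.toOpenPartialHomeomorph.trans e).trans ψ.toOpenPartialHomeomorph, by
    simp [he]⟩

/-! ### the example -/

def h16 : Fin 8 ⊕ Fin 8 → ℕ := Sum.elim (fun v => 2 * v.1) (fun v => 2 * v.1 + 1)

theorem h16_inj : Function.Injective h16 := by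
  rintro (a | a) (b | b) hab <;> simp only [h16, Sum.elim_inl, Sum.elim_inr] at hab
  · rw [Fin.ext (by omega : a.1 = b.1)]
  · omega
  · omega
  · rw [Fin.ext (by omega : a.1 = b.1)]

def z3 (T : Finset (Fin 8)) : ZMod 3 := ((zz T : ℤ) : ZMod 3)

theorem z3_mem : z3 ∈ Sp (ZMod 3) LL 3 := by
  intro s hs
  have h1 : zz s ≠ 0 := by
    intro h; apply hs; unfold z3; rw [h]; simp
  have h2 := zz_supp s h1
  exact ⟨⟨s, h2, subset_refl _⟩, tri_card s h2⟩

theorem z3_ne : z3 ≠ 0 := by
  intro h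
  have h1 := congrFun h {0, 1, 3}
  have h2 : zz {0, 1, 3} = 1 := by decide
  unfold z3 at h1
  rw [h2] at h1
  revert h1
  decide

theorem z3_D : D (fun v : Fin 8 => h16 (Sum.inl v)) z3 = 0 := by
  funext t
  by_cases ht : t.card = 2
  · rw [D_apply, Pi.zero_apply]
    obtain ⟨k, hk⟩ := zz_D t ht
    have h1 : ∑ v ∈ tᶜ, sg (ZMod 3) (fun v : Fin 8 => h16 (Sum.inl v)) v t * z3 (insert v t) =
        ((∑ v ∈ tᶜ, (-1) ^ (t.filter (fun u => u < v)).card * zz (insert v t) : ℤ) : ZMod 3) := by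
      rw [Int.cast_sum]
      refine sum_congr rfl fun v _ => ?_
      rw [Int.cast_mul, Int.cast_pow, Int.cast_neg, Int.cast_one]
      have h2 : t.filter (fun u => h16 (Sum.inl u) < h16 (Sum.inl v)) = t.filter (fun u => u < v) := by
        apply filter_congr
        intro u _
        simp only [h16, Sum.elim_inl]
        rw [Fin.lt_def]; omega
      unfold sg
      rw [h2]
      rfl
    rw [h1, hk, Int.cast_mul]
    have h3 : ((3 : ℤ) : ZMod 3) = 0 := by decide
    rw [h3, zero_mul]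
  · by_contra h1
    have := (D_mem LL_down z3_mem t h1).2
    exact ht this

theorem exists_p : ∃ p : Fin 8 ⊕ Fin 8 → ℝ, Function.Injective (ell p) := by
  have h1 := (ae_inj (ι := Fin 8 ⊕ Fin 8)).exists
  obtain ⟨p, hp⟩ := h1
  exact ⟨p.ofLp, hp⟩

theorem strict : be (ZMod 2) (hz (Fin 8 ⊕ Fin 8)) (XT (Bi LL) univ) 3 <
    be (ZMod 3) (hz (Fin 8 ⊕ Fin 8)) (XT (Bi LL) univ) 3 := by
  obtain ⟨p, hp⟩ := exists_p
  have hB0 : (∅ : Finset (Fin 8 ⊕ Fin 8)) ∈ Bi LL := by
    refine ⟨?_, ?_, ?_⟩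
    · have : lf (∅ : Finset (Fin 8 ⊕ Fin 8)) = ∅ := by ext v; simp [mem_lf]
      rw [this]; exact LL_empty
    · have : rt (∅ : Finset (Fin 8 ⊕ Fin 8)) = ∅ := by ext v; simp [mem_rt]
      rw [this, compl_empty]
      intro h
      have := LL_card _ h
      simp at this
    · have : rt (∅ : Finset (Fin 8 ⊕ Fin 8)) = ∅ := by ext v; simp [mem_rt]
      rw [this]; simp
  have e2 := be_rz (F := ZMod 2) hz_inj hz_mono h16_inj (Bi_down LL_down) hB0 hp 1
  have e3 := be_rz (F := ZMod 3) hz_inj hz_mono h16_inj (Bi_down LL_down) hB0 hp 1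
  have hcmp := compare (F := ZMod 2) (F' := ZMod 3) h16_inj LL_down LL_card (by simp)
    (fun c hc hD => z2_inj c hc hD)
  show be (ZMod 2) (hz (Fin 8 ⊕ Fin 8)) (XT (Bi LL) univ) (1 + 2) <
    be (ZMod 3) (hz (Fin 8 ⊕ Fin 8)) (XT (Bi LL) univ) (1 + 2)
  rw [e2, e3]
  let x0 : SV (Fin 8 ⊕ Fin 8) := fun i => Sum.elim (fun v => - SignType.sign (p (Sum.inl v)))
    (fun v => SignType.sign (p (Sum.inr v))) i
  have hx0 : zs x0 = ∅ := by
    rw [Finset.eq_empty_iff_forall_notMem]
    intro i hi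
    rw [mem_zs] at hi
    have h1 := p_ne hp i
    have h2 : SignType.sign (p i) ≠ 0 := fun h => h1 (sign_eq_zero_iff.mp h)
    rcases i with v | v
    · apply h2
      have h3 : - SignType.sign (p (Sum.inl v)) = 0 := hi
      revert h3
      rcases SignType.sign (p (Sum.inl v)) with _ | _ | _ <;> decide
    · exact h2 hi
  have hW : Wx p x0 = univ.map ⟨Sum.inl, Sum.inl_injective⟩ := by
    ext i
    rw [mem_Wx]
    rcases i with v | v
    · have h3 : x0 (Sum.inl v) = - SignType.sign (p (Sum.inl v)) := rfl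
      have h4 : ((-(SignType.sign (p (Sum.inl v))) : SignType) : ℝ) =
          - ((SignType.sign (p (Sum.inl v)) : SignType) : ℝ) := by
        rcases SignType.sign (p (Sum.inl v)) with _ | _ | _ <;> simp
      rw [h3, h4, mul_neg, p_sign]
      simp only [mem_map, mem_univ, Function.Embedding.coeFn_mk, true_and, Sum.inl.injEq,
        exists_eq, iff_true]
      have := abs_pos.mpr (p_ne hp (Sum.inl v))
      linarith
    · have h3 : x0 (Sum.inr v) = SignType.sign (p (Sum.inr v)) := rfl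
      rw [h3, p_sign]
      simp only [mem_map, mem_univ, Function.Embedding.coeFn_mk, true_and, reduceCtorEq,
        exists_false, iff_false, not_lt]
      exact abs_nonneg _
  apply sum_lt_sum
  · intro x _
    by_cases hx : zs x = ∅
    · rw [if_pos hx, if_pos hx]; exact (hcmp _).1
    · rw [if_neg hx, if_neg hx]
  · refine ⟨x0, mem_univ _, ?_⟩
    rw [if_pos hx0, if_pos hx0]
    exact (hcmp _).2 hW ⟨z3, z3_mem, z3_D, z3_ne⟩

theorem main7 : ∃ C : Cplx, C.IsManifold 7 ∧ C.Tight ∧ ∀ k, ¬ (Cplx.sd^[k] C).Perfect := by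
  refine ⟨C0 (Bi LL), C0_manifold LL_down (by simp), tight_C0 (Bi_down LL_down) ?_, ?_⟩
  · refine ⟨?_, ?_, ?_⟩
    · have : lf (∅ : Finset (Fin 8 ⊕ Fin 8)) = ∅ := by ext v; simp [mem_lf]
      rw [this]; exact LL_empty
    · have : rt (∅ : Finset (Fin 8 ⊕ Fin 8)) = ∅ := by ext v; simp [mem_rt]
      rw [this, compl_empty]
      intro h
      have := LL_card _ h
      simp at this
    · have : rt (∅ : Finset (Fin 8 ⊕ Fin 8)) = ∅ := by ext v; simp [mem_rt]
      rw [this]; simp
  · intro k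
    apply not_perfect (F := ZMod 3) (C0 (Bi LL)) (hz (Fin 8 ⊕ Fin 8)) hz_inj 1
    rw [C0_X]
    exact strict

end

end Pool.Agent.H999R3.Tm
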