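import Pool.Agent.H999R3.Tm.Fc

namespace Pool.Agent.H999R3.Tm

open Finset Module

noncomputable section

variable {V : Type} [Fintype V] [DecidableEq V] {F : Type} [Field F]

theorem fr {M N : Type} [AddCommGroup M] [Module F M] [AddCommGroup N] [Module F N]
    [FiniteDimensional F M] (p : Submodule F M) (f : M →ₗ[F] N) :
    finrank F (p.map f) + finrank F (p ⊓ LinearMap.ker f : Submodule F M) = finrank F p := by
  have h1 := LinearMap.finrank_range_add_finrank_ker (f.domRestrict p)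
  rw [LinearMap.range_domRestrict] at h1
  have h2 : (LinearMap.ker (f.domRestrict p)).map p.subtype = p ⊓ LinearMap.ker f := by
    ext x
    simp only [Submodule.mem_map, LinearMap.mem_ker, Submodule.mem_inf]
    constructor
    · rintro ⟨y, hy, rfl⟩
      exact ⟨y.2, hy⟩
    · rintro ⟨hx, hf⟩
      exact ⟨⟨x, hx⟩, hf, rfl⟩
  rw [← h2, Submodule.finrank_map_subtype_eq]
  exact h1

def Zc (F : Type) [Field F] (h : V → ℕ) (X : Set (Finset V)) (n : ℕ) :
    Submodule F (Finset V → F) := Sp F X n ⊓ LinearMap.ker (D h)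

def Bc (F : Type) [Field F] (h : V → ℕ) (X : Set (Finset V)) (n : ℕ) :
    Submodule F (Finset V → F) := (Sp F X (n + 1)).map (D h)

def be (F : Type) [Field F] (h : V → ℕ) (X : Set (Finset V)) (n : ℕ) : ℕ :=
  finrank F (Zc F h X n) - finrank F (Bc F h X n)

theorem mem_Zc {h : V → ℕ} {X : Set (Finset V)} {n : ℕ} {c : Finset V → F} :
    c ∈ Zc F h X n ↔ c ∈ Sp F X n ∧ D h c = 0 := by
  rw [Zc, Submodule.mem_inf, LinearMap.mem_ker]

theorem mem_Bc {h : V → ℕ} {X : Set (Finset V)} {n : ℕ} {c : Finset V → F} :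
    c ∈ Bc F h X n ↔ ∃ b ∈ Sp F X (n + 1), D h b = c := by
  rw [Bc, Submodule.mem_map]

theorem Bc_le_Zc {h : V → ℕ} (hh : Function.Injective h) {X : Set (Finset V)} (hX : Down X)
    (n : ℕ) : Bc F h X n ≤ Zc F h X n := by
  intro c hc
  obtain ⟨b, hb, rfl⟩ := mem_Bc.mp hc
  exact mem_Zc.mpr ⟨D_mem hX hb, D_D hh b⟩

theorem Bc_fin_le {h : V → ℕ} (hh : Function.Injective h) {X : Set (Finset V)} (hX : Down X)
    (n : ℕ) : finrank F (Bc F h X n) ≤ finrank F (Zc F h X n) :=
  Submodule.finrank_mono (Bc_le_Zc hh hX n)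

theorem be_red {h : V → ℕ} (hh : Function.Injective h) {X Y : Set (Finset V)} (hX : Down X)
    (hY : Down Y) (hr : Red F h Y X) (n : ℕ) : be F h Y n = be F h X n := by
  have h1 : Zc F h X n ⊔ Bc F h Y n = Zc F h Y n := by
    apply le_antisymm
    · refine sup_le ?_ (Bc_le_Zc hh hY n)
      intro c hc
      rw [mem_Zc] at hc ⊢
      exact ⟨Sp_mono hr.sub n hc.1, hc.2⟩
    · intro c hc
      rw [mem_Zc] at hc
      obtain ⟨g, hg, hg'⟩ := hr.surj n c hc.1 hc.2
      rw [Submodule.mem_sup]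
      refine ⟨c + D h g, mem_Zc.mpr ⟨hg', by rw [map_add, hc.2, D_D hh, add_zero]⟩,
        D h (-g), mem_Bc.mpr ⟨-g, Submodule.neg_mem _ hg, rfl⟩, ?_⟩
      rw [map_neg]; abel
  have h2 : Zc F h X n ⊓ Bc F h Y n = Bc F h X n := by
    apply le_antisymm
    · intro c hc
      rw [Submodule.mem_inf, mem_Zc, mem_Bc] at hc
      obtain ⟨⟨hc1, _⟩, b, hb, rfl⟩ := hc
      obtain ⟨b', hb', he⟩ := hr.inj n b hb hc1
      exact mem_Bc.mpr ⟨b', hb', he⟩
    · refine le_inf (Bc_le_Zc hh hX n) ?_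
      exact Submodule.map_mono (Sp_mono hr.sub _)
  have h3 := Submodule.finrank_sup_add_finrank_inf_eq (Zc F h X n) (Bc F h Y n)
  rw [h1, h2] at h3
  have h4 := Bc_fin_le (F := F) hh hX n
  have h5 := Bc_fin_le (F := F) hh hY n
  unfold be
  omega

theorem be_acyc {h : V → ℕ} {X : Set (Finset V)}
    (n : ℕ) (ha : ∀ e ∈ Sp F X n, D h e = 0 → ∃ e' ∈ Sp F X (n + 1), D h e' = e) :
    be F h X n = 0 := by
  have : Zc F h X n ≤ Bc F h X n := by
    intro c hc
    rw [mem_Zc] at hc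
    obtain ⟨e', he', h1⟩ := ha c hc.1 hc.2
    exact mem_Bc.mpr ⟨e', he', h1⟩
  have := Submodule.finrank_mono this
  unfold be
  omega

theorem be_count {h : V → ℕ} (hh : Function.Injective h) {Y : Set (Finset V)} (hY : Down Y)
    (x : V) (n : ℕ)
    (hE : ∀ e ∈ Sp F (lk Y x) n, D h e = 0 → ∃ A ∈ Sp F Y (n + 1), D h A = 0 ∧ lx h x A = e)
    (hI : ∀ b ∈ Sp F Y (n + 2), D h b ∈ Sp F (del Y x) (n + 1) →
      ∃ b' ∈ Sp F (del Y x) (n + 2), D h b' = D h b) :
    be F h Y (n + 1) = be F h (del Y x) (n + 1) + be F h (lk Y x) n := by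
  have z1 : (Zc F h Y (n + 1)).map (lx h x) = Zc F h (lk Y x) n := by
    ext e
    rw [Submodule.mem_map, mem_Zc]
    constructor
    · rintro ⟨c, hc, rfl⟩
      rw [mem_Zc] at hc
      refine ⟨lx_mem hc.1, ?_⟩
      have := lx_D hh x c
      rw [hc.2, map_zero] at this
      exact neg_eq_zero.mp this.symm
    · rintro ⟨he, hDe⟩
      obtain ⟨A, hA, hDA, hlA⟩ := hE e he hDe
      exact ⟨A, mem_Zc.mpr ⟨hA, hDA⟩, hlA⟩
  have z2 : Zc F h Y (n + 1) ⊓ LinearMap.ker (lx h x) = Zc F h (del Y x) (n + 1) := by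
    ext e
    rw [Submodule.mem_inf, mem_Zc, mem_Zc, LinearMap.mem_ker]
    constructor
    · rintro ⟨⟨h1, h2⟩, h3⟩
      exact ⟨mem_del_of_lx h1 h3, h2⟩
    · rintro ⟨h1, h2⟩
      exact ⟨⟨Sp_mono (fun s hs => hs.2) _ h1, h2⟩, lx_zero h x (off_of_del h1)⟩
  have b1 : (Bc F h Y (n + 1)).map (lx h x) = Bc F h (lk Y x) n := by
    ext e
    rw [Submodule.mem_map, mem_Bc]
    constructor
    · rintro ⟨c, hc, rfl⟩
      obtain ⟨b, hb, rfl⟩ := mem_Bc.mp hc
      refine ⟨- lx h x b, Submodule.neg_mem _ (lx_mem hb), ?_⟩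
      rw [lx_D hh, map_neg]
    · rintro ⟨e', he', rfl⟩
      refine ⟨D h (kp h x (-e')), mem_Bc.mpr ⟨_, kp_mem (Submodule.neg_mem _ he'), rfl⟩, ?_⟩
      have ho : ∀ s, x ∈ s → (-e') s = 0 := by
        intro s hs; rw [Pi.neg_apply, off_of_lk he' s hs, neg_zero]
      rw [lx_D hh, lx_kp h x ho, map_neg, neg_neg]
  have b2 : Bc F h Y (n + 1) ⊓ LinearMap.ker (lx h x) = Bc F h (del Y x) (n + 1) := by
    ext e
    rw [Submodule.mem_inf, mem_Bc, mem_Bc, LinearMap.mem_ker]
    constructor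
    · rintro ⟨⟨b, hb, rfl⟩, h3⟩
      exact hI b hb (mem_del_of_lx (D_mem hY hb) h3)
    · rintro ⟨b, hb, rfl⟩
      exact ⟨⟨b, Sp_mono (fun s hs => hs.2) _ hb, rfl⟩, lx_zero h x (D_off h x (off_of_del hb))⟩
  have z3 := fr (Zc F h Y (n + 1)) (lx h x)
  have b3 := fr (Bc F h Y (n + 1)) (lx h x)
  rw [z1, z2] at z3
  rw [b1, b2] at b3
  have h4 := Bc_fin_le (F := F) hh (lk_down hY x) n
  have h5 := Bc_fin_le (F := F) hh (del_down hY x) (n + 1)
  unfold be
  omega

/-- transport along an injective map of vertices -/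
def pull (F : Type) [Field F] {V V' : Type} (f : V' ↪ V) :
    (Finset V → F) →ₗ[F] (Finset V' → F) where
  toFun c s := c (s.map f)
  map_add' _ _ := rfl
  map_smul' _ _ := rfl

theorem be_map {V' : Type} [Fintype V'] [DecidableEq V'] {h : V → ℕ} {h' : V' → ℕ}
    (f : V' ↪ V) (hf : ∀ u v, h (f u) < h (f v) ↔ h' u < h' v)
    {X : Set (Finset V)} {X' : Set (Finset V')} (hX' : Down X')
    (hX : ∀ s, s ∈ X ↔ ∃ s' ∈ X', s'.map f = s) (n : ℕ) : be F h X n = be F h' X' n := by
  have hsg : ∀ (v : V') (s : Finset V'), sg F h (f v) (s.map f) = sg F h' v s := by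
    intro v s
    unfold sg
    rw [filter_map, card_map]
    congr 2
    apply filter_congr
    intro u _
    simp only [Function.comp]
    exact hf u v
  have hcomm : ∀ m, ∀ c ∈ Sp F X m, D h' (pull F f c) = pull F f (D h c) := by
    intro m c hc
    funext s
    show D h' (pull F f c) s = D h c (s.map f)
    rw [D_apply, D_apply]
    have h1 : (sᶜ).map f ⊆ (s.map f)ᶜ := by
      intro w hw
      rw [mem_map] at hw
      obtain ⟨v, hv, rfl⟩ := hw
      rw [mem_compl, mem_map']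
      exact mem_compl.mp hv
    rw [← sum_subset h1, sum_map]
    · refine sum_congr rfl fun v _ => ?_
      show _ * c ((insert v s).map f) = _
      rw [map_insert, hsg]
    · intro w hw hw'
      have : c (insert w (s.map f)) = 0 := by
        by_contra h2
        obtain ⟨s', _, hs'⟩ := (hX _).mp (hc _ h2).1
        have h3 : w ∈ s'.map f := by rw [hs']; exact mem_insert_self _ _
        rw [mem_map] at h3
        obtain ⟨v, _, rfl⟩ := h3
        apply hw'
        rw [mem_map']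
        rw [mem_compl, mem_map'] at hw
        exact mem_compl.mpr hw
      rw [this, mul_zero]
  have hSp : ∀ m, (Sp F X m).map (pull F f) = Sp F X' m := by
    intro m
    ext c'
    rw [Submodule.mem_map]
    constructor
    · rintro ⟨c, hc, rfl⟩ s hs
      obtain ⟨h1, h2⟩ := hc _ hs
      obtain ⟨s', hs', he⟩ := (hX _).mp h1
      rw [map_inj] at he
      rw [card_map] at h2
      exact ⟨he ▸ hs', h2⟩
    · intro hc'
      classical
      refine ⟨fun s => if hs : ∃ s' : Finset V', s'.map f = s then c' hs.choose else 0, ?_, ?_⟩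
      · intro s hs
        by_cases h1 : ∃ s' : Finset V', s'.map f = s
        · simp only [h1, dif_pos] at hs
          have h2 := hc' _ hs
          refine ⟨(hX s).mpr ⟨_, h2.1, h1.choose_spec⟩, ?_⟩
          rw [← h2.2, ← card_map f, h1.choose_spec]
        · simp [h1] at hs
      · funext s
        show (if hs : ∃ s' : Finset V', s'.map f = s.map f then c' hs.choose else 0) = c' s
        have h1 : ∃ s' : Finset V', s'.map f = s.map f := ⟨s, rfl⟩
        rw [dif_pos h1]
        congr 1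
        exact map_injective f h1.choose_spec
  have hker : ∀ m, ∀ c ∈ Sp F X m, pull F f c = 0 → c = 0 := by
    intro m c hc h0
    funext s
    by_contra h1
    obtain ⟨s', _, hs'⟩ := (hX _).mp (hc _ h1).1
    apply h1
    rw [← hs']
    exact congrFun h0 s'
  have hXd : Down X := by
    intro s hs t hts
    obtain ⟨s', hs', rfl⟩ := (hX _).mp hs
    rw [subset_map_iff] at hts
    obtain ⟨u, hu, rfl⟩ := hts
    exact (hX _).mpr ⟨u, hX' _ hs' _ hu, rfl⟩
  have hZ : (Zc F h X n).map (pull F f) = Zc F h' X' n := by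
    ext e
    rw [Submodule.mem_map, mem_Zc]
    constructor
    · rintro ⟨c, hc, rfl⟩
      rw [mem_Zc] at hc
      refine ⟨?_, ?_⟩
      · rw [← hSp n]; exact Submodule.mem_map_of_mem hc.1
      · rw [hcomm n c hc.1, hc.2, map_zero]
    · rintro ⟨he, hDe⟩
      rw [← hSp n, Submodule.mem_map] at he
      obtain ⟨c, hc, rfl⟩ := he
      refine ⟨c, mem_Zc.mpr ⟨hc, ?_⟩, rfl⟩
      rw [hcomm n c hc] at hDe
      rcases n with _ | n
      · exact D_deg0 hc
      · exact hker n _ (D_mem hXd hc) hDe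
  have hB : (Bc F h X n).map (pull F f) = Bc F h' X' n := by
    ext e
    rw [Submodule.mem_map, mem_Bc]
    constructor
    · rintro ⟨c, hc, rfl⟩
      obtain ⟨b, hb, rfl⟩ := mem_Bc.mp hc
      refine ⟨pull F f b, ?_, hcomm _ b hb⟩
      rw [← hSp]; exact Submodule.mem_map_of_mem hb
    · rintro ⟨b, hb, rfl⟩
      rw [← hSp, Submodule.mem_map] at hb
      obtain ⟨c, hc, rfl⟩ := hb
      exact ⟨D h c, mem_Bc.mpr ⟨c, hc, rfl⟩, (hcomm _ c hc).symm⟩
  have fz := fr (Zc F h X n) (pull F f)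
  have fb := fr (Bc F h X n) (pull F f)
  have kz : Zc F h X n ⊓ LinearMap.ker (pull F f) = ⊥ := by
    rw [eq_bot_iff]
    intro c hc
    rw [Submodule.mem_inf, mem_Zc, LinearMap.mem_ker] at hc
    exact hker n c hc.1.1 hc.2
  have kb : Bc F h X n ⊓ LinearMap.ker (pull F f) = ⊥ := by
    rw [eq_bot_iff]
    intro c hc
    rw [Submodule.mem_inf, mem_Bc, LinearMap.mem_ker] at hc
    obtain ⟨⟨b, hb, rfl⟩, h2⟩ := hc
    exact hker n _ (D_mem hXd hb) h2
  rw [hZ, kz] at fz
  rw [hB, kb] at fb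
  simp only [finrank_bot, add_zero] at fz fb
  unfold be
  rw [← fz, ← fb]

end

end Pool.Agent.H999R3.Tm
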