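import Pool.Agent.H999R3.Tm.Rz3

namespace Pool.Agent.H999R3.Tm

open Finset Module

noncomputable section

section gen

variable {V : Type} [Fintype V] [DecidableEq V] {F : Type} [Field F]

def lf (s : Finset (V ⊕ V)) : Finset V := univ.filter fun v => Sum.inl v ∈ s
def rt (s : Finset (V ⊕ V)) : Finset V := univ.filter fun v => Sum.inr v ∈ s

theorem mem_lf {s : Finset (V ⊕ V)} {v : V} : v ∈ lf s ↔ Sum.inl v ∈ s := by simp [lf]
theorem mem_rt {s : Finset (V ⊕ V)} {v : V} : v ∈ rt s ↔ Sum.inr v ∈ s := by simp [rt]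

/-- the Bier sphere of L (with the empty face) -/
def Bi (L : Set (Finset V)) : Set (Finset (V ⊕ V)) :=
  {s | lf s ∈ L ∧ (rt s)ᶜ ∉ L ∧ Disjoint (lf s) (rt s)}

theorem Bi_down {L : Set (Finset V)} (hL : Down L) : Down (Bi L) := by
  rintro s ⟨h1, h2, h3⟩ t hts
  have e1 : lf t ⊆ lf s := fun v hv => mem_lf.mpr (hts (mem_lf.mp hv))
  have e2 : rt t ⊆ rt s := fun v hv => mem_rt.mpr (hts (mem_rt.mp hv))
  refine ⟨hL _ h1 _ e1, fun h4 => h2 (hL _ h4 _ (compl_subset_compl.mpr e2)), ?_⟩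
  exact h3.mono e1 e2

/-- a complex whose deletion of x is a cone in low degrees -/
theorem be2_cone {F' : Type} [Field F'] {h : V → ℕ} (hh : Function.Injective h)
    {Y : Set (Finset V)} (hY : Down Y) (x a : V)
    (hc : ∀ s ∈ del Y x, s.card ≤ 2 → insert a s ∈ del Y x) :
    be F h Y 2 = be F' h Y 2 := by
  have key : ∀ (G : Type) [Field G], be G h Y 2 = be G h (lk Y x) 1 := by
    intro G _
    rw [be_count hh hY x 1]
    · rw [be_acyc 2, zero_add]
      intro e he hDe
      refine ⟨kp h a e, kp_mem' he (fun s hs _ hcd => hc s hs (by omega)), ?_⟩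
      rw [D_kp hh, hDe, map_zero, sub_zero]
    · intro e he hDe
      have he' : kp h a e ∈ Sp G (del Y x) 2 :=
        kp_mem' he (fun s hs _ hcd => hc s (lk_sub_del hY x hs) (by omega))
      refine ⟨kp h x e - kp h a e, Submodule.sub_mem _ (kp_mem he)
        (Sp_mono (fun s hs => hs.2) _ he'), ?_, ?_⟩
      · rw [map_sub, D_kp hh, D_kp hh, hDe, map_zero, map_zero, sub_zero, sub_self]
      · rw [map_sub, lx_kp h x (off_of_lk he), lx_zero h x (off_of_del he'), sub_zero]
    · intro b hb hDb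
      refine ⟨kp h a (D h b), kp_mem' hDb (fun s hs _ hcd => hc s hs (by omega)), ?_⟩
      rw [D_kp hh, D_D hh, map_zero, sub_zero]
  rw [key F, key F', be1_indep (F' := F') hh (lk_down hY x)]

theorem be2_top {F' : Type} [Field F'] {h : V → ℕ} (hh : Function.Injective h)
    {Y : Set (Finset V)} (hY : Down Y) (hz : Zc F h Y 3 = ⊥) :
    be F h Y 2 + finrank F' (Zc F' h Y 3) = be F' h Y 2 := by
  have a1 := finrank_Bc1 (F := F) hh hY
  have a2 := finrank_Bc1 (F := F') hh hY
  have b1 : finrank F (Bc F h Y 1) + finrank F (Zc F h Y 2) = fn Y 2 := finrank_Zc h Y 1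
  have b2 : finrank F' (Bc F' h Y 1) + finrank F' (Zc F' h Y 2) = fn Y 2 := finrank_Zc h Y 1
  have c1 : finrank F (Bc F h Y 2) + finrank F (Zc F h Y 3) = fn Y 3 := finrank_Zc h Y 2
  have c2 : finrank F' (Bc F' h Y 2) + finrank F' (Zc F' h Y 3) = fn Y 3 := finrank_Zc h Y 2
  have d1 := Bc_fin_le (F := F) hh hY 2
  have d2 := Bc_fin_le (F := F') hh hY 2
  rw [hz, finrank_bot] at c1
  unfold be
  omega

/-- comparison of the Betti numbers of all full subcomplexes -/
theorem compare {h : V ⊕ V → ℕ} (hh : Function.Injective h) {L : Set (Finset V)} (hL : Down L)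
    (hcard : ∀ s ∈ L, s.card ≤ 3) (hV : 7 ≤ Fintype.card V)
    {F' : Type} [Field F']
    (hz : ∀ c ∈ Sp F L 3, D (fun v => h (Sum.inl v)) c = 0 → c = 0) (W : Finset (V ⊕ V)) :
    be F h (KW (Bi L) W) 2 ≤ be F' h (KW (Bi L) W) 2 ∧
    (W = univ.map ⟨Sum.inl, Sum.inl_injective⟩ →
      (∃ c ∈ Sp F' L 3, D (fun v => h (Sum.inl v)) c = 0 ∧ c ≠ 0) →
      be F h (KW (Bi L) W) 2 < be F' h (KW (Bi L) W) 2) := by
  by_cases hW : ∃ v, Sum.inr v ∈ W
  · obtain ⟨v, hv⟩ := hW
    constructor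
    · apply le_of_eq
      apply be2_cone hh (KW_down (Bi_down hL) W) (Sum.inl v) (Sum.inr v)
      rintro s ⟨h1, ⟨h2, h3, h4⟩, h5⟩ hcd
      have e1 : lf (insert (Sum.inr v) s) = lf s := by ext u; simp [mem_lf]
      have e2 : rt (insert (Sum.inr v) s) = insert v (rt s) := by ext u; simp [mem_rt]
      refine ⟨by simp [h1], ⟨by rw [e1]; exact h2, ?_, ?_⟩, ?_⟩
      · rw [e2]
        intro h6
        have h7 := hcard _ h6
        rw [card_compl] at h7
        have h8 : (insert v (rt s)).card ≤ (rt s).card + 1 := card_insert_le _ _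
        have h9 : (rt s).card ≤ s.card := by
          apply card_le_card_of_injOn (fun v => (Sum.inr v : V ⊕ V))
          · intro u hu
            exact mem_rt.mp hu
          · intro a _ b _ hab
            exact Sum.inr_injective hab
        omega
      · rw [e1, e2, disjoint_insert_right]
        exact ⟨fun h6 => h1 (mem_lf.mp h6), h4⟩
      · rw [insert_subset_iff]; exact ⟨hv, h5⟩
    · intro h6
      rw [h6] at hv
      simp at hv
  · have hnl : (univ : Finset V) ∉ L := by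
      intro h1
      have := hcard _ h1
      rw [card_univ] at this
      omega
    set A : Finset V := lf W with hA
    have htr : ∀ (G : Type) [Field G] (n : ℕ), be G h (KW (Bi L) W) n =
        be G (fun v => h (Sum.inl v)) (KW L A) n := by
      intro G _ n
      apply be_map ⟨Sum.inl, Sum.inl_injective⟩ (fun _ _ => Iff.rfl) (KW_down hL A)
      intro s
      constructor
      · rintro ⟨⟨h2, h3, h4⟩, h5⟩
        refine ⟨lf s, ⟨h2, fun v hv => mem_lf.mpr (h5 (mem_lf.mp hv))⟩, ?_⟩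
        ext a
        rcases a with v | v
        · simp [mem_lf]
        · constructor
          · intro h6; simp at h6
          · intro h6; exact absurd ⟨v, h5 h6⟩ hW
      · rintro ⟨s', ⟨h1, h2⟩, rfl⟩
        have e1 : lf (s'.map ⟨Sum.inl, Sum.inl_injective⟩) = s' := by ext u; simp [mem_lf]
        have e2 : rt (s'.map ⟨Sum.inl, Sum.inl_injective⟩) = ∅ := by ext u; simp [mem_rt]
        refine ⟨⟨by rw [e1]; exact h1, by rw [e2]; simpa using hnl, by rw [e2]; simp⟩, ?_⟩
        intro a ha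
        rw [mem_map] at ha
        obtain ⟨v, hv, rfl⟩ := ha
        exact mem_lf.mp (h2 hv)
    have hh' : Function.Injective (fun v : V => h (Sum.inl v)) := hh.comp Sum.inl_injective
    have hzero : Zc F (fun v => h (Sum.inl v)) (KW L A) 3 = ⊥ := by
      rw [eq_bot_iff]
      intro c hc
      rw [mem_Zc] at hc
      exact hz c (Sp_mono (fun s hs => hs.1) _ hc.1) hc.2
    have h1 := be2_top (F' := F') hh' (KW_down hL A) hzero
    rw [htr F, htr F']
    refine ⟨by omega, ?_⟩
    rintro hWe ⟨c, hc, hDc, hc0⟩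
    have hAu : A = univ := by
      rw [hA, hWe]; ext v; simp [mem_lf]
    have h2 : KW L A = L := by
      rw [hAu]; ext s; exact ⟨fun h => h.1, fun h => ⟨h, subset_univ _⟩⟩
    have h3 : 0 < finrank F' (Zc F' (fun v => h (Sum.inl v)) (KW L A) 3) := by
      rw [h2]
      apply Module.finrank_pos_iff_exists_ne_zero.mpr
      exact ⟨⟨c, mem_Zc.mpr ⟨hc, hDc⟩⟩, fun h4 => hc0 (congrArg Subtype.val h4)⟩
    omega

end gen

/-- the 17 triangles of an 8-vertex triangulation of the mod 3 Moore space -/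
def tri : Finset (Finset (Fin 8)) :=
  {{0,1,3},{1,2,3},{0,2,4},{0,1,4},{1,2,5},{0,2,5},{0,1,6},{1,2,6},{0,2,7},{2,3,4},{1,4,5},
   {0,5,6},{2,6,7},{0,3,7},{3,4,5},{3,5,6},{3,6,7}}

def LL : Set (Finset (Fin 8)) := {s | ∃ T ∈ tri, s ⊆ T}

theorem LL_down : Down LL := fun _ ⟨T, hT, hs⟩ _ hts => ⟨T, hT, hts.trans hs⟩

set_option maxRecDepth 100000 in
theorem tri_card : ∀ T ∈ tri, T.card = 3 := by decide

theorem LL_card : ∀ s ∈ LL, s.card ≤ 3 := by
  rintro s ⟨T, hT, hs⟩
  rw [← tri_card T hT]; exact card_le_card hs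

theorem LL_tri {s : Finset (Fin 8)} (hs : s ∈ LL) (hc : s.card = 3) : s ∈ tri := by
  obtain ⟨T, hT, hs⟩ := hs
  have := eq_of_subset_of_card_le hs (by rw [tri_card T hT, hc])
  rw [this]; exact hT

theorem LL_empty : (∅ : Finset (Fin 8)) ∈ LL := ⟨{0,1,3}, by decide, empty_subset _⟩

theorem D_edge {h : Fin 8 → ℕ} {c : Finset (Fin 8) → ZMod 2} (hc : c ∈ Sp (ZMod 2) LL 3)
    (hD : D h c = 0) (e : Finset (Fin 8)) (he : e.card = 2) :
    ∑ T ∈ tri.filter (fun T => e ⊆ T), c T = 0 := by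
  have h1 := congrFun hD e
  rw [D_apply, Pi.zero_apply] at h1
  rw [← h1]
  have hsg : ∀ v, sg (ZMod 2) h v e = 1 := by
    intro v
    unfold sg
    have : (-1 : ZMod 2) = 1 := by decide
    rw [this, one_pow]
  simp only [hsg, one_mul]
  have h2 : ∑ v ∈ eᶜ, c (insert v e) = ∑ T ∈ (eᶜ).image (fun v => insert v e), c T := by
    rw [sum_image]
    intro u hu v hv huv
    rw [mem_coe, mem_compl] at hu hv
    have h3 : u ∈ insert v e := by
      have : u ∈ insert u e := mem_insert_self _ _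
      have h4 : insert u e = insert v e := huv
      rwa [h4] at this
    rcases mem_insert.mp h3 with h4 | h4
    · exact h4
    · exact absurd h4 hu
  rw [h2]
  apply sum_subset
  · intro T hT
    rw [mem_filter] at hT
    rw [mem_image]
    have h3 : (T \ e).card = 1 := by
      rw [card_sdiff_of_subset hT.2, tri_card T hT.1, he]
    obtain ⟨a, ha⟩ := card_eq_one.mp h3
    refine ⟨a, ?_, ?_⟩
    · have : a ∈ T \ e := by rw [ha]; exact mem_singleton_self _
      rw [mem_sdiff] at this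
      exact mem_compl.mpr this.2
    · rw [← union_sdiff_of_subset hT.2, ha]; ext x; simp [or_comm]
  · intro T hT hT2
    rw [mem_image] at hT
    obtain ⟨v, hv, rfl⟩ := hT
    by_contra h3
    obtain ⟨h4, h5⟩ := hc _ h3
    exact hT2 (mem_filter.mpr ⟨LL_tri h4 h5, subset_insert _ _⟩)

theorem z2_inj {h : Fin 8 → ℕ} (c : Finset (Fin 8) → ZMod 2) (hc : c ∈ Sp (ZMod 2) LL 3)
    (hD : D h c = 0) : c = 0 := by
  have E2 : ∀ (e T1 T2 : Finset (Fin 8)), e.card = 2 → T1 ≠ T2 →
      tri.filter (fun T => e ⊆ T) = {T1, T2} → c T1 = c T2 := by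
    intro e T1 T2 he hne hf
    have h1 := D_edge hc hD e he
    rw [hf, sum_pair hne] at h1
    have h2 : ∀ a b : ZMod 2, a + b = 0 → a = b := by decide
    exact h2 _ _ h1
  have E3 : ∀ (e T1 T2 T3 : Finset (Fin 8)), e.card = 2 → T1 ≠ T2 → T1 ≠ T3 → T2 ≠ T3 →
      tri.filter (fun T => e ⊆ T) = {T1, T2, T3} → c T1 + (c T2 + c T3) = 0 := by
    intro e T1 T2 T3 he h12 h13 h23 hf
    have h1 := D_edge hc hD e he
    rwa [hf, sum_insert (by simp [h12, h13]), sum_pair h23] at h1
  have a1 : c {0,1,3} = c {1,2,3} := E2 {1,3} _ _ (by decide) (by decide) (by decide)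
  have a2 : c {1,2,3} = c {2,3,4} := E2 {2,3} _ _ (by decide) (by decide) (by decide)
  have a3 : c {2,3,4} = c {0,2,4} := E2 {2,4} _ _ (by decide) (by decide) (by decide)
  have a4 : c {0,2,4} = c {0,1,4} := E2 {0,4} _ _ (by decide) (by decide) (by decide)
  have a5 : c {0,1,4} = c {1,4,5} := E2 {1,4} _ _ (by decide) (by decide) (by decide)
  have a6 : c {1,4,5} = c {1,2,5} := E2 {1,5} _ _ (by decide) (by decide) (by decide)
  have a7 : c {1,2,5} = c {0,2,5} := E2 {2,5} _ _ (by decide) (by decide) (by decide)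
  have a8 : c {0,2,5} = c {0,5,6} := E2 {0,5} _ _ (by decide) (by decide) (by decide)
  have a9 : c {0,5,6} = c {0,1,6} := E2 {0,6} _ _ (by decide) (by decide) (by decide)
  have a10 : c {0,1,6} = c {1,2,6} := E2 {1,6} _ _ (by decide) (by decide) (by decide)
  have a11 : c {1,2,6} = c {2,6,7} := E2 {2,6} _ _ (by decide) (by decide) (by decide)
  have a12 : c {2,6,7} = c {0,2,7} := E2 {2,7} _ _ (by decide) (by decide) (by decide)
  have a13 : c {0,2,7} = c {0,3,7} := E2 {0,7} _ _ (by decide) (by decide) (by decide)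
  have a14 : c {2,3,4} = c {3,4,5} := E2 {3,4} _ _ (by decide) (by decide) (by decide)
  have a15 : c {3,4,5} = c {3,5,6} := E2 {3,5} _ _ (by decide) (by decide) (by decide)
  have a16 : c {3,5,6} = c {3,6,7} := E2 {3,6} _ _ (by decide) (by decide) (by decide)
  have b := E3 {0,1} {0,1,3} {0,1,4} {0,1,6} (by decide) (by decide) (by decide) (by decide)
    (by decide)
  have z : c {0,1,3} = 0 := by
    have e1 : c {0,1,4} = c {0,1,3} := by rw [a1, a2, a3, a4]
    have e2 : c {0,1,6} = c {0,1,3} := by rw [← e1, a5, a6, a7, a8, a9]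
    rw [e1, e2] at b
    have h2 : ∀ a : ZMod 2, a + (a + a) = 0 → a = 0 := by decide
    exact h2 _ b
  rw [z] at a1
  rw [← a1] at a2
  rw [← a2] at a3 a14
  rw [← a3] at a4
  rw [← a4] at a5
  rw [← a5] at a6
  rw [← a6] at a7
  rw [← a7] at a8
  rw [← a8] at a9
  rw [← a9] at a10
  rw [← a10] at a11
  rw [← a11] at a12
  rw [← a12] at a13
  rw [← a14] at a15
  rw [← a15] at a16
  funext s
  by_contra h1
  obtain ⟨h2, h3⟩ := hc s h1
  have h4 := LL_tri h2 h3
  apply h1
  simp only [tri, mem_insert, mem_singleton] at h4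
  rcases h4 with h4 | h4 | h4 | h4 | h4 | h4 | h4 | h4 | h4 | h4 | h4 | h4 | h4 | h4 | h4 | h4 | h4 <;>
    rw [h4] <;> first | exact z | (symm; assumption)

def pos3 : Finset (Finset (Fin 8)) :=
  {{0,1,3},{1,2,3},{0,1,4},{1,2,5},{0,1,6},{1,2,6},{0,3,7},{3,4,5},{3,5,6},{3,6,7}}
def neg3 : Finset (Finset (Fin 8)) :=
  {{0,2,4},{0,2,5},{0,2,7},{2,3,4},{1,4,5},{0,5,6},{2,6,7}}

def zz (T : Finset (Fin 8)) : ℤ := if T ∈ pos3 then 1 else if T ∈ neg3 then -1 else 0

theorem zz_supp : ∀ T, zz T ≠ 0 → T ∈ tri := by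
  intro T hT
  unfold zz at hT
  by_cases h1 : T ∈ pos3
  · exact (by decide : pos3 ⊆ tri) h1
  · by_cases h2 : T ∈ neg3
    · exact (by decide : neg3 ⊆ tri) h2
    · rw [if_neg h1, if_neg h2] at hT; exact absurd rfl hT

set_option maxRecDepth 100000 in
theorem zz_D : ∀ t : Finset (Fin 8), t.card = 2 →
    (3 : ℤ) ∣ ∑ v ∈ tᶜ, (-1) ^ (t.filter (fun u => u < v)).card * zz (insert v t) := by
  decide

end

end Pool.Agent.H999R3.Tm
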