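import Mathlib

namespace Pool.Agent.H999R3.Tm

open Finset Module

noncomputable section

/-- A finite (abstract) simplicial complex: a family of nonempty finite sets of vertices,
closed under passing to nonempty subsets. -/
structure Cplx where
  /-- the finite set containing all vertices -/
  V : Type
  [fin : Fintype V]
  [dec : DecidableEq V]
  /-- the nonempty faces -/
  faces : Set (Finset V)
  nonempty : ∀ s ∈ faces, s.Nonempty
  down : ∀ s ∈ faces, ∀ t ⊆ s, t.Nonempty → t ∈ faces

attribute [instance] Cplx.fin Cplx.dec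

namespace Cplx

/-- The barycentric subdivision: its vertices are the faces of the complex, its faces are the
nonempty chains of faces. -/
def sd (C : Cplx) : Cplx where
  V := Finset C.V
  faces := {S | S.Nonempty ∧ (∀ s ∈ S, s ∈ C.faces) ∧ ∀ s ∈ S, ∀ t ∈ S, s ⊆ t ∨ t ⊆ s}
  nonempty := fun _ h => h.1
  down := fun _ h _ hT hne => ⟨hne, fun s hs => h.2.1 s (hT hs),
    fun s hs t ht => h.2.2 s (hT hs) t (hT ht)⟩

/-- The geometric realization, by barycentric coordinates. -/
def real (C : Cplx) : Set (C.V → ℝ) :=
  {w | (∀ v, 0 ≤ w v) ∧ ∑ v, w v = 1 ∧ (univ.filter fun v => w v ≠ 0) ∈ C.faces}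

/-- The realization is a topological manifold of dimension d (without boundary). -/
def IsManifold (C : Cplx) (d : ℕ) : Prop :=
  Nonempty (ChartedSpace (EuclideanSpace ℝ (Fin d)) C.real)

/-- Simplicial n-chains with coefficients mod 2. -/
def chains (C : Cplx) (n : ℕ) : Submodule (ZMod 2) (Finset C.V → ZMod 2) where
  carrier := {c | ∀ s, c s ≠ 0 → s ∈ C.faces ∧ s.card = n + 1}
  add_mem' := by
    intro a b ha hb s hs
    by_cases h1 : a s = 0
    · apply hb s
      intro h2
      apply hs
      simp [h1, h2]
    · exact ha s h1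
  zero_mem' := by intro s hs; simp at hs
  smul_mem' := by
    intro r a ha s hs
    apply ha s
    intro h1
    apply hs
    simp [h1]

/-- The mod 2 boundary: the coefficient of a nonempty set t in the boundary of c is the sum of
the coefficients in c of all sets which have t as a facet. -/
def bd (C : Cplx) : (Finset C.V → ZMod 2) →ₗ[ZMod 2] (Finset C.V → ZMod 2) where
  toFun c t := if t = ∅ then 0 else ∑ v ∈ tᶜ, c (insert v t)
  map_add' c c' := by
    funext t
    by_cases ht : t = ∅ <;> simp [ht, sum_add_distrib]
  map_smul' a c := by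
    funext t
    by_cases ht : t = ∅ <;> simp [ht, mul_sum]

/-- mod 2 cycles of dimension n -/
def cycles (C : Cplx) (n : ℕ) : Submodule (ZMod 2) (Finset C.V → ZMod 2) :=
  C.chains n ⊓ LinearMap.ker C.bd

/-- mod 2 boundaries of dimension n -/
def boundaries (C : Cplx) (n : ℕ) : Submodule (ZMod 2) (Finset C.V → ZMod 2) :=
  (C.chains (n + 1)).map C.bd

/-- the n-th mod 2 Betti number, dim(cycles) - dim(boundaries) -/
def betti (C : Cplx) (n : ℕ) : ℕ :=
  finrank (ZMod 2) (C.cycles n) - finrank (ZMod 2) (C.boundaries n)

/-- The induced subcomplex on the vertex set U injects in mod 2 homology, in every degree: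
a cycle of the induced subcomplex which bounds in C bounds in the induced subcomplex. -/
def HomInj (C : Cplx) (U : Set C.V) : Prop :=
  ∀ n, ∀ z ∈ C.cycles n, (∀ s, z s ≠ 0 → ∀ v ∈ s, v ∈ U) → z ∈ C.boundaries n →
    ∃ b ∈ C.chains (n + 1), (∀ s, b s ≠ 0 → ∀ v ∈ s, v ∈ U) ∧ C.bd b = z

/-- The map e on vertices, extended linearly on every simplex, is a tight linear embedding:
it is injective on the realization, and for almost every direction, every closed halfspace
orthogonal to it gives an injection in mod 2 homology. The intersection of the halfspace with the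
linearly embedded complex deformation retracts to the induced subcomplex on the vertices in it. -/
def TightEmb (C : Cplx) {ι : Type} [Fintype ι] (e : C.V → EuclideanSpace ℝ ι) : Prop :=
  Set.InjOn (fun w : C.V → ℝ => ∑ v, w v • e v) C.real ∧
    ∀ᵐ p : EuclideanSpace ℝ ι, ∀ t : ℝ, C.HomInj {v | t ≤ inner ℝ p (e v)}

/-- The complex has a tight linear embedding in some Euclidean space. -/
def Tight (C : Cplx) : Prop :=
  ∃ (ι : Type) (_ : Fintype ι) (e : C.V → EuclideanSpace ℝ ι), C.TightEmb e

/-- the faces t having s as a facet with f t ≤ f s -/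
def upSet (C : Cplx) (f : Finset C.V → ℝ) (s : Finset C.V) : Set (Finset C.V) :=
  {t | t ∈ C.faces ∧ s ⊆ t ∧ t.card = s.card + 1 ∧ f t ≤ f s}

/-- the facets u of s with f s ≤ f u -/
def downSet (C : Cplx) (f : Finset C.V → ℝ) (s : Finset C.V) : Set (Finset C.V) :=
  {u | u ∈ C.faces ∧ u ⊆ s ∧ s.card = u.card + 1 ∧ f s ≤ f u}

/-- Discrete Morse functions in the sense of Forman. -/
def IsMorse (C : Cplx) (f : Finset C.V → ℝ) : Prop :=
  ∀ s ∈ C.faces, (C.upSet f s).Subsingleton ∧ (C.downSet f s).Subsingleton

/-- the critical faces of dimension n of a discrete Morse function -/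
def crit (C : Cplx) (f : Finset C.V → ℝ) (n : ℕ) : Set (Finset C.V) :=
  {s | s ∈ C.faces ∧ s.card = n + 1 ∧ C.upSet f s = ∅ ∧ C.downSet f s = ∅}

/-- The complex has a discrete Morse function with, for every n, exactly the n-th mod 2 Betti
number of critical faces of dimension n. -/
def Perfect (C : Cplx) : Prop :=
  ∃ f : Finset C.V → ℝ, C.IsMorse f ∧ ∀ n, (C.crit f n).ncard = C.betti n

end Cplx

end

end Pool.Agent.H999R3.Tm
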