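import Mathlib

namespace Pool.Agent.H999R3.Tm

open Finset

noncomputable section

variable {V : Type} [Fintype V] [DecidableEq V] {F : Type} [Field F]

def sg (F : Type) [Field F] (h : V → ℕ) (v : V) (t : Finset V) : F :=
  (-1) ^ (t.filter (fun u => h u < h v)).card

omit [Fintype V] [DecidableEq V] in
theorem sg_mul_self (h : V → ℕ) (v : V) (t : Finset V) : sg F h v t * sg F h v t = 1 := by
  unfold sg
  rw [← pow_add, ← two_mul, pow_mul, neg_one_sq, one_pow]

omit [Fintype V] [DecidableEq V] in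
theorem sg_ne (h : V → ℕ) (v : V) (t : Finset V) : sg F h v t ≠ 0 := by
  intro h0
  have := sg_mul_self (F := F) h v t
  rw [h0] at this
  simp at this

omit [Fintype V] in
theorem sg_insert (h : V → ℕ) {u v : V} {t : Finset V} (hu : u ∉ t) :
    sg F h v (insert u t) = if h u < h v then - sg F h v t else sg F h v t := by
  unfold sg
  rw [filter_insert]
  split_ifs with h1
  · rw [card_insert_of_notMem (by simp [hu]), pow_succ]; ring
  · rfl

omit [Fintype V] in
theorem sg_erase (h : V → ℕ) {v : V} {t : Finset V} :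
    sg F h v (t.erase v) = sg F h v t := by
  unfold sg
  congr 2
  ext u
  simp only [mem_filter, mem_erase]
  constructor
  · rintro ⟨⟨_, h1⟩, h2⟩; exact ⟨h1, h2⟩
  · rintro ⟨h1, h2⟩
    refine ⟨⟨?_, h1⟩, h2⟩
    rintro rfl
    exact lt_irrefl _ h2

omit [Fintype V] in
theorem sg_insert_self (h : V → ℕ) {v : V} {t : Finset V} :
    sg F h v (insert v t) = sg F h v t := by
  rw [← sg_erase, ← sg_erase (t := t)]
  congr 1
  ext u
  simp

def D (h : V → ℕ) : (Finset V → F) →ₗ[F] (Finset V → F) where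
  toFun c t := ∑ v ∈ tᶜ, sg F h v t * c (insert v t)
  map_add' c c' := by
    funext t
    simp only [Pi.add_apply, mul_add, sum_add_distrib]
  map_smul' a c := by
    funext t
    simp only [Pi.smul_apply, smul_eq_mul, RingHom.id_apply, mul_sum]
    exact sum_congr rfl fun v _ => by ring

theorem D_apply (h : V → ℕ) (c : Finset V → F) (t : Finset V) :
    D h c t = ∑ v ∈ tᶜ, sg F h v t * c (insert v t) := rfl

def kp (h : V → ℕ) (a : V) : (Finset V → F) →ₗ[F] (Finset V → F) where
  toFun c s := if a ∈ s then sg F h a s * c (s.erase a) else 0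
  map_add' c c' := by
    funext t
    by_cases ha : a ∈ t <;> simp [ha, mul_add]
  map_smul' r c := by
    funext t
    by_cases ha : a ∈ t <;> simp [ha]
    ring

theorem kp_apply (h : V → ℕ) (a : V) (c : Finset V → F) (s : Finset V) :
    kp h a c s = if a ∈ s then sg F h a s * c (s.erase a) else 0 := rfl

def lx (h : V → ℕ) (x : V) : (Finset V → F) →ₗ[F] (Finset V → F) where
  toFun c s := if x ∈ s then 0 else sg F h x s * c (insert x s)
  map_add' c c' := by
    funext t
    by_cases ha : x ∈ t <;> simp [ha, mul_add]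
  map_smul' r c := by
    funext t
    by_cases ha : x ∈ t <;> simp [ha]
    ring

theorem lx_apply (h : V → ℕ) (x : V) (c : Finset V → F) (s : Finset V) :
    lx h x c s = if x ∈ s then 0 else sg F h x s * c (insert x s) := rfl

/-- restriction to sets avoiding x -/
def rs (x : V) : (Finset V → F) →ₗ[F] (Finset V → F) where
  toFun c s := if x ∈ s then 0 else c s
  map_add' c c' := by
    funext t
    by_cases ha : x ∈ t <;> simp [ha]
  map_smul' r c := by
    funext t
    by_cases ha : x ∈ t <;> simp [ha]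

theorem rs_apply (x : V) (c : Finset V → F) (s : Finset V) :
    rs x c s = if x ∈ s then 0 else c s := rfl

theorem D_D {h : V → ℕ} (hh : Function.Injective h) (c : Finset V → F) : D h (D h c) = 0 := by
  funext t
  simp only [D_apply, Pi.zero_apply, mul_sum]
  rw [sum_sigma']
  refine sum_involution (fun p _ => ⟨p.2, p.1⟩) ?_ ?_ ?_ ?_
  · rintro ⟨v, u⟩ hp
    simp only [mem_sigma, mem_compl, mem_insert, not_or] at hp
    obtain ⟨hv, huv, hu⟩ := hp
    simp only
    rw [sg_insert h hv, sg_insert h hu, insert_comm u v t]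
    have hne : h u ≠ h v := fun e => huv (hh e)
    rcases lt_or_gt_of_ne hne with h1 | h1
    · rw [if_neg (not_lt.mpr h1.le), if_pos h1]; ring
    · rw [if_pos h1, if_neg (not_lt.mpr h1.le)]; ring
  · rintro ⟨v, u⟩ hp _ he
    simp only [mem_sigma, mem_compl, mem_insert, not_or] at hp
    simp only [Sigma.mk.injEq, heq_eq_eq] at he
    exact hp.2.1 he.1
  · rintro ⟨v, u⟩ hp
    simp only [mem_sigma, mem_compl, mem_insert, not_or] at hp ⊢
    exact ⟨hp.2.2, fun e => hp.2.1 e.symm, hp.1⟩
  · rintro ⟨v, u⟩ _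
    rfl

theorem D_kp {h : V → ℕ} (hh : Function.Injective h) (a : V) (c : Finset V → F) :
    D h (kp h a c) = c - kp h a (D h c) := by
  rw [eq_sub_iff_add_eq]
  funext t
  simp only [Pi.add_apply]
  by_cases ha : a ∈ t
  · rw [D_apply, kp_apply, if_pos ha, D_apply]
    have hc : (t.erase a)ᶜ = insert a tᶜ := by
      ext u; simp only [mem_compl, mem_erase, mem_insert, not_and, ne_eq]
      constructor
      · intro h1
        by_cases hu : u = a
        · exact Or.inl hu
        · exact Or.inr (h1 hu)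
      · rintro (h1 | h1) h2
        · exact absurd h1 h2
        · exact h1
    rw [hc, sum_insert (by simp [ha]), insert_erase ha, sg_erase, mul_add, ← mul_assoc,
      sg_mul_self, one_mul, mul_sum]
    have : ∑ v ∈ tᶜ, sg F h v t * kp h a c (insert v t)
        + ∑ v ∈ tᶜ, sg F h a t * (sg F h v (t.erase a) * c (insert v (t.erase a))) = 0 := by
      rw [← sum_add_distrib]
      apply sum_eq_zero
      intro v hv
      rw [mem_compl] at hv
      have hva : v ≠ a := by rintro rfl; exact hv ha
      have hm : a ∈ insert v t := mem_insert_of_mem ha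
      rw [kp_apply, if_pos hm, sg_insert h hv]
      have he : (insert v t).erase a = insert v (t.erase a) := by
        rw [erase_insert_of_ne hva]
      rw [he]
      have ht : sg F h v t = if h a < h v then - sg F h v (t.erase a) else sg F h v (t.erase a) := by
        conv_lhs => rw [← insert_erase ha]
        rw [sg_insert h (by simp)]
      rw [ht]
      have hne : h v ≠ h a := fun e => hva (hh e)
      rcases lt_or_gt_of_ne hne with h1 | h1
      · rw [if_pos h1, if_neg (not_lt.mpr h1.le)]; ring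
      · rw [if_pos h1, if_neg (not_lt.mpr h1.le)]; ring
    linear_combination this
  · rw [kp_apply, if_neg ha, add_zero, D_apply]
    rw [sum_eq_single a]
    · rw [kp_apply, if_pos (mem_insert_self _ _), sg_insert_self, erase_insert ha, ← mul_assoc,
        sg_mul_self, one_mul]
    · intro v _ hva
      rw [kp_apply, if_neg, mul_zero]
      simp only [mem_insert, not_or]
      exact ⟨fun e => hva e.symm, ha⟩
    · intro h1
      simp [ha] at h1

theorem decomp (h : V → ℕ) (x : V) (c : Finset V → F) :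
    c = kp h x (lx h x c) + rs x c := by
  funext s
  simp only [Pi.add_apply, kp_apply, lx_apply, rs_apply]
  by_cases hx : x ∈ s
  · simp only [hx, if_true, mem_erase, ne_eq, not_true_eq_false, false_and, if_false, add_zero]
    rw [sg_erase, insert_erase hx, ← mul_assoc, sg_mul_self, one_mul]
  · simp [hx]

theorem lx_kp (h : V → ℕ) (x : V) {c : Finset V → F} (hc : ∀ s, x ∈ s → c s = 0) :
    lx h x (kp h x c) = c := by
  funext s
  simp only [kp_apply, lx_apply]
  by_cases hx : x ∈ s
  · simp [hx, hc s hx]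
  · simp only [hx, if_false, mem_insert_self, if_true, erase_insert hx, sg_insert_self]
    rw [← mul_assoc, sg_mul_self, one_mul]

theorem lx_zero (h : V → ℕ) (x : V) {c : Finset V → F} (hc : ∀ s, x ∈ s → c s = 0) :
    lx h x c = 0 := by
  funext s
  simp only [lx_apply]
  by_cases hx : x ∈ s
  · simp [hx]
  · simp [hx, hc _ (mem_insert_self x s)]

theorem D_off (h : V → ℕ) (x : V) {c : Finset V → F} (hc : ∀ s, x ∈ s → c s = 0) :
    ∀ s, x ∈ s → D h c s = 0 := by
  intro s hs
  rw [D_apply]
  exact sum_eq_zero fun v _ => by rw [hc _ (mem_insert_of_mem hs), mul_zero]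

theorem lx_off (h : V → ℕ) (x : V) (c : Finset V → F) : ∀ s, x ∈ s → lx h x c s = 0 := by
  intro s hs; simp [lx_apply, hs]

theorem rs_off (x : V) (c : Finset V → F) : ∀ s, x ∈ s → rs x c s = 0 := by
  intro s hs; simp [rs_apply, hs]

theorem lx_D {h : V → ℕ} (hh : Function.Injective h) (x : V) (c : Finset V → F) :
    lx h x (D h c) = - D h (lx h x c) := by
  conv_lhs => rw [decomp h x c]
  rw [map_add, D_kp hh, map_add, map_sub, lx_kp h x (D_off h x (lx_off h x c)),
    lx_zero h x (lx_off h x c), lx_zero h x (D_off h x (rs_off x c))]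
  simp

/-- graded chains supported on a family of finsets -/
def Sp (F : Type) [Field F] (X : Set (Finset V)) (n : ℕ) : Submodule F (Finset V → F) where
  carrier := {c | ∀ s, c s ≠ 0 → s ∈ X ∧ s.card = n}
  add_mem' := by
    intro a b ha hb s hs
    by_cases h1 : a s = 0
    · apply hb s
      intro h2
      apply hs
      simp [h1, h2]
    · exact ha s h1
  zero_mem' := by intro s hs; simp at hs
  smul_mem' := by
    intro r a ha s hs
    apply ha s
    intro h1
    apply hs
    simp [h1]

omit [Fintype V] [DecidableEq V] in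
theorem mem_Sp {X : Set (Finset V)} {n : ℕ} {c : Finset V → F} :
    c ∈ Sp F X n ↔ ∀ s, c s ≠ 0 → s ∈ X ∧ s.card = n := Iff.rfl

omit [Fintype V] [DecidableEq V] in
theorem Sp_mono {X Y : Set (Finset V)} (hXY : X ⊆ Y) (n : ℕ) : Sp F X n ≤ Sp F Y n :=
  fun _ hc s hs => ⟨hXY (hc s hs).1, (hc s hs).2⟩

def Down (X : Set (Finset V)) : Prop := ∀ s ∈ X, ∀ t ⊆ s, t ∈ X

theorem D_mem {h : V → ℕ} {X : Set (Finset V)} (hX : Down X) {n : ℕ} {c : Finset V → F}
    (hc : c ∈ Sp F X (n + 1)) : D h c ∈ Sp F X n := by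
  intro t ht
  rw [D_apply] at ht
  obtain ⟨v, hv, h1⟩ := exists_ne_zero_of_sum_ne_zero ht
  have h2 := hc _ (right_ne_zero_of_mul h1)
  rw [mem_compl] at hv
  refine ⟨hX _ h2.1 _ (subset_insert _ _), ?_⟩
  have := h2.2
  rw [card_insert_of_notMem hv] at this
  omega

theorem D_deg0 {h : V → ℕ} {X : Set (Finset V)} {c : Finset V → F}
    (hc : c ∈ Sp F X 0) : D h c = 0 := by
  funext t
  rw [D_apply]
  apply sum_eq_zero
  intro v _
  have : c (insert v t) = 0 := by
    by_contra h1
    have := (hc _ h1).2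
    rw [card_eq_zero] at this
    exact (insert_ne_empty _ _) this
  rw [this, mul_zero]

/-- link of x in X -/
def lk (X : Set (Finset V)) (x : V) : Set (Finset V) := {s | x ∉ s ∧ insert x s ∈ X}

/-- deletion of x in X -/
def del (X : Set (Finset V)) (x : V) : Set (Finset V) := {s | x ∉ s ∧ s ∈ X}

omit [Fintype V] in
theorem lk_down {X : Set (Finset V)} (hX : Down X) (x : V) : Down (lk X x) := by
  intro s hs t hts
  exact ⟨fun hx => hs.1 (hts hx), hX _ hs.2 _ (insert_subset_insert _ hts)⟩

omit [Fintype V] [DecidableEq V] in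
theorem del_down {X : Set (Finset V)} (hX : Down X) (x : V) : Down (del X x) := by
  intro s hs t hts
  exact ⟨fun hx => hs.1 (hts hx), hX _ hs.2 _ hts⟩

omit [Fintype V] in
theorem lk_sub_del {X : Set (Finset V)} (hX : Down X) (x : V) : lk X x ⊆ del X x :=
  fun s hs => ⟨hs.1, hX _ hs.2 _ (subset_insert _ _)⟩

theorem lx_mem {h : V → ℕ} {X : Set (Finset V)} {x : V} {n : ℕ} {c : Finset V → F}
    (hc : c ∈ Sp F X (n + 1)) : lx h x c ∈ Sp F (lk X x) n := by
  intro s hs
  rw [lx_apply] at hs
  by_cases hx : x ∈ s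
  · simp [hx] at hs
  · rw [if_neg hx] at hs
    have h2 := hc _ (right_ne_zero_of_mul hs)
    refine ⟨⟨hx, h2.1⟩, ?_⟩
    have := h2.2
    rw [card_insert_of_notMem hx] at this
    omega

theorem rs_mem {X : Set (Finset V)} {x : V} {n : ℕ} {c : Finset V → F}
    (hc : c ∈ Sp F X n) : rs x c ∈ Sp F (del X x) n := by
  intro s hs
  rw [rs_apply] at hs
  by_cases hx : x ∈ s
  · simp [hx] at hs
  · rw [if_neg hx] at hs
    exact ⟨⟨hx, (hc _ hs).1⟩, (hc _ hs).2⟩

theorem kp_mem' {h : V → ℕ} {X Y : Set (Finset V)} {a : V} {n : ℕ} {c : Finset V → F}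
    (hc : c ∈ Sp F X n) (hXY : ∀ s ∈ X, a ∉ s → s.card = n → insert a s ∈ Y) :
    kp h a c ∈ Sp F Y (n + 1) := by
  intro s hs
  rw [kp_apply] at hs
  by_cases ha : a ∈ s
  · rw [if_pos ha] at hs
    have h2 := hc _ (right_ne_zero_of_mul hs)
    have h3 := hXY _ h2.1 (by simp) h2.2
    rw [insert_erase ha] at h3
    refine ⟨h3, ?_⟩
    have := h2.2
    rw [card_erase_of_mem ha] at this
    have : 0 < s.card := card_pos.mpr ⟨a, ha⟩
    omega
  · rw [if_neg ha] at hs; exact absurd rfl hs

theorem kp_mem {h : V → ℕ} {X : Set (Finset V)} {x : V} {n : ℕ} {c : Finset V → F}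
    (hc : c ∈ Sp F (lk X x) n) : kp h x c ∈ Sp F X (n + 1) :=
  kp_mem' hc fun _ hs _ _ => hs.2

theorem off_of_lk {X : Set (Finset V)} {x : V} {n : ℕ} {c : Finset V → F}
    (hc : c ∈ Sp F (lk X x) n) : ∀ s, x ∈ s → c s = 0 := by
  intro s hs
  by_contra h1
  exact (hc s h1).1.1 hs

theorem off_of_del {X : Set (Finset V)} {x : V} {n : ℕ} {c : Finset V → F}
    (hc : c ∈ Sp F (del X x) n) : ∀ s, x ∈ s → c s = 0 := by
  intro s hs
  by_contra h1
  exact (hc s h1).1.1 hs

omit [Fintype V] in
theorem mem_del_of_off {X : Set (Finset V)} {x : V} {n : ℕ} {c : Finset V → F}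
    (hc : c ∈ Sp F X n) (ho : ∀ s, x ∈ s → c s = 0) : c ∈ Sp F (del X x) n := by
  intro s hs
  exact ⟨⟨fun hx => hs (ho s hx), (hc s hs).1⟩, (hc s hs).2⟩

theorem mem_del_of_lx {h : V → ℕ} {X : Set (Finset V)} {x : V} {n : ℕ} {c : Finset V → F}
    (hc : c ∈ Sp F X n) (ho : lx h x c = 0) : c ∈ Sp F (del X x) n := by
  have := decomp h x c
  rw [ho, map_zero, zero_add] at this
  rw [this]
  exact rs_mem hc

def Acyc (F : Type) [Field F] (h : V → ℕ) (X : Set (Finset V)) : Prop :=
  ∀ n, ∀ e ∈ Sp F X n, D h e = 0 → ∃ e' ∈ Sp F X (n + 1), D h e' = e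

structure Red (F : Type) [Field F] (h : V → ℕ) (Y X : Set (Finset V)) : Prop where
  sub : X ⊆ Y
  surj : ∀ n, ∀ z ∈ Sp F Y n, D h z = 0 → ∃ g ∈ Sp F Y (n + 1), z + D h g ∈ Sp F X n
  inj : ∀ n, ∀ b ∈ Sp F Y (n + 1), D h b ∈ Sp F X n → ∃ b' ∈ Sp F X (n + 1), D h b' = D h b

theorem Red.refl (h : V → ℕ) (X : Set (Finset V)) : Red F h X X :=
  ⟨le_rfl, fun n z hz _ => ⟨0, Submodule.zero_mem _, by simpa using hz⟩,
    fun n b hb _ => ⟨b, hb, rfl⟩⟩

theorem Red.trans {h : V → ℕ} (hh : Function.Injective h) {X Y Z : Set (Finset V)}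
    (h1 : Red F h Z Y) (h2 : Red F h Y X) : Red F h Z X := by
  refine ⟨h2.sub.trans h1.sub, ?_, ?_⟩
  · intro n z hz hDz
    obtain ⟨g, hg, hg'⟩ := h1.surj n z hz hDz
    obtain ⟨g2, hg2, hg2'⟩ := h2.surj n _ hg' (by rw [map_add, hDz, D_D hh, add_zero])
    refine ⟨g + g2, Submodule.add_mem _ hg (Sp_mono h1.sub _ hg2), ?_⟩
    rw [map_add, ← add_assoc]; exact hg2'
  · intro n b hb hDb
    obtain ⟨b1, hb1, hb1'⟩ := h1.inj n b hb (Sp_mono h2.sub _ hDb)
    obtain ⟨b2, hb2, hb2'⟩ := h2.inj n b1 hb1 (by rw [hb1']; exact hDb)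
    exact ⟨b2, hb2, hb2'.trans hb1'⟩

theorem Acyc.of_cone {h : V → ℕ} (hh : Function.Injective h) {X : Set (Finset V)} (a : V)
    (ha : ∀ s ∈ X, insert a s ∈ X) : Acyc F h X := by
  intro n e he hDe
  refine ⟨kp h a e, kp_mem' he fun s hs _ _ => ha s hs, ?_⟩
  rw [D_kp hh, hDe, map_zero, sub_zero]

/-- removing a vertex with acyclic link -/
theorem red_del {h : V → ℕ} (hh : Function.Injective h) {Y : Set (Finset V)} (hY : Down Y)
    (x : V) (hL : Acyc F h (lk Y x)) : Red F h Y (del Y x) := by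
  refine ⟨fun s hs => hs.2, ?_, ?_⟩
  · intro n z hz hDz
    rcases n with _ | n
    · refine ⟨0, Submodule.zero_mem _, ?_⟩
      rw [map_zero, add_zero]
      refine mem_del_of_off hz fun s hs => ?_
      by_contra h1
      have := (hz s h1).2
      rw [card_eq_zero] at this
      rw [this] at hs
      simp at hs
    · have h1 : D h (lx h x z) = 0 := by
        have := lx_D hh x z
        rw [hDz, map_zero] at this
        exact neg_eq_zero.mp this.symm
      obtain ⟨e', he', hDe'⟩ := hL n _ (lx_mem hz) h1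
      refine ⟨kp h x e', kp_mem he', ?_⟩
      have : z + D h (kp h x e') = rs x z + e' := by
        rw [D_kp hh, hDe']
        conv_lhs => rw [decomp h x z, map_add, map_add]
        have h2 : lx h x (rs x z) = 0 := lx_zero h x (rs_off x z)
        rw [lx_kp h x (lx_off h x z), h2, map_zero]
        abel
      rw [this]
      exact Submodule.add_mem _ (rs_mem hz) (Sp_mono (lk_sub_del hY x) _ he')
  · intro n b hb hDb
    have h1 : D h (lx h x b) = 0 := by
      have := lx_D hh x b
      rw [lx_zero h x (off_of_del hDb)] at this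
      exact neg_eq_zero.mp this.symm
    obtain ⟨e', he', hDe'⟩ := hL n _ (lx_mem hb) h1
    refine ⟨rs x b + e', Submodule.add_mem _ (rs_mem hb) (Sp_mono (lk_sub_del hY x) _ he'), ?_⟩
    have : rs x b + e' = b + D h (kp h x e') := by
      rw [D_kp hh, hDe']
      conv_rhs => rw [decomp h x b, map_add, map_add]
      have h2 : lx h x (rs x b) = 0 := lx_zero h x (rs_off x b)
      rw [lx_kp h x (lx_off h x b), h2, map_zero]
      abel
    rw [this, map_add, D_D hh, add_zero]

theorem Acyc.of_red {h : V → ℕ} (hh : Function.Injective h) {X Y : Set (Finset V)}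
    (hr : Red F h Y X) (hX : Acyc F h X) : Acyc F h Y := by
  intro n e he hDe
  obtain ⟨g, hg, hg'⟩ := hr.surj n e he hDe
  obtain ⟨e', he', hDe'⟩ := hX n _ hg' (by rw [map_add, hDe, D_D hh, add_zero])
  refine ⟨e' - g, Submodule.sub_mem _ (Sp_mono hr.sub _ he') hg, ?_⟩
  rw [map_sub, hDe']; abel

theorem Acyc.of_no {h : V → ℕ} {X : Set (Finset V)} (hX : ∀ s, s ∉ X) : Acyc F h X := by
  intro n e he _
  refine ⟨0, Submodule.zero_mem _, ?_⟩
  rw [map_zero]
  funext s
  by_contra h1
  exact hX s (he s (fun h2 => h1 h2.symm)).1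

/-- restriction: only elements of R which are in T are allowed -/
def keep (Y : Set (Finset V)) (R T : Finset V) : Set (Finset V) :=
  {s | s ∈ Y ∧ ∀ b ∈ s, b ∈ R → b ∈ T}

omit [Fintype V] [DecidableEq V] in
theorem keep_down {Y : Set (Finset V)} (hY : Down Y) (R T : Finset V) : Down (keep Y R T) := by
  intro s hs t hts
  exact ⟨hY _ hs.1 _ hts, fun b hb => hs.2 b (hts hb)⟩

theorem red_induct {h : V → ℕ} (hh : Function.Injective h) {Y : Set (Finset V)} (hY : Down Y)
    (R : Finset V) (μ : V → ℕ)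
    (H : ∀ T ⊆ R, ∀ a ∈ T, (∀ b ∈ T, μ a ≤ μ b) → Acyc F h (lk (keep Y R T) a)) :
    Red F h Y (keep Y R ∅) := by
  have main : ∀ n, ∀ T ⊆ R, T.card = n → Red F h (keep Y R T) (keep Y R ∅) := by
    intro n
    induction n with
    | zero =>
      intro T _ hT
      rw [card_eq_zero] at hT
      rw [hT]
      exact Red.refl h _
    | succ n ih =>
      intro T hT hc
      have hne : T.Nonempty := by rw [← card_pos]; omega
      obtain ⟨a, ha, hmin⟩ := exists_min_image T μ hne
      have h1 := red_del hh (keep_down hY R T) a (H T hT a ha hmin)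
      have h2 : del (keep Y R T) a = keep Y R (T.erase a) := by
        ext s
        constructor
        · rintro ⟨h3, h4, h5⟩
          refine ⟨h4, fun b hb hbR => ?_⟩
          rw [mem_erase]
          exact ⟨fun e => h3 (e ▸ hb), h5 b hb hbR⟩
        · rintro ⟨h3, h4⟩
          refine ⟨fun hs => ?_, h3, fun b hb hbR => mem_of_mem_erase (h4 b hb hbR)⟩
          have := h4 a hs (hT ha)
          simp at this
      rw [h2] at h1
      exact h1.trans hh (ih _ ((erase_subset _ _).trans hT) (by rw [card_erase_of_mem ha]; omega))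
  have h3 : keep Y R R = Y := by
    ext s
    exact ⟨fun hs => hs.1, fun hs => ⟨hs, fun _ _ h => h⟩⟩
  have := main _ R (subset_refl _) rfl
  rwa [h3] at this

/-- chains of a relation inside P -/
def Ch (le : V → V → Prop) (P : Set V) : Set (Finset V) :=
  {s | (∀ y ∈ s, y ∈ P) ∧ ∀ y ∈ s, ∀ z ∈ s, le y z ∨ le z y}

omit [Fintype V] [DecidableEq V] in
theorem Ch_down (le : V → V → Prop) (P : Set V) : Down (Ch le P) := by
  intro s hs t hts
  exact ⟨fun y hy => hs.1 y (hts hy), fun y hy z hz => hs.2 y (hts hy) z (hts hz)⟩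

open Classical in
theorem retr {h : V → ℕ} (hh : Function.Injective h) (le : V → V → Prop)
    (hrefl : ∀ x, le x x)
    (htr : ∀ x y z, le x y → le y z → le x z) (P : Set V) (g : V → V)
    (hg : ∀ y ∈ P, g y ∈ P) (hgg : ∀ y ∈ P, g (g y) = g y) (hle : ∀ y ∈ P, le y (g y))
    (hmono : ∀ y ∈ P, ∀ z ∈ P, le y z → le (g y) (g z)) (μ : V → ℕ)
    (hμ : ∀ y z, le y z → y ≠ z → μ z < μ y) :
    Red F h (Ch le P) (Ch le {y | y ∈ P ∧ g y = y}) := by
  have hk : keep (Ch le P) (univ.filter fun y => y ∈ P ∧ g y ≠ y) ∅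
      = Ch le {y | y ∈ P ∧ g y = y} := by
    ext s
    constructor
    · rintro ⟨⟨h1, h2⟩, h3⟩
      refine ⟨fun y hy => ⟨h1 y hy, ?_⟩, h2⟩
      by_contra h4
      have := h3 y hy (by simp only [mem_filter, mem_univ, true_and]; exact ⟨h1 y hy, h4⟩)
      simp at this
    · rintro ⟨h1, h2⟩
      refine ⟨⟨fun y hy => (h1 y hy).1, h2⟩, fun y hy hyR => ?_⟩
      simp only [mem_filter, mem_univ, true_and] at hyR
      exact absurd (h1 y hy).2 hyR.2
  rw [← hk]
  apply red_induct hh (Ch_down le P) _ μ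
  intro T hT q hq hmin
  have hqR := hT hq
  simp only [mem_filter, mem_univ, true_and] at hqR
  obtain ⟨hqP, hqg⟩ := hqR
  apply Acyc.of_cone hh (g q)
  rintro s ⟨h1, ⟨h2, h3⟩, h4⟩
  have key : ∀ y ∈ insert q s, (le y (g q) ∨ le (g q) y) := by
    intro y hy
    rcases h3 q (mem_insert_self _ _) y hy with h5 | h5
    · by_cases hyq : y = q
      · left; rw [hyq]; exact hle q hqP
      · right
        have hyP := h2 y hy
        have hyT : y ∉ T := fun hyT => absurd (hmin y hyT) (not_le.mpr (hμ q y h5 (Ne.symm hyq)))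
        have hyg : g y = y := by
          by_contra h6
          exact hyT (h4 y hy (by simp only [mem_filter, mem_univ, true_and]; exact ⟨hyP, h6⟩))
        rw [← hyg]
        exact hmono q hqP y hyP h5
    · left
      exact htr _ _ _ h5 (hle q hqP)
  refine ⟨?_, ⟨?_, ?_⟩, ?_⟩
  · simp only [mem_insert, not_or]
    exact ⟨fun e => hqg e.symm, h1⟩
  · intro y hy
    rw [insert_comm, mem_insert] at hy
    rcases hy with rfl | hy
    · exact hg q hqP
    · exact h2 y hy
  · intro y hy z hz
    rw [insert_comm, mem_insert] at hy hz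
    rcases hy with rfl | hy <;> rcases hz with rfl | hz
    · left; exact hrefl _
    · exact (key z hz).symm
    · exact key y hy
    · exact h3 y hy z hz
  · intro y hy hyR
    rw [insert_comm, mem_insert] at hy
    rcases hy with rfl | hy
    · simp only [mem_filter, mem_univ, true_and] at hyR
      exact absurd (hgg q hqP) hyR.2
    · exact h4 y hy hyR

end

end Pool.Agent.H999R3.Tm
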