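import Pool.Agent.H999R3.Tm.Bier

namespace Pool.Agent.H999R3.Tm

open Finset Module

noncomputable section

section FFsec

variable {V : Type} [Fintype V] [DecidableEq V]

def mn (T : Finset V) (h : V → ℝ) : ℝ := if hT : T.Nonempty then T.inf' hT h else 0

omit [Fintype V] [DecidableEq V] in
theorem mn_cont (T : Finset V) : Continuous (mn T) := by
  unfold mn
  by_cases hT : T.Nonempty
  · simp only [hT, dif_pos]
    exact Continuous.finset_inf'_apply hT (fun i _ => continuous_apply i)
  · simp only [hT, dif_neg, not_false_eq_true]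
    exact continuous_const

open Classical in
def fam (L : Set (Finset V)) (σ A : Finset V) : Finset (Finset V) :=
  A.powerset.filter fun T => σ ∪ T ∉ L

omit [Fintype V] in
theorem fam_ne {L : Set (Finset V)} {σ A : Finset V} (hA : σ ∪ A ∉ L) : (fam L σ A).Nonempty :=
  ⟨A, by simp [fam, hA]⟩

omit [Fintype V] in
theorem mem_fam {L : Set (Finset V)} {σ A T : Finset V} : T ∈ fam L σ A ↔ T ⊆ A ∧ σ ∪ T ∉ L := by
  simp [fam]

def FF (L : Set (Finset V)) (σ A : Finset V) (hA : σ ∪ A ∉ L) (h : V → ℝ) : ℝ :=
  (fam L σ A).sup' (fam_ne hA) (fun T => mn T h)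

omit [Fintype V] in
theorem FF_cont (L : Set (Finset V)) (σ A : Finset V) (hA : σ ∪ A ∉ L) :
    Continuous (FF L σ A hA) := by
  unfold FF
  exact Continuous.finset_sup'_apply (fam_ne hA) (fun T _ => mn_cont T)

omit [Fintype V] in
theorem fam_nonempty {L : Set (Finset V)} {σ A T : Finset V} (hσ : σ ∈ L) (hT : T ∈ fam L σ A) :
    T.Nonempty := by
  rw [mem_fam] at hT
  rw [Finset.nonempty_iff_ne_empty]
  intro h
  rw [h] at hT
  exact hT.2 (by simpa using hσ)

omit [Fintype V] in
theorem le_FF {L : Set (Finset V)} (hL : Down L) {σ A : Finset V} (hσ : σ ∈ L) (hA : σ ∪ A ∉ L)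
    (h : V → ℝ) (t : ℝ) : t ≤ FF L σ A hA h ↔ σ ∪ A.filter (fun v => t ≤ h v) ∉ L := by
  classical
  unfold FF
  rw [Finset.le_sup'_iff]
  constructor
  · rintro ⟨T, hT, h1⟩ h2
    have hne := fam_nonempty hσ hT
    unfold mn at h1
    rw [dif_pos hne, Finset.le_inf'_iff] at h1
    rw [mem_fam] at hT
    apply hT.2
    apply hL _ h2
    apply union_subset_union_right
    intro v hv
    exact mem_filter.mpr ⟨hT.1 hv, h1 v hv⟩
  · intro h2
    have hT : A.filter (fun v => t ≤ h v) ∈ fam L σ A := mem_fam.mpr ⟨filter_subset _ _, h2⟩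
    refine ⟨_, hT, ?_⟩
    have hne := fam_nonempty hσ hT
    unfold mn
    rw [dif_pos hne, Finset.le_inf'_iff]
    intro v hv
    exact (mem_filter.mp hv).2

omit [Fintype V] in
theorem lt_FF {L : Set (Finset V)} (hL : Down L) {σ A : Finset V} (hσ : σ ∈ L) (hA : σ ∪ A ∉ L)
    (h : V → ℝ) (t : ℝ) : t < FF L σ A hA h ↔ σ ∪ A.filter (fun v => t < h v) ∉ L := by
  classical
  unfold FF
  rw [Finset.lt_sup'_iff]
  constructor
  · rintro ⟨T, hT, h1⟩ h2
    have hne := fam_nonempty hσ hT
    unfold mn at h1
    rw [dif_pos hne, Finset.lt_inf'_iff] at h1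
    rw [mem_fam] at hT
    apply hT.2
    apply hL _ h2
    apply union_subset_union_right
    intro v hv
    exact mem_filter.mpr ⟨hT.1 hv, h1 v hv⟩
  · intro h2
    have hT : A.filter (fun v => t < h v) ∈ fam L σ A := mem_fam.mpr ⟨filter_subset _ _, h2⟩
    refine ⟨_, hT, ?_⟩
    have hne := fam_nonempty hσ hT
    unfold mn
    rw [dif_pos hne, Finset.lt_inf'_iff]
    intro v hv
    exact (mem_filter.mp hv).2

omit [Fintype V] in
theorem FF_zero {L : Set (Finset V)} (hL : Down L) {σ A : Finset V} (hσ : σ ∈ L) (hA : σ ∪ A ∉ L)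
    (h : V → ℝ) : FF L σ A hA h = 0 ↔ σ ∪ A.filter (fun v => 0 ≤ h v) ∉ L ∧
      σ ∪ A.filter (fun v => 0 < h v) ∈ L := by
  rw [← le_FF hL hσ hA, ← not_not (a := σ ∪ A.filter (fun v => 0 < h v) ∈ L),
    ← lt_FF hL hσ hA]
  constructor
  · intro h1; rw [h1]; simp
  · rintro ⟨h1, h2⟩
    exact le_antisymm (not_lt.mp h2) h1

omit [Fintype V] in
theorem FF_shift {L : Set (Finset V)} (hL : Down L) {σ A : Finset V} (hσ : σ ∈ L)
    (hA : σ ∪ A ∉ L) (h h' : V → ℝ) (c : ℝ) (hh : ∀ v ∈ A, h' v = h v - c) :
    FF L σ A hA h' = FF L σ A hA h - c := by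
  have key : ∀ t, t ≤ FF L σ A hA h' ↔ t ≤ FF L σ A hA h - c := by
    intro t
    rw [le_sub_iff_add_le, le_FF hL hσ hA, le_FF hL hσ hA]
    have : A.filter (fun v => t ≤ h' v) = A.filter (fun v => t + c ≤ h v) := by
      apply filter_congr
      intro v hv
      rw [hh v hv, le_sub_iff_add_le]
    rw [this]
  exact le_antisymm ((key _).mp le_rfl) ((key _).mpr le_rfl)

end FFsec

theorem mk_chart {E H : Type} [TopologicalSpace E] [TopologicalSpace H] (M : Set E) (p : M)
    (φ : E → H) (ψ : H → E) (N : Set E) (N' : Set H) (hN : IsOpen N) (hN' : IsOpen N')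
    (hφ : Continuous φ) (hψ : Continuous ψ) (hpN : p.1 ∈ N)
    (h1 : ∀ z ∈ M, z ∈ N → φ z ∈ N' ∧ ψ (φ z) = z)
    (h2 : ∀ u ∈ N', ψ u ∈ M ∧ ψ u ∈ N ∧ φ (ψ u) = u) :
    ∃ e : OpenPartialHomeomorph M H, p ∈ e.source := by
  classical
  refine ⟨{
    toFun := fun z => φ z.1
    invFun := fun u => if h : ψ u ∈ M then ⟨ψ u, h⟩ else p
    source := {z | z.1 ∈ N}
    target := N'
    map_source' := fun z hz => (h1 z.1 z.2 hz).1
    map_target' := ?_
    left_inv' := ?_
    right_inv' := ?_
    open_source := hN.preimage continuous_subtype_val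
    open_target := hN'
    continuousOn_toFun := (hφ.comp continuous_subtype_val).continuousOn
    continuousOn_invFun := ?_ }, hpN⟩
  · intro u hu
    have h3 := h2 u hu
    simp only [h3.1, dif_pos, Set.mem_setOf_eq]
    exact h3.2.1
  · intro z hz
    have h3 := h1 z.1 z.2 hz
    apply Subtype.ext
    have h4 : ψ (φ z.1) ∈ M := by rw [h3.2]; exact z.2
    simp only [h4, dif_pos]
    exact h3.2
  · intro u hu
    have h3 := h2 u hu
    simp only [h3.1, dif_pos]
    exact h3.2.2
  · rw [Topology.IsInducing.subtypeVal.continuousOn_iff]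
    apply hψ.continuousOn.congr
    intro u hu
    have h3 := h2 u hu
    simp only [Function.comp, h3.1, dif_pos]

/-- the real moment-angle complex -/
def RZ {ι : Type} [Fintype ι] (K : Set (Finset ι)) : Set (ι → ℝ) :=
  {z | (∀ i, |z i| ≤ 1) ∧ (univ.filter fun i => |z i| < 1) ∈ K}

section chart

variable {V : Type} [Fintype V] [DecidableEq V]

theorem rz_bier (L : Set (Finset V)) (z : V ⊕ V → ℝ) : z ∈ RZ (Bi L) ↔
    (∀ v, |z (Sum.inl v)| ≤ 1 ∧ |z (Sum.inr v)| ≤ 1 ∧ (|z (Sum.inl v)| = 1 ∨ |z (Sum.inr v)| = 1)) ∧
    (univ.filter fun v => |z (Sum.inl v)| < 1) ∈ L ∧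
    (univ.filter fun v => |z (Sum.inr v)| = 1) ∉ L := by
  have e1 : lf (univ.filter fun i => |z i| < 1) = univ.filter fun v => |z (Sum.inl v)| < 1 := by
    ext v; simp [mem_lf]
  have e2 : rt (univ.filter fun i => |z i| < 1) = univ.filter fun v => |z (Sum.inr v)| < 1 := by
    ext v; simp [mem_rt]
  constructor
  · rintro ⟨h1, h2, h3, h4⟩
    rw [e1] at h2 h4
    rw [e2] at h3 h4
    refine ⟨fun v => ⟨h1 _, h1 _, ?_⟩, h2, ?_⟩
    · by_contra h5
      push Not at h5
      have h6 : v ∈ univ.filter fun v => |z (Sum.inl v)| < 1 := by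
        simp only [mem_filter, mem_univ, true_and]
        exact lt_of_le_of_ne (h1 _) h5.1
      have h7 : v ∈ univ.filter fun v => |z (Sum.inr v)| < 1 := by
        simp only [mem_filter, mem_univ, true_and]
        exact lt_of_le_of_ne (h1 _) h5.2
      exact (disjoint_left.mp h4) h6 h7
    · convert h3 using 2
      ext v
      simp only [mem_filter, mem_univ, true_and, mem_compl, not_lt]
      exact ⟨fun h => h.ge, fun h => le_antisymm (h1 _) h⟩
  · rintro ⟨h1, h2, h3⟩
    refine ⟨?_, ?_, ?_, ?_⟩
    · rintro (v | v)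
      · exact (h1 v).1
      · exact (h1 v).2.1
    · rw [e1]; exact h2
    · rw [e2]
      convert h3 using 2
      ext v
      simp only [mem_filter, mem_univ, true_and, mem_compl, not_lt]
      exact ⟨fun h => le_antisymm (h1 v).2.1 h, fun h => h.ge⟩
    · rw [e1, e2, disjoint_left]
      intro v h4 h5
      simp only [mem_filter, mem_univ, true_and] at h4 h5
      rcases (h1 v).2.2 with h6 | h6 <;> linarith

open Classical in
theorem bier_chart (L : Set (Finset V)) (hL : Down L) (p : RZ (Bi L)) :
    ∃ (i0 : V) (e : OpenPartialHomeomorph (RZ (Bi L)) ({v : V // v ≠ i0} → ℝ)), p ∈ e.source := by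
  obtain ⟨p, hpM⟩ := p
  obtain ⟨hp1, hp2, hp3⟩ := (rz_bier L p).mp hpM
  set X : (V ⊕ V → ℝ) → V → ℝ := fun z v => z (Sum.inl v) with hX
  set Y : (V ⊕ V → ℝ) → V → ℝ := fun z v => z (Sum.inr v) with hY
  set σ : Finset V := univ.filter fun v => |X p v| < 1 with hσ
  set A : Finset V := univ.filter fun v => |X p v| = 1 ∧ |Y p v| = 1 with hA
  have hmσ : ∀ v, v ∈ σ ↔ |X p v| < 1 := by intro v; simp [hσ]
  have hmA : ∀ v, v ∈ A ↔ |X p v| = 1 ∧ |Y p v| = 1 := by intro v; simp [hA]
  have hσL : σ ∈ L := hp2
  have hunion : σ ∪ A = univ.filter fun v => |Y p v| = 1 := by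
    ext v
    rw [mem_union, hmσ, hmA]
    simp only [mem_filter, mem_univ, true_and]
    constructor
    · rintro (h | h)
      · rcases (hp1 v).2.2 with h2 | h2
        · exact absurd h2 (ne_of_lt h)
        · exact h2
      · exact h.2
    · intro h
      rcases (hp1 v).1.lt_or_eq with h2 | h2
      · exact Or.inl h2
      · exact Or.inr ⟨h2, h⟩
  have hAL : σ ∪ A ∉ L := by rw [hunion]; exact hp3
  clear_value σ A
  have hAne : A.Nonempty := by
    rw [Finset.nonempty_iff_ne_empty]
    intro h
    rw [h, union_empty] at hAL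
    exact hAL hσL
  obtain ⟨i0, hi0⟩ := hAne
  have hAσ : ∀ v, v ∈ A → v ∉ σ := by
    intro v h1 h2
    rw [hmA] at h1; rw [hmσ] at h2; linarith [h1.1]
  have hXp : ∀ v, v ∉ σ → |X p v| = 1 := by
    intro v h1
    rw [hmσ] at h1
    exact le_antisymm (hp1 v).1 (not_lt.mp h1)
  have hYp : ∀ v, v ∈ A ∨ v ∈ σ → |Y p v| = 1 := by
    intro v h1
    have : v ∈ σ ∪ A := mem_union.mpr h1.symm
    rw [hunion] at this
    simpa using this
  have sq1 : ∀ a : ℝ, |a| = 1 → a * a = 1 := by
    intro a ha
    rw [← abs_mul_abs_self, ha]; norm_num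
  let u : (V ⊕ V → ℝ) → V → ℝ := fun z v =>
    if v ∈ A then Y p v * Y z v - X p v * X z v else if v ∈ σ then X z v else Y z v
  let ext : ({v : V // v ≠ i0} → ℝ) → V → ℝ := fun w v => if h : v ≠ i0 then w ⟨v, h⟩ else 0
  let uu : ({v : V // v ≠ i0} → ℝ) → V → ℝ := fun w v =>
    if v ∈ A then ext w v - FF L σ A hAL (ext w) else ext w v
  let φ : (V ⊕ V → ℝ) → ({v : V // v ≠ i0} → ℝ) := fun z v =>
    if v.1 ∈ A then u z v.1 - u z i0 else u z v.1
  let ψ : ({v : V // v ≠ i0} → ℝ) → (V ⊕ V → ℝ) := fun w => Sum.elim
    (fun v => if v ∈ A then X p v * (1 - max (uu w v) 0) else if v ∈ σ then uu w v else X p v)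
    (fun v => if v ∈ A then Y p v * (1 + min (uu w v) 0) else if v ∈ σ then Y p v else uu w v)
  let k : V → (V ⊕ V → ℝ) → ℝ := fun v z =>
    if v ∈ A then min (X p v * X z v) (Y p v * Y z v)
    else if v ∈ σ then min (1 - |X z v|) (Y p v * Y z v)
    else min (1 - |Y z v|) (X p v * X z v)
  have cX : ∀ v, Continuous fun z : V ⊕ V → ℝ => X z v := fun v => continuous_apply _
  have cY : ∀ v, Continuous fun z : V ⊕ V → ℝ => Y z v := fun v => continuous_apply _
  have cu : ∀ v, Continuous fun z => u z v := by
    intro v
    by_cases h1 : v ∈ A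
    · simp only [u, h1, if_true]
      exact ((cY v).const_mul _).sub ((cX v).const_mul _)
    · by_cases h2 : v ∈ σ
      · simp only [u, h1, h2, if_true, if_false]; exact cX v
      · simp only [u, h1, h2, if_false]; exact cY v
  have cφ : Continuous φ := by
    apply continuous_pi
    intro v
    by_cases h1 : v.1 ∈ A
    · simp only [φ, h1, if_true]; exact (cu _).sub (cu _)
    · simp only [φ, h1, if_false]; exact cu _
  have cext : Continuous ext := by
    apply continuous_pi
    intro v
    by_cases h1 : v ≠ i0
    · simp only [ext, h1, dif_pos, not_false_eq_true, ne_eq]; exact continuous_apply _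
    · simp only [ext, h1, dif_neg, not_false_eq_true]; exact continuous_const
  have cext' : ∀ v, Continuous fun w => ext w v := fun v => (continuous_apply v).comp cext
  have cuu : ∀ v, Continuous fun w => uu w v := by
    intro v
    by_cases h1 : v ∈ A
    · simp only [uu, h1, if_true]
      exact (cext' v).sub ((FF_cont L σ A hAL).comp cext)
    · simp only [uu, h1, if_false]; exact cext' v
  have cψ : Continuous ψ := by
    apply continuous_pi
    rintro (v | v)
    · by_cases h1 : v ∈ A
      · simp only [ψ, h1, if_true, Sum.elim_inl]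
        exact (continuous_const.sub ((cuu v).max continuous_const)).const_mul _
      · by_cases h2 : v ∈ σ
        · simp only [ψ, h1, h2, if_true, if_false, Sum.elim_inl]; exact cuu v
        · simp only [ψ, h1, h2, if_false, Sum.elim_inl]; exact continuous_const
    · by_cases h1 : v ∈ A
      · simp only [ψ, h1, if_true, Sum.elim_inr]
        exact (continuous_const.add ((cuu v).min continuous_const)).const_mul _
      · by_cases h2 : v ∈ σ
        · simp only [ψ, h1, h2, if_true, if_false, Sum.elim_inr]; exact continuous_const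
        · simp only [ψ, h1, h2, if_false, Sum.elim_inr]; exact cuu v
  have ck : ∀ v, Continuous (k v) := by
    intro v
    by_cases h1 : v ∈ A
    · simp only [k, h1, if_true]
      exact ((cX v).const_mul _).min ((cY v).const_mul _)
    · by_cases h2 : v ∈ σ
      · simp only [k, h1, h2, if_true, if_false]
        exact (continuous_const.sub (cX v).abs).min ((cY v).const_mul _)
      · simp only [k, h1, h2, if_false]
        exact (continuous_const.sub (cY v).abs).min ((cX v).const_mul _)
  refine ⟨i0, mk_chart (RZ (Bi L)) ⟨p, hpM⟩ φ ψ {z | ∀ v, 0 < k v z} {w | ∀ v, |uu w v| < 1}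
    ?_ ?_ cφ cψ ?_ ?_ ?_⟩
  · have : {z | ∀ v, 0 < k v z} = ⋂ v, {z | 0 < k v z} := by ext z; simp
    rw [this]
    exact isOpen_iInter_of_finite fun v => isOpen_lt continuous_const (ck v)
  · have : {w | ∀ v, |uu w v| < 1} = ⋂ v, {w | |uu w v| < 1} := by ext z; simp
    rw [this]
    exact isOpen_iInter_of_finite fun v => isOpen_lt (cuu v).abs continuous_const
  · intro v
    show 0 < k v p
    by_cases h1 : v ∈ A
    · simp only [k, h1, if_true]
      rw [sq1 _ (hXp v (hAσ v h1)), sq1 _ (hYp v (Or.inl h1))]; norm_num
    · by_cases h2 : v ∈ σ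
      · simp only [k, h1, h2, if_true, if_false]
        rw [sq1 _ (hYp v (Or.inr h2))]
        rw [hmσ] at h2
        exact lt_min (by linarith) (by norm_num)
      · simp only [k, h1, h2, if_false]
        rw [sq1 _ (hXp v h2)]
        refine lt_min ?_ (by norm_num)
        have h3 : |Y p v| < 1 := by
          refine lt_of_le_of_ne (hp1 v).2.1 fun h4 => h1 ?_
          rw [hmA]; exact ⟨hXp v h2, h4⟩
        linarith
  · intro z hz hzN
    obtain ⟨hz1, hz2, hz3⟩ := (rz_bier L z).mp hz
    have hzN : ∀ v, 0 < k v z := hzN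
    have absmul : ∀ a b : ℝ, |a| = 1 → 0 < a * b → a * b = |b| := by
      intro a b ha hab
      rw [← abs_of_pos hab, abs_mul, ha, one_mul]
    have fA : ∀ v, v ∈ A → X p v * X z v = |X z v| ∧ Y p v * Y z v = |Y z v| ∧ 0 < |X z v| ∧
        0 < |Y z v| := by
      intro v h1
      have h2 := hzN v
      simp only [k, h1, if_true, lt_min_iff] at h2
      have h3 := absmul _ _ (hXp v (hAσ v h1)) h2.1
      have h4 := absmul _ _ (hYp v (Or.inl h1)) h2.2
      exact ⟨h3, h4, by rw [← h3]; exact h2.1, by rw [← h4]; exact h2.2⟩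
    have fσ : ∀ v, v ∈ σ → |X z v| < 1 ∧ Y z v = Y p v ∧ |Y z v| = 1 := by
      intro v h1
      have h0 : v ∉ A := fun h => hAσ v h h1
      have h2 := hzN v
      simp only [k, h0, h1, if_true, if_false, lt_min_iff] at h2
      have h3 : |X z v| < 1 := by linarith [h2.1]
      have h4 : |Y z v| = 1 := by
        rcases (hz1 v).2.2 with h | h
        · exact absurd h (ne_of_lt h3)
        · exact h
      refine ⟨h3, ?_, h4⟩
      have h5 := absmul _ _ (hYp v (Or.inr h1)) h2.2
      rw [h4] at h5
      have h6 := sq1 _ (hYp v (Or.inr h1))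
      calc Y z v = (Y p v * Y p v) * Y z v := by rw [h6, one_mul]
        _ = Y p v * (Y p v * Y z v) := by ring
        _ = Y p v := by rw [h5, mul_one]
    have fr' : ∀ v, v ∉ A → v ∉ σ → |Y z v| < 1 ∧ X z v = X p v ∧ |X z v| = 1 := by
      intro v h0 h1
      have h2 := hzN v
      simp only [k, h0, h1, if_false, lt_min_iff] at h2
      have h3 : |Y z v| < 1 := by linarith [h2.1]
      have h4 : |X z v| = 1 := by
        rcases (hz1 v).2.2 with h | h
        · exact h
        · exact absurd h (ne_of_lt h3)
      refine ⟨h3, ?_, h4⟩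
      have h5 := absmul _ _ (hXp v h1) h2.2
      rw [h4] at h5
      have h6 := sq1 _ (hXp v h1)
      calc X z v = (X p v * X p v) * X z v := by rw [h6, one_mul]
        _ = X p v * (X p v * X z v) := by ring
        _ = X p v := by rw [h5, mul_one]
    have huA : ∀ v, v ∈ A → u z v = |Y z v| - |X z v| := by
      intro v h1
      simp only [u, h1, if_true]
      rw [(fA v h1).1, (fA v h1).2.1]
    have hF : FF L σ A hAL (u z) = 0 := by
      rw [FF_zero hL hσL]
      constructor
      · convert hz3 using 2
        ext v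
        rw [mem_union, mem_filter]
        simp only [mem_filter, mem_univ, true_and]
        constructor
        · rintro (h | ⟨h, h'⟩)
          · exact (fσ v h).2.2
          · rw [huA v h] at h'
            rcases (hz1 v).2.2 with h5 | h5
            · have h5' : |X z v| = 1 := h5
              have h6 : |Y z v| ≤ 1 := (hz1 v).2.1
              show |Y z v| = 1
              linarith
            · exact h5
        · intro h
          by_cases h1 : v ∈ σ
          · exact Or.inl h1
          · by_cases h2 : v ∈ A
            · right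
              refine ⟨h2, ?_⟩
              rw [huA v h2]
              have h6 : |X z v| ≤ 1 := (hz1 v).1
              have h7 : |Y z v| = 1 := h
              linarith
            · exact absurd h (ne_of_lt (fr' v h2 h1).1)
      · convert hz2 using 1
        ext v
        rw [mem_union, mem_filter]
        simp only [mem_filter, mem_univ, true_and]
        constructor
        · rintro (h | ⟨h, h'⟩)
          · exact (fσ v h).1
          · rw [huA v h] at h'
            have h6 : |Y z v| ≤ 1 := (hz1 v).2.1
            show |X z v| < 1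
            linarith
        · intro h
          by_cases h1 : v ∈ σ
          · exact Or.inl h1
          · by_cases h2 : v ∈ A
            · right
              refine ⟨h2, ?_⟩
              rw [huA v h2]
              have h7 : |X z v| < 1 := h
              rcases (hz1 v).2.2 with h5 | h5
              · exact absurd h5 (ne_of_lt h)
              · have h5' : |Y z v| = 1 := h5
                linarith
            · exact absurd (fr' v h2 h1).2.2 (ne_of_lt h)
    have hext : ∀ v, ext (φ z) v = if v ∈ A then u z v - u z i0 else u z v := by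
      intro v
      by_cases h1 : v ≠ i0
      · simp only [ext, h1, ne_eq, not_false_eq_true, dif_pos]
        rfl
      · push Not at h1
        subst h1
        simp only [ext, ne_eq, not_true_eq_false, not_false_eq_true, dif_neg, hi0, if_true,
          sub_self]
    have hFext : FF L σ A hAL (ext (φ z)) = - u z i0 := by
      rw [FF_shift hL hσL hAL (u z) (ext (φ z)) (u z i0), hF, zero_sub]
      intro v hv
      rw [hext v, if_pos hv]
    have huu : ∀ v, uu (φ z) v = u z v := by
      intro v
      by_cases h1 : v ∈ A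
      · simp only [uu, h1, if_true]
        rw [hext v, if_pos h1, hFext]; ring
      · simp only [uu, h1, if_false]
        rw [hext v, if_neg h1]
    constructor
    · intro v
      rw [huu v]
      by_cases h1 : v ∈ A
      · rw [huA v h1, abs_lt]
        have h2 := fA v h1
        have h3 : |X z v| ≤ 1 := (hz1 v).1
        have h4 : |Y z v| ≤ 1 := (hz1 v).2.1
        constructor <;> linarith [h2.2.2.1, h2.2.2.2]
      · by_cases h2 : v ∈ σ
        · simp only [u, h1, h2, if_true, if_false]; exact (fσ v h2).1
        · simp only [u, h1, h2, if_false]; exact (fr' v h1 h2).1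
    · funext i
      rcases i with v | v
      · by_cases h1 : v ∈ A
        · simp only [ψ, h1, if_true, Sum.elim_inl]
          rw [huu v, huA v h1]
          have h2 := fA v h1
          have h3 : 1 - max (|Y z v| - |X z v|) 0 = |X z v| := by
            have h3 : |X z v| ≤ 1 := (hz1 v).1
            have h4 : |Y z v| ≤ 1 := (hz1 v).2.1
            rcases (hz1 v).2.2 with h5 | h5
            · have h5' : |X z v| = 1 := h5
              rw [max_eq_right (by linarith)]; linarith
            · have h5' : |Y z v| = 1 := h5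
              rw [max_eq_left (by linarith)]; linarith
          rw [h3, ← h2.1, ← mul_assoc, sq1 _ (hXp v (hAσ v h1)), one_mul]
        · by_cases h2 : v ∈ σ
          · simp only [ψ, h1, h2, if_true, if_false, Sum.elim_inl]
            rw [huu v]
            simp only [u, h1, h2, if_true, if_false, hX]
          · simp only [ψ, h1, h2, if_false, Sum.elim_inl]
            exact (fr' v h1 h2).2.1.symm
      · by_cases h1 : v ∈ A
        · simp only [ψ, h1, if_true, Sum.elim_inr]
          rw [huu v, huA v h1]
          have h2 := fA v h1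
          have h3 : 1 + min (|Y z v| - |X z v|) 0 = |Y z v| := by
            have h3 : |X z v| ≤ 1 := (hz1 v).1
            have h4 : |Y z v| ≤ 1 := (hz1 v).2.1
            rcases (hz1 v).2.2 with h5 | h5
            · have h5' : |X z v| = 1 := h5
              rw [min_eq_left (by linarith)]; linarith
            · have h5' : |Y z v| = 1 := h5
              rw [min_eq_right (by linarith)]; linarith
          rw [h3, ← h2.2.1, ← mul_assoc, sq1 _ (hYp v (Or.inl h1)), one_mul]
        · by_cases h2 : v ∈ σ
          · simp only [ψ, h1, h2, if_true, if_false, Sum.elim_inr]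
            exact (fσ v h2).2.1.symm
          · simp only [ψ, h1, h2, if_false, Sum.elim_inr]
            rw [huu v]
            simp only [u, h1, h2, if_false, hY]
  · intro w hw
    have hw : ∀ v, |uu w v| < 1 := hw
    have xA : ∀ v, v ∈ A → X (ψ w) v = X p v * (1 - max (uu w v) 0) := by
      intro v h1; simp only [hX, ψ, h1, if_true, Sum.elim_inl]
    have yA : ∀ v, v ∈ A → Y (ψ w) v = Y p v * (1 + min (uu w v) 0) := by
      intro v h1; simp only [hY, ψ, h1, if_true, Sum.elim_inr]
    have xσ : ∀ v, v ∈ σ → X (ψ w) v = uu w v := by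
      intro v h1
      have h0 : v ∉ A := fun h => hAσ v h h1
      simp only [hX, ψ, h0, h1, if_true, if_false, Sum.elim_inl]
    have yσ : ∀ v, v ∈ σ → Y (ψ w) v = Y p v := by
      intro v h1
      have h0 : v ∉ A := fun h => hAσ v h h1
      simp only [hY, ψ, h0, h1, if_true, if_false, Sum.elim_inr]
    have xr : ∀ v, v ∉ A → v ∉ σ → X (ψ w) v = X p v := by
      intro v h0 h1
      simp only [hX, ψ, h0, h1, if_false, Sum.elim_inl]
    have yr : ∀ v, v ∉ A → v ∉ σ → Y (ψ w) v = uu w v := by
      intro v h0 h1
      simp only [hY, ψ, h0, h1, if_false, Sum.elim_inr]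
    have bd1 : ∀ v, 0 < 1 - max (uu w v) 0 ∧ 1 - max (uu w v) 0 ≤ 1 := by
      intro v
      have := abs_lt.mp (hw v)
      constructor
      · have : max (uu w v) 0 < 1 := max_lt this.2 (by norm_num)
        linarith
      · have : 0 ≤ max (uu w v) 0 := le_max_right _ _
        linarith
    have bd2 : ∀ v, 0 < 1 + min (uu w v) 0 ∧ 1 + min (uu w v) 0 ≤ 1 := by
      intro v
      have := abs_lt.mp (hw v)
      constructor
      · have : -1 < min (uu w v) 0 := lt_min this.1 (by norm_num)
        linarith
      · have : min (uu w v) 0 ≤ 0 := min_le_right _ _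
        linarith
    have axA : ∀ v, v ∈ A → |X (ψ w) v| = 1 - max (uu w v) 0 := by
      intro v h1
      rw [xA v h1, abs_mul, hXp v (hAσ v h1), one_mul, abs_of_pos (bd1 v).1]
    have ayA : ∀ v, v ∈ A → |Y (ψ w) v| = 1 + min (uu w v) 0 := by
      intro v h1
      rw [yA v h1, abs_mul, hYp v (Or.inl h1), one_mul, abs_of_pos (bd2 v).1]
    have hFuu : FF L σ A hAL (uu w) = 0 := by
      rw [FF_shift hL hσL hAL (ext w) (uu w) (FF L σ A hAL (ext w)), sub_self]
      intro v hv
      simp only [uu, hv, if_true]
    rw [FF_zero hL hσL] at hFuu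
    refine ⟨?_, ?_, ?_⟩
    · rw [rz_bier]
      refine ⟨?_, ?_, ?_⟩
      · intro v
        show |X (ψ w) v| ≤ 1 ∧ |Y (ψ w) v| ≤ 1 ∧ (|X (ψ w) v| = 1 ∨ |Y (ψ w) v| = 1)
        by_cases h1 : v ∈ A
        · rw [axA v h1, ayA v h1]
          refine ⟨(bd1 v).2, (bd2 v).2, ?_⟩
          rcases le_total (uu w v) 0 with h2 | h2
          · left; rw [max_eq_right h2, sub_zero]
          · right; rw [min_eq_right h2, add_zero]
        · by_cases h2 : v ∈ σ
          · rw [xσ v h2, yσ v h2]
            exact ⟨(hw v).le, (hYp v (Or.inr h2)).le, Or.inr (hYp v (Or.inr h2))⟩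
          · rw [xr v h1 h2, yr v h1 h2]
            exact ⟨(hXp v h2).le, (hw v).le, Or.inl (hXp v h2)⟩
      · convert hFuu.2 using 1
        ext v
        rw [mem_union, mem_filter]
        simp only [mem_filter, mem_univ, true_and]
        show |X (ψ w) v| < 1 ↔ _
        by_cases h1 : v ∈ A
        · rw [axA v h1]
          constructor
          · intro h2
            right
            refine ⟨h1, ?_⟩
            by_contra h3
            rw [max_eq_right (not_lt.mp h3)] at h2
            linarith
          · rintro (h2 | h2)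
            · exact absurd h2 (hAσ v h1)
            · rw [max_eq_left h2.2.le]; linarith [h2.2]
        · by_cases h2 : v ∈ σ
          · rw [xσ v h2]; exact ⟨fun _ => Or.inl h2, fun _ => hw v⟩
          · rw [xr v h1 h2, hXp v h2]
            constructor
            · intro h; exact absurd h (lt_irrefl _)
            · rintro (h | h)
              · exact absurd h h2
              · exact absurd h.1 h1
      · convert hFuu.1 using 2
        ext v
        rw [mem_union, mem_filter]
        simp only [mem_filter, mem_univ, true_and]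
        show |Y (ψ w) v| = 1 ↔ _
        by_cases h1 : v ∈ A
        · rw [ayA v h1]
          constructor
          · intro h2
            right
            refine ⟨h1, ?_⟩
            by_contra h3
            rw [min_eq_left (not_le.mp h3).le] at h2
            exact h3 (by linarith)
          · rintro (h2 | h2)
            · exact absurd h2 (hAσ v h1)
            · rw [min_eq_right h2.2]; ring
        · by_cases h2 : v ∈ σ
          · rw [yσ v h2]; exact ⟨fun _ => Or.inl h2, fun _ => hYp v (Or.inr h2)⟩
          · rw [yr v h1 h2]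
            constructor
            · intro h; exact absurd h (ne_of_lt (hw v))
            · rintro (h | h)
              · exact absurd h h2
              · exact absurd h.1 h1
    · intro v
      show 0 < k v (ψ w)
      by_cases h1 : v ∈ A
      · simp only [k, h1, if_true]
        rw [xA v h1, yA v h1, ← mul_assoc, ← mul_assoc, sq1 _ (hXp v (hAσ v h1)),
          sq1 _ (hYp v (Or.inl h1)), one_mul, one_mul]
        exact lt_min (bd1 v).1 (bd2 v).1
      · by_cases h2 : v ∈ σ
        · simp only [k, h1, h2, if_true, if_false]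
          rw [xσ v h2, yσ v h2, sq1 _ (hYp v (Or.inr h2))]
          exact lt_min (by linarith [hw v]) (by norm_num)
        · simp only [k, h1, h2, if_false]
          rw [xr v h1 h2, yr v h1 h2, sq1 _ (hXp v h2)]
          exact lt_min (by linarith [hw v]) (by norm_num)
    · have hu : ∀ v, u (ψ w) v = uu w v := by
        intro v
        by_cases h1 : v ∈ A
        · simp only [u, h1, if_true]
          rw [xA v h1, yA v h1, ← mul_assoc, ← mul_assoc, sq1 _ (hXp v (hAσ v h1)),
            sq1 _ (hYp v (Or.inl h1)), one_mul, one_mul]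
          have := max_add_min (uu w v) 0
          linarith
        · by_cases h2 : v ∈ σ
          · simp only [u, h1, h2, if_true, if_false]; exact xσ v h2
          · simp only [u, h1, h2, if_false]; exact yr v h1 h2
      have hi0e : ext w i0 = 0 := by simp only [ext, ne_eq, not_true_eq_false, not_false_eq_true, dif_neg]
      funext v
      have hve : ext w v.1 = w v := by
        simp only [ext, v.2, ne_eq, not_false_eq_true, dif_pos]
      by_cases h1 : v.1 ∈ A
      · simp only [φ, h1, if_true]
        rw [hu, hu]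
        simp only [uu, h1, hi0, if_true]
        rw [hi0e, hve]; ring
      · simp only [φ, h1, if_false]
        rw [hu]
        simp only [uu, h1, if_false]
        exact hve

end chart

end

end Pool.Agent.H999R3.Tm
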