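import Pool.Agent.H999R3.Tm.Geo

namespace Pool.Agent.H999R3.Tm

open Finset Module

noncomputable section

theorem Cplx.real_compact (C : Cplx) : IsCompact C.real := by
  have h1 : C.real ⊆ Set.pi Set.univ (fun _ => Set.Icc (0 : ℝ) 1) := by
    rintro w ⟨h1, h2, _⟩ v _
    refine ⟨h1 v, ?_⟩
    rw [← h2]
    exact single_le_sum (fun u _ => h1 u) (mem_univ v)
  refine IsCompact.of_isClosed_subset (isCompact_univ_pi fun _ => isCompact_Icc) ?_ h1
  have h2 : C.real = ⋃ s ∈ C.faces, {w : C.V → ℝ | (∀ v, 0 ≤ w v) ∧ ∑ v, w v = 1 ∧
      ∀ v, v ∉ s → w v = 0} := by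
    ext w
    simp only [Set.mem_iUnion, Set.mem_setOf_eq, exists_prop]
    constructor
    · rintro ⟨h1, h2, h3⟩
      refine ⟨_, h3, h1, h2, ?_⟩
      intro v hv
      simpa using hv
    · rintro ⟨s, hs, h1, h2, h3⟩
      refine ⟨h1, h2, C.down s hs _ ?_ ?_⟩
      · intro v hv
        simp only [mem_filter, mem_univ, true_and] at hv
        by_contra h4
        exact hv (h3 v h4)
      · by_contra h4
        rw [Finset.not_nonempty_iff_eq_empty] at h4
        have : ∑ v, w v = 0 := by
          apply sum_eq_zero
          intro v _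
          by_contra h5
          have : v ∈ (univ.filter fun v => w v ≠ 0) := by simp [h5]
          rw [h4] at this
          simp at this
        rw [this] at h2
        norm_num at h2
  rw [h2]
  apply Set.Finite.isClosed_biUnion (Set.toFinite _)
  intro s _
  have e1 : {w : C.V → ℝ | (∀ v, 0 ≤ w v) ∧ ∑ v, w v = 1 ∧ ∀ v, v ∉ s → w v = 0} =
      (⋂ v, {w : C.V → ℝ | 0 ≤ w v}) ∩ ({w : C.V → ℝ | ∑ v, w v = 1} ∩
        ⋂ v, ⋂ (_ : v ∉ s), {w : C.V → ℝ | w v = 0}) := by
    ext w; simp
  rw [e1]
  refine IsClosed.inter (isClosed_iInter fun v => isClosed_le continuous_const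
    (continuous_apply v)) (IsClosed.inter (isClosed_eq (continuous_finset_sum _
    fun v _ => continuous_apply v) continuous_const) (isClosed_iInter fun v =>
    isClosed_iInter fun _ => isClosed_eq (continuous_apply v) continuous_const))

variable {ι : Type} [Fintype ι] [DecidableEq ι]

def bm (w : SV ι → ℝ) : ι → ℝ := fun i => ∑ x, w x * ((x i : SignType) : ℝ)

theorem exists_min_supp {w : SV ι → ℝ} (hc : ∀ x y, w x ≠ 0 → w y ≠ 0 → le x y ∨ le y x)
    (hne : ∃ x, w x ≠ 0) : ∃ v, w v ≠ 0 ∧ ∀ y, w y ≠ 0 → le v y := by
  obtain ⟨x, hx⟩ := hne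
  obtain ⟨v, hv, hmin⟩ := exists_min_image (univ.filter fun x => w x ≠ 0) (fun x => (zs x).card)
    ⟨x, by simp [hx]⟩
  simp only [mem_filter, mem_univ, true_and] at hv hmin
  refine ⟨v, hv, fun y hy => ?_⟩
  rcases hc v y hv hy with h1 | h1
  · exact h1
  · by_cases h2 : y = v
    · rw [h2]; exact le_refl' _
    · have := zs_card_lt h1 h2
      have := hmin y hy
      omega

theorem sgn_min {w : SV ι → ℝ} (h0 : ∀ x, 0 ≤ w x) {v : SV ι} (hv : w v ≠ 0)
    (hmin : ∀ y, w y ≠ 0 → le v y) (i : ι) : SignType.sign (bm w i) = v i := by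
  have h1 : ∀ x, w x * ((x i : SignType) : ℝ) =
      ((v i : SignType) : ℝ) * (if x i = 0 then 0 else w x) := by
    intro x
    by_cases hx : x i = 0
    · rw [hx]; simp
    · rw [if_neg hx]
      by_cases hw : w x = 0
      · rw [hw]; simp
      · rcases hmin x hw i with h2 | h2
        · rw [h2]; ring
        · exact absurd h2 hx
  have h2 : bm w i = ((v i : SignType) : ℝ) * ∑ x, (if x i = 0 then 0 else w x) := by
    unfold bm
    rw [mul_sum]
    exact sum_congr rfl fun x _ => h1 x
  rw [h2]
  by_cases hvi : v i = 0
  · rw [hvi]; simp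
  · have h3 : 0 < ∑ x, (if x i = 0 then 0 else w x) := by
      apply sum_pos'
      · intro x _
        by_cases hx : x i = 0
        · rw [if_pos hx]
        · rw [if_neg hx]; exact h0 x
      · refine ⟨v, mem_univ _, ?_⟩
        rw [if_neg hvi]
        exact lt_of_le_of_ne (h0 v) (Ne.symm hv)
    rw [sign_mul, sign_pos h3, mul_one]
    rcases v i with _ | _ | _ <;> simp

theorem inj_aux : ∀ n : ℕ, ∀ w w' : SV ι → ℝ, (∀ x, 0 ≤ w x) → (∀ x, 0 ≤ w' x) →
    (∀ x y, w x ≠ 0 → w y ≠ 0 → le x y ∨ le y x) →
    (∀ x y, w' x ≠ 0 → w' y ≠ 0 → le x y ∨ le y x) →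
    ∑ x, w x = ∑ x, w' x → bm w = bm w' →
    (univ.filter fun x => w x ≠ 0).card + (univ.filter fun x => w' x ≠ 0).card = n → w = w' := by
  intro n
  induction n using Nat.strong_induction_on with
  | _ n ih =>
    intro w w' h0 h0' hc hc' hs hb hn
    by_cases hne : ∃ x, w x ≠ 0
    · by_cases hne' : ∃ x, w' x ≠ 0
      · obtain ⟨v, hv, hmin⟩ := exists_min_supp hc hne
        obtain ⟨v', hv', hmin'⟩ := exists_min_supp hc' hne'
        have hvv : v = v' := by
          funext i
          rw [← sgn_min h0 hv hmin i, ← sgn_min h0' hv' hmin' i, hb]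
        subst hvv
        set μ := min (w v) (w' v) with hμ
        have hpv : 0 < w v := lt_of_le_of_ne (h0 v) (Ne.symm hv)
        have hpv' : 0 < w' v := lt_of_le_of_ne (h0' v) (Ne.symm hv')
        have hμ0 : 0 < μ := lt_min hpv hpv'
        set w1 : SV ι → ℝ := fun x => w x - if x = v then μ else 0 with hw1
        set w1' : SV ι → ℝ := fun x => w' x - if x = v then μ else 0 with hw1'
        have p1 : ∀ x, 0 ≤ w1 x := by
          intro x
          simp only [hw1]
          by_cases hx : x = v
          · rw [if_pos hx, hx]; linarith [min_le_left (w v) (w' v)]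
          · rw [if_neg hx, sub_zero]; exact h0 x
        have p1' : ∀ x, 0 ≤ w1' x := by
          intro x
          simp only [hw1']
          by_cases hx : x = v
          · rw [if_pos hx, hx]; linarith [min_le_right (w v) (w' v)]
          · rw [if_neg hx, sub_zero]; exact h0' x
        have s1 : ∀ x, w1 x ≠ 0 → w x ≠ 0 := by
          intro x hx h3
          apply hx
          simp only [hw1]
          by_cases hxv : x = v
          · rw [hxv] at h3; exact absurd h3 hv
          · rw [if_neg hxv, h3, sub_zero]
        have s1' : ∀ x, w1' x ≠ 0 → w' x ≠ 0 := by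
          intro x hx h3
          apply hx
          simp only [hw1']
          by_cases hxv : x = v
          · rw [hxv] at h3; exact absurd h3 hv'
          · rw [if_neg hxv, h3, sub_zero]
        have hsub : (univ.filter fun x => w1 x ≠ 0) ⊆ (univ.filter fun x => w x ≠ 0) := by
          intro x hx
          simp only [mem_filter, mem_univ, true_and] at hx ⊢
          exact s1 x hx
        have hsub' : (univ.filter fun x => w1' x ≠ 0) ⊆ (univ.filter fun x => w' x ≠ 0) := by
          intro x hx
          simp only [mem_filter, mem_univ, true_and] at hx ⊢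
          exact s1' x hx
        have hlt : (univ.filter fun x => w1 x ≠ 0).card + (univ.filter fun x => w1' x ≠ 0).card
            < n := by
          rw [← hn]
          rcases le_total (w v) (w' v) with h3 | h3
          · have h4 : w1 v = 0 := by
              simp only [hw1, if_true]; rw [hμ, min_eq_left h3, sub_self]
            have h5 : (univ.filter fun x => w1 x ≠ 0).card < (univ.filter fun x => w x ≠ 0).card := by
              apply card_lt_card
              refine ⟨hsub, fun h6 => ?_⟩
              have : v ∈ (univ.filter fun x => w1 x ≠ 0) := h6 (by simp [hv])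
              simp only [mem_filter, mem_univ, true_and] at this
              exact this h4
            have h6 := card_le_card hsub'
            omega
          · have h4 : w1' v = 0 := by
              simp only [hw1', if_true]; rw [hμ, min_eq_right h3, sub_self]
            have h5 : (univ.filter fun x => w1' x ≠ 0).card <
                (univ.filter fun x => w' x ≠ 0).card := by
              apply card_lt_card
              refine ⟨hsub', fun h6 => ?_⟩
              have : v ∈ (univ.filter fun x => w1' x ≠ 0) := h6 (by simp [hv'])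
              simp only [mem_filter, mem_univ, true_and] at this
              exact this h4
            have h6 := card_le_card hsub
            omega
        have hfin := ih _ hlt w1 w1' p1 p1' (fun x y hx hy => hc x y (s1 x hx) (s1 y hy))
          (fun x y hx hy => hc' x y (s1' x hx) (s1' y hy)) (by
            simp only [hw1, hw1', sum_sub_distrib, hs]) (by
            funext i
            have := congrFun hb i
            simp only [bm, hw1, hw1', sub_mul, sum_sub_distrib] at this ⊢
            rw [this]) rfl
        funext x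
        have := congrFun hfin x
        simp only [hw1, hw1'] at this
        linarith
      · push Not at hne'
        funext x
        have h3 : ∑ x, w x = 0 := by rw [hs]; exact sum_eq_zero fun x _ => hne' x
        rw [hne' x]
        exact (sum_eq_zero_iff_of_nonneg fun x _ => h0 x).mp h3 x (mem_univ x)
    · push Not at hne
      funext x
      have h3 : ∑ x, w' x = 0 := by rw [← hs]; exact sum_eq_zero fun x _ => hne x
      rw [hne x]
      exact ((sum_eq_zero_iff_of_nonneg fun x _ => h0' x).mp h3 x (mem_univ x)).symm

theorem sign_abs (a : ℝ) : ((SignType.sign a : SignType) : ℝ) * |a| = a := by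
  rcases lt_trichotomy a 0 with h | h | h
  · rw [sign_neg h, abs_of_neg h]; simp
  · rw [h]; simp
  · rw [sign_pos h, abs_of_pos h]; simp

theorem surj_aux : ∀ n : ℕ, ∀ (r : ℝ) (z : ι → ℝ), 0 ≤ r → (∀ i, |z i| ≤ r) →
    (univ.filter fun i => z i ≠ 0).card = n →
    ∃ w : SV ι → ℝ, (∀ x, 0 ≤ w x) ∧ (∀ x y, w x ≠ 0 → w y ≠ 0 → le x y ∨ le y x) ∧
      ∑ x, w x = r ∧ bm w = z ∧
      ∀ x, w x ≠ 0 → le (fun i => SignType.sign (z i)) x ∧ ∀ i, x i = 0 → |z i| < r := by
  intro n
  induction n using Nat.strong_induction_on with
  | _ n ih =>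
    intro r z hr hz hn
    by_cases hne : ∃ i, z i ≠ 0
    · have hne' : (univ.filter fun i => z i ≠ 0).Nonempty := by
        obtain ⟨i, hi⟩ := hne
        exact ⟨i, by simp [hi]⟩
      obtain ⟨j, hj, hmin⟩ := exists_min_image _ (fun i => |z i|) hne'
      simp only [mem_filter, mem_univ, true_and] at hj hmin
      set μ := |z j| with hμ
      have hμ0 : 0 < μ := abs_pos.mpr hj
      have hμr : μ ≤ r := hz j
      set z' : ι → ℝ := fun i => z i - μ * ((SignType.sign (z i) : SignType) : ℝ) with hz'
      have habs : ∀ i, z i ≠ 0 → z' i = ((SignType.sign (z i) : SignType) : ℝ) * (|z i| - μ) ∧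
          |z' i| = |z i| - μ := by
        intro i hi
        have e1 : z' i = ((SignType.sign (z i) : SignType) : ℝ) * (|z i| - μ) := by
          have := sign_abs (z i)
          simp only [hz']
          rw [mul_sub, this]; ring
        refine ⟨e1, ?_⟩
        rw [e1, abs_mul, abs_of_nonneg (sub_nonneg.mpr (hmin i hi))]
        have : |((SignType.sign (z i) : SignType) : ℝ)| = 1 := by
          rcases lt_or_gt_of_ne hi with h | h
          · rw [sign_neg h]; simp
          · rw [sign_pos h]; simp
        rw [this, one_mul]
      have hzero : ∀ i, z i = 0 → z' i = 0 := by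
        intro i hi
        simp only [hz', hi]; simp
      have hz'r : ∀ i, |z' i| ≤ r - μ := by
        intro i
        by_cases hi : z i = 0
        · rw [hzero i hi, abs_zero]; linarith
        · rw [(habs i hi).2]; linarith [hz i]
      have hlt : (univ.filter fun i => z' i ≠ 0).card < n := by
        rw [← hn]
        apply card_lt_card
        refine ⟨?_, fun h6 => ?_⟩
        · intro i hi
          simp only [mem_filter, mem_univ, true_and] at hi ⊢
          exact fun h => hi (hzero i h)
        · have : j ∈ (univ.filter fun i => z' i ≠ 0) := h6 (by simp [hj])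
          simp only [mem_filter, mem_univ, true_and] at this
          apply this
          rw [(habs j hj).1, ← hμ, sub_self, mul_zero]
      obtain ⟨w', h1, h2, h3, h4, h5⟩ := ih _ hlt (r - μ) z' (by linarith) hz'r rfl
      set v : SV ι := fun i => SignType.sign (z i) with hv
      have hvz : ∀ x, le (fun i => SignType.sign (z' i)) x → le v x := by
        intro x hx i
        rcases hx i with h6 | h6
        · have h6' : x i = SignType.sign (z' i) := h6
          by_cases hi : z' i = 0
          · right; rw [h6', hi]; simp
          · left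
            rw [h6']
            have hi' : z i ≠ 0 := fun h => hi (hzero i h)
            have h7 := (habs i hi')
            have h8 : 0 < |z i| - μ := by rw [← h7.2]; exact abs_pos.mpr hi
            show SignType.sign (z' i) = SignType.sign (z i)
            rw [h7.1, sign_mul, sign_pos h8, mul_one]
            rcases SignType.sign (z i) with _ | _ | _ <;> simp
        · exact Or.inr h6
      refine ⟨fun x => w' x + if x = v then μ else 0, ?_, ?_, ?_, ?_, ?_⟩
      · intro x
        by_cases hx : x = v
        · simp only [hx, if_true]; linarith [h1 v]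
        · simp only [hx, if_false, add_zero]; exact h1 x
      · intro x y hx hy
        by_cases hxv : x = v
        · by_cases hyv : y = v
          · rw [hxv, hyv]; exact Or.inl (le_refl' _)
          · simp only [hyv, if_false, add_zero] at hy
            left; rw [hxv]; exact hvz y (h5 y hy).1
        · simp only [hxv, if_false, add_zero] at hx
          by_cases hyv : y = v
          · right; rw [hyv]; exact hvz x (h5 x hx).1
          · simp only [hyv, if_false, add_zero] at hy
            exact h2 x y hx hy
      · rw [sum_add_distrib, h3]; simp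
      · funext i
        have h6 := congrFun h4 i
        simp only [bm] at h6 ⊢
        simp only [add_mul, sum_add_distrib, h6]
        have : ∑ x : SV ι, (if x = v then μ else 0) * ((x i : SignType) : ℝ) =
            μ * ((v i : SignType) : ℝ) := by
          rw [sum_eq_single v]
          · rw [if_pos rfl]
          · intro x _ hx; rw [if_neg hx, zero_mul]
          · intro h; exact absurd (mem_univ _) h
        rw [this]
        simp only [hz', hv]; ring
      · intro x hx
        by_cases hxv : x = v
        · rw [hxv]
          refine ⟨le_refl' _, fun i hi => ?_⟩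
          have : z i = 0 := by
            simp only [hv] at hi
            exact sign_eq_zero_iff.mp hi
          rw [this, abs_zero]; linarith
        · simp only [hxv, if_false, add_zero] at hx
          have h6 := h5 x hx
          refine ⟨hvz x h6.1, fun i hi => ?_⟩
          have h7 := h6.2 i hi
          by_cases hi' : z i = 0
          · rw [hi', abs_zero]; linarith
          · rw [(habs i hi').2] at h7; linarith
    · push Not at hne
      have hz0 : z = 0 := funext hne
      refine ⟨fun x => if x = 0 then r else 0, ?_, ?_, ?_, ?_, ?_⟩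
      · intro x
        show 0 ≤ if x = 0 then r else 0
        by_cases hx : x = 0
        · rw [if_pos hx]; exact hr
        · rw [if_neg hx]
      · intro x y hx hy
        have h1 : x = 0 := by by_contra h; exact hx (if_neg h)
        have h2 : y = 0 := by by_contra h; exact hy (if_neg h)
        rw [h1, h2]; exact Or.inl (le_refl' _)
      · simp
      · rw [hz0]
        funext i
        simp only [bm, Pi.zero_apply]
        apply sum_eq_zero
        intro x _
        by_cases hx : x = 0
        · rw [hx]; simp
        · rw [if_neg hx, zero_mul]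
      · intro x hx
        have h1 : x = 0 := by by_contra h; exact hx (if_neg h)
        have h2 : r ≠ 0 := by
          intro h; apply hx; simp only [h1, if_true]; exact h
        refine ⟨fun i => Or.inr (by rw [h1]; rfl), fun i _ => ?_⟩
        rw [hne i, abs_zero]
        exact lt_of_le_of_ne hr (Ne.symm h2)

/-- the triangulation of the real moment-angle complex -/
def C0 (K : Set (Finset ι)) : Cplx where
  V := SV ι
  faces := {s | s.Nonempty ∧ s ∈ XT K univ}
  nonempty := fun _ h => h.1
  down := fun s hs t hts hne => ⟨hne, XT_down K univ s hs.2 t hts⟩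

theorem C0_real {K : Set (Finset ι)} (w : SV ι → ℝ) : w ∈ (C0 K).real ↔
    (∀ x, 0 ≤ w x) ∧ ∑ x, w x = 1 ∧ (∀ x y, w x ≠ 0 → w y ≠ 0 → le x y ∨ le y x) ∧
    ∀ x, w x ≠ 0 → zs x ∈ K := by
  constructor
  · rintro ⟨h1, h2, _, h3, h4⟩
    refine ⟨h1, h2, ?_, ?_⟩
    · intro x y hx hy
      exact h4 x (mem_filter.mpr ⟨mem_univ _, hx⟩) y (mem_filter.mpr ⟨mem_univ _, hy⟩)
    · intro x hx
      exact (h3 x (mem_filter.mpr ⟨mem_univ _, hx⟩)).1
  · rintro ⟨h1, h2, h3, h4⟩
    refine ⟨h1, h2, ?_, ?_, ?_⟩
    · have h5 : ∑ v, w v ≠ 0 := by rw [h2]; norm_num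
      obtain ⟨x, _, hx⟩ := exists_ne_zero_of_sum_ne_zero h5
      exact ⟨x, mem_filter.mpr ⟨mem_univ _, hx⟩⟩
    · intro y hy
      exact ⟨h4 y (mem_filter.mp hy).2, mem_univ _⟩
    · intro y hy z hz
      exact h3 y z (mem_filter.mp hy).2 (mem_filter.mp hz).2

theorem C0_inj {K : Set (Finset ι)} {w w' : SV ι → ℝ} (hw : w ∈ (C0 K).real)
    (hw' : w' ∈ (C0 K).real) (h : bm w = bm w') : w = w' := by
  rw [C0_real] at hw hw'
  exact inj_aux _ w w' hw.1 hw'.1 hw.2.2.1 hw'.2.2.1 (by rw [hw.2.1, hw'.2.1]) h rfl

theorem bm_mem {K : Set (Finset ι)} (hK : Down K) {w : SV ι → ℝ} (hw : w ∈ (C0 K).real) :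
    bm w ∈ RZ K := by
  rw [C0_real] at hw
  obtain ⟨h1, h2, h3, h4⟩ := hw
  have hle : ∀ (i : ι) (x : SV ι), |w x * ((x i : SignType) : ℝ)| ≤ w x := by
    intro i x
    rw [abs_mul, abs_of_nonneg (h1 x)]
    have : |((x i : SignType) : ℝ)| ≤ 1 := by
      rcases x i with _ | _ | _ <;> simp
    calc w x * |((x i : SignType) : ℝ)| ≤ w x * 1 := mul_le_mul_of_nonneg_left this (h1 x)
      _ = w x := mul_one _
  refine ⟨fun i => ?_, ?_⟩
  · rw [← h2]
    exact (abs_sum_le_sum_abs _ _).trans (sum_le_sum fun x _ => hle i x)
  · have hne : ∃ x, w x ≠ 0 := by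
      by_contra h5
      push Not at h5
      rw [sum_eq_zero fun x _ => h5 x] at h2
      norm_num at h2
    obtain ⟨x0, hx0⟩ := hne
    obtain ⟨v, hv, hmax⟩ := exists_max_image (univ.filter fun x => w x ≠ 0) (fun x => (zs x).card)
      ⟨x0, by simp [hx0]⟩
    simp only [mem_filter, mem_univ, true_and] at hv hmax
    apply hK _ (h4 v hv)
    intro i hi
    simp only [mem_filter, mem_univ, true_and] at hi
    rw [mem_zs]
    by_contra h5
    have h6 : ∀ y, w y ≠ 0 → y i = v i := by
      intro y hy
      rcases h3 y v hy hv with h7 | h7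
      · rcases h7 i with h8 | h8
        · exact h8.symm
        · exact absurd h8 h5
      · by_cases h8 : v = y
        · rw [h8]
        · have := zs_card_lt h7 h8
          have := hmax y hy
          omega
    have h7 : bm w i = ((v i : SignType) : ℝ) := by
      unfold bm
      have : ∀ x, w x * ((x i : SignType) : ℝ) = w x * ((v i : SignType) : ℝ) := by
        intro x
        by_cases hx : w x = 0
        · rw [hx]; simp
        · rw [h6 x hx]
      simp only [this]
      rw [← sum_mul, h2, one_mul]
    rw [h7] at hi
    revert hi h5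
    rcases v i with _ | _ | _
    · intro _ h; exact h rfl
    · intro hi _; simp at hi
    · intro hi _; simp at hi

theorem bm_surj {K : Set (Finset ι)} (hK : Down K) {z : ι → ℝ} (hz : z ∈ RZ K) :
    ∃ w ∈ (C0 K).real, bm w = z := by
  obtain ⟨w, h1, h2, h3, h4, h5⟩ := surj_aux _ 1 z zero_le_one hz.1 rfl
  refine ⟨w, (C0_real w).mpr ⟨h1, h3, h2, fun x hx => hK _ hz.2 _ ?_⟩, h4⟩
  intro i hi
  simp only [mem_filter, mem_univ, true_and]
  exact (h5 x hx).2 i (mem_zs.mp hi)

theorem bm_cont : Continuous (bm : (SV ι → ℝ) → ι → ℝ) := by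
  apply continuous_pi
  intro i
  exact continuous_finset_sum _ fun x _ => (continuous_apply x).mul continuous_const

theorem homeo {K : Set (Finset ι)} (hK : Down K) : Nonempty ((C0 K).real ≃ₜ RZ K) := by
  let f : (C0 K).real → RZ K := fun w => ⟨bm w.1, bm_mem hK w.2⟩
  have hf : Continuous f := (bm_cont.comp continuous_subtype_val).subtype_mk _
  have hb : Function.Bijective f := by
    constructor
    · intro w w' h
      exact Subtype.ext (C0_inj w.2 w'.2 (congrArg Subtype.val h))
    · rintro ⟨z, hz⟩
      obtain ⟨w, hw, h⟩ := bm_surj hK hz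
      exact ⟨⟨w, hw⟩, Subtype.ext h⟩
  haveI : CompactSpace (C0 K).real := isCompact_iff_compactSpace.mp (C0 K).real_compact
  exact ⟨Continuous.homeoOfEquivCompactToT2 (f := Equiv.ofBijective f hb) hf⟩

end

end Pool.Agent.H999R3.Tm
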