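import Pool.Agent.H999R3.Tm.Morse

namespace Pool.Agent.H999R3.Tm

open Finset Module

noncomputable section

variable {V : Type} [Fintype V] [DecidableEq V] {F : Type} [Field F]

abbrev Vx (X : Set (Finset V)) : Type := {v : V // {v} ∈ X}

def rel (X : Set (Finset V)) (u v : Vx X) : Prop := ({u.1, v.1} : Finset V) ∈ X

instance (X : Set (Finset V)) : Finite (Quot (rel X)) := Quot.finite _

theorem D_single_vertex (h : V → ℕ) (v : V) :
    D h (Pi.single ({v} : Finset V) (1 : F)) = Pi.single ∅ 1 := by
  funext t
  rw [D_apply]
  by_cases ht : t = ∅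
  · rw [ht, Pi.single_eq_same, sum_eq_single v]
    · have : insert v (∅ : Finset V) = {v} := by ext; simp
      rw [this, Pi.single_eq_same, mul_one]
      simp [sg]
    · intro w _ hwv
      have : insert w (∅ : Finset V) ≠ {v} := by
        intro h1
        have h2 : w ∈ ({v} : Finset V) := by rw [← h1]; exact mem_insert_self _ _
        exact hwv (mem_singleton.mp h2)
      rw [Pi.single_eq_of_ne this, mul_zero]
    · intro h1; simp at h1
  · rw [Pi.single_eq_of_ne ht]
    apply sum_eq_zero
    intro w hw
    have : insert w t ≠ {v} := by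
      intro h1
      have h2 : (insert w t).card = 1 := by rw [h1]; simp
      rw [mem_compl] at hw
      rw [card_insert_of_notMem hw] at h2
      exact ht (card_eq_zero.mp (by omega))
    rw [Pi.single_eq_of_ne this, mul_zero]

theorem kp_single_empty (h : V → ℕ) (u : V) :
    kp h u (Pi.single (∅ : Finset V) (1 : F)) = Pi.single {u} 1 := by
  funext s
  rw [kp_apply]
  by_cases hs : s = {u}
  · rw [hs]
    simp [sg, filter_singleton]
  · rw [Pi.single_eq_of_ne hs]
    by_cases hu : u ∈ s
    · rw [if_pos hu]
      have : s.erase u ≠ ∅ := by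
        intro h1
        apply hs
        rw [← insert_erase hu, h1]
        ext; simp
      rw [Pi.single_eq_of_ne this, mul_zero]
    · rw [if_neg hu]

theorem single_mem {X : Set (Finset V)} {s : Finset V} (hs : s ∈ X) {n : ℕ} (hn : s.card = n) :
    Pi.single s (1 : F) ∈ Sp F X n := by
  intro t ht
  have : t = s := by
    by_contra h1
    rw [Pi.single_eq_of_ne h1] at ht
    exact ht rfl
  rw [this]; exact ⟨hs, hn⟩

theorem diff_mem {h : V → ℕ} (hh : Function.Injective h) {X : Set (Finset V)} (u v : Vx X)
    (hr : Relation.EqvGen (rel X) u v) :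
    (Pi.single ({v.1} : Finset V) (1 : F) - Pi.single ({u.1} : Finset V) (1 : F) : Finset V → F)
      ∈ Bc F h X 1 := by
  induction hr with
  | rel u v huv =>
    by_cases he : u = v
    · rw [he, sub_self]; exact Submodule.zero_mem _
    · have hne : u.1 ≠ v.1 := fun h1 => he (Subtype.ext h1)
      refine mem_Bc.mpr ⟨kp h u.1 (Pi.single {v.1} 1), ?_, ?_⟩
      · apply kp_mem' (X := {({v.1} : Finset V)})
        · exact single_mem (V := V) (F := F) (s := {v.1}) (n := 1) (Set.mem_singleton _)
            (card_singleton _)
        · intro s hs _ _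
          rw [Set.mem_singleton_iff] at hs
          rw [hs]
          exact huv
      · rw [D_kp hh, D_single_vertex, kp_single_empty]
  | refl u => rw [sub_self]; exact Submodule.zero_mem _
  | symm u v _ ih =>
    rw [← neg_sub]; exact Submodule.neg_mem _ ih
  | trans u v w _ _ ih1 ih2 =>
    have : (Pi.single ({w.1} : Finset V) (1 : F) - Pi.single ({u.1} : Finset V) (1 : F) :
        Finset V → F)
      = (Pi.single ({v.1} : Finset V) (1 : F) - Pi.single ({u.1} : Finset V) (1 : F)) +
        (Pi.single ({w.1} : Finset V) (1 : F) - Pi.single ({v.1} : Finset V) (1 : F)) := by abel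
    rw [this]; exact Submodule.add_mem _ ih1 ih2

theorem chi_D {h : V → ℕ} (hh : Function.Injective h) {X : Set (Finset V)} (χ : V → F)
    (hχ : ∀ u v, ({u, v} : Finset V) ∈ X → χ u = χ v) {b : Finset V → F} (hb : b ∈ Sp F X 2) :
    ∑ v, χ v * D h b {v} = 0 := by
  classical
  let b' : Finset V → F := fun s => if hs : s.Nonempty then χ hs.choose * b s else 0
  have h1 : ∀ v, D h b' {v} = χ v * D h b {v} := by
    intro v
    rw [D_apply, D_apply, mul_sum]
    refine sum_congr rfl fun u _ => ?_
    have hne : (insert u {v} : Finset V).Nonempty := insert_nonempty _ _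
    have h2 : b' (insert u {v}) = χ hne.choose * b (insert u {v}) := dif_pos hne
    rw [h2]
    by_cases h3 : b (insert u {v}) = 0
    · rw [h3]; ring
    · have h4 := (hb _ h3).1
      have h5 := hne.choose_spec
      have h6 : χ hne.choose = χ v := by
        rw [mem_insert, mem_singleton] at h5
        rcases h5 with h5 | h5
        · rw [h5]; exact hχ u v h4
        · rw [h5]
      rw [h6]; ring
  have h2 := congrFun (D_D hh b') ∅
  rw [D_apply] at h2
  simp only [Pi.zero_apply] at h2
  rw [← h2]
  have : (∅ : Finset V)ᶜ = univ := by simp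
  rw [this]
  refine sum_congr rfl fun v _ => ?_
  have h3 : insert v (∅ : Finset V) = {v} := by ext; simp
  rw [h3, h1]
  simp [sg]

open Classical in
def Qm (F : Type) [Field F] (X : Set (Finset V)) [Fintype (Vx X)] :
    (Finset V → F) →ₗ[F] (Quot (rel X) → F) where
  toFun c q := ∑ v : Vx X, if Quot.mk (rel X) v = q then c {v.1} else 0
  map_add' c c' := by
    funext q
    simp only [Pi.add_apply]
    rw [← sum_add_distrib]
    refine sum_congr rfl fun v _ => ?_
    by_cases h1 : Quot.mk (rel X) v = q <;> simp [h1]
  map_smul' r c := by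
    funext q
    simp only [Pi.smul_apply, smul_eq_mul, RingHom.id_apply, mul_sum]
    refine sum_congr rfl fun v _ => ?_
    by_cases h1 : Quot.mk (rel X) v = q <;> simp [h1]

open Classical in
theorem Qm_apply (X : Set (Finset V)) [Fintype (Vx X)] (c : Finset V → F) (q : Quot (rel X)) :
    Qm F X c q = ∑ v : Vx X, if Quot.mk (rel X) v = q then c {v.1} else 0 := rfl

open Classical in
theorem Qm_single (X : Set (Finset V)) [Fintype (Vx X)] (v : Vx X) :
    Qm F X (Pi.single {v.1} 1) = Pi.single (Quot.mk (rel X) v) 1 := by
  funext q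
  rw [Qm_apply, sum_eq_single v]
  · rw [Pi.single_eq_same, Pi.single_apply]
    by_cases h1 : Quot.mk (rel X) v = q
    · simp [h1]
    · rw [if_neg h1, if_neg (fun e => h1 e.symm)]
  · intro w _ hwv
    have : ({w.1} : Finset V) ≠ {v.1} := by
      intro h1
      exact hwv (Subtype.ext (singleton_injective h1))
    rw [Pi.single_eq_of_ne this]; simp
  · intro h1; exact absurd (mem_univ _) h1

open Classical in
theorem finrank_Bc1 {h : V → ℕ} (hh : Function.Injective h) {X : Set (Finset V)} (hX : Down X) :
    finrank F (Bc F h X 1) + Nat.card (Quot (rel X)) = fn X 1 := by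
  haveI : Fintype (Vx X) := Fintype.ofFinite _
  haveI : Fintype (Quot (rel X)) := Fintype.ofFinite _
  have h1 := fr (Sp F X 1) (Qm F X)
  have h2 : (Sp F X 1).map (Qm F X) = ⊤ := by
    rw [eq_top_iff]
    intro g _
    rw [Submodule.mem_map]
    refine ⟨∑ q, g q • Pi.single {(Quot.out q).1} 1, ?_, ?_⟩
    · apply Submodule.sum_mem
      intro q _
      apply Submodule.smul_mem
      exact single_mem (Quot.out q).2 (by simp)
    · rw [map_sum]
      funext q'
      rw [Finset.sum_apply, sum_eq_single q']
      · rw [map_smul, Qm_single, Quot.out_eq]; simp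
      · intro q _ hq
        rw [map_smul, Qm_single, Quot.out_eq]
        simp [Pi.single_eq_of_ne (Ne.symm hq)]
      · intro h3; exact absurd (mem_univ _) h3
  have h3 : Sp F X 1 ⊓ LinearMap.ker (Qm F X) = Bc F h X 1 := by
    apply le_antisymm
    · intro c hc
      rw [Submodule.mem_inf, LinearMap.mem_ker] at hc
      obtain ⟨hc1, hc2⟩ := hc
      have e1 : c = ∑ v : Vx X, c {v.1} • Pi.single ({v.1} : Finset V) (1 : F) := by
        funext s
        rw [Finset.sum_apply]
        by_cases hs : ∃ v : Vx X, s = {v.1}
        · obtain ⟨v, rfl⟩ := hs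
          rw [sum_eq_single v]
          · simp
          · intro w _ hwv
            have : ({v.1} : Finset V) ≠ ({w.1} : Finset V) := by
              intro h1
              exact hwv (Subtype.ext (singleton_injective h1)).symm
            simp [Pi.single_eq_of_ne this]
          · intro h3; exact absurd (mem_univ _) h3
        · rw [sum_eq_zero]
          · by_contra h4
            obtain ⟨h5, h6⟩ := hc1 s h4
            rw [card_eq_one] at h6
            obtain ⟨a, rfl⟩ := h6
            exact hs ⟨⟨a, h5⟩, rfl⟩
          · intro v _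
            have : s ≠ {v.1} := fun h4 => hs ⟨v, h4⟩
            simp [Pi.single_eq_of_ne this]
      have e2 : ∑ v : Vx X, c {v.1} • Pi.single ({(Quot.out (Quot.mk (rel X) v)).1} : Finset V) (1 : F)
          = 0 := by
        have : ∀ q, (∑ v : Vx X, if Quot.mk (rel X) v = q then c {v.1} else 0) •
            Pi.single ({(Quot.out q).1} : Finset V) (1 : F) = 0 := by
          intro q
          rw [← Qm_apply, hc2]; simp
        have h5 := sum_congr rfl (fun q (_ : q ∈ (univ : Finset (Quot (rel X)))) => this q)
        rw [sum_const_zero] at h5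
        rw [← h5]
        simp only [sum_smul]
        rw [sum_comm]
        refine sum_congr rfl fun v _ => ?_
        rw [sum_eq_single (Quot.mk (rel X) v)]
        · rw [if_pos rfl]
        · intro q _ hq
          rw [if_neg (fun e => hq e.symm), zero_smul]
        · intro h3; exact absurd (mem_univ _) h3
      have e3 : c = ∑ v : Vx X, c {v.1} • (Pi.single ({v.1} : Finset V) (1 : F) -
          Pi.single ({(Quot.out (Quot.mk (rel X) v)).1} : Finset V) (1 : F)) := by
        simp only [smul_sub, sum_sub_distrib]
        rw [e2, sub_zero]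
        exact e1
      rw [e3]
      apply Submodule.sum_mem
      intro v _
      apply Submodule.smul_mem
      apply diff_mem hh
      exact Quot.eqvGen_exact (Quot.out_eq _)
    · intro c hc
      obtain ⟨b, hb, rfl⟩ := mem_Bc.mp hc
      refine ⟨D_mem hX hb, ?_⟩
      rw [SetLike.mem_coe, LinearMap.mem_ker]
      funext q
      rw [Qm_apply]
      have h5 := chi_D hh (X := X) (fun v => if hv : {v} ∈ X then
        (if Quot.mk (rel X) ⟨v, hv⟩ = q then (1 : F) else 0) else 0) ?_ hb
      · refine Eq.trans ?_ h5
        have h6 : ∀ v : V, v ∈ (univ : Finset V) → v ∉ (univ.filter fun v : V => {v} ∈ X) →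
          (if hv : {v} ∈ X then
            (if Quot.mk (rel X) ⟨v, hv⟩ = q then (1 : F) else 0) else 0) * D h b {v} = 0 := by
          intro v _ hv
          simp only [mem_filter, mem_univ, true_and] at hv
          rw [dif_neg hv, zero_mul]
        rw [← sum_subset (subset_univ _) h6]
        refine sum_bij (fun v _ => v.1) ?_ ?_ ?_ ?_
        · intro v _
          simp only [mem_filter, mem_univ, true_and]
          exact v.2
        · intro v _ w _ hvw; exact Subtype.ext hvw
        · intro v hv
          simp only [mem_filter, mem_univ, true_and] at hv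
          exact ⟨⟨v, hv⟩, mem_univ _, rfl⟩
        · intro v _
          have hv : {v.1} ∈ X := v.2
          rw [dif_pos hv]
          by_cases h7 : Quot.mk (rel X) v = q
          · rw [if_pos h7, if_pos h7, one_mul]
          · rw [if_neg h7, if_neg h7, zero_mul]
      · intro u v huv
        have hu : {u} ∈ X := hX _ huv _ (by simp)
        have hv : {v} ∈ X := hX _ huv _ (by simp)
        have : Quot.mk (rel X) ⟨u, hu⟩ = Quot.mk (rel X) ⟨v, hv⟩ := Quot.sound huv
        simp only [hu, hv, dif_pos, this]
  rw [h2, h3, finrank_top, finrank_fintype_fun_eq_card, finrank_Sp, ← Nat.card_eq_fintype_card] at h1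
  omega

open Classical in
theorem finrank_Bc0 {h : V → ℕ} {X : Set (Finset V)} :
    finrank F (Bc F h X 0) = if ∃ v, {v} ∈ X then 1 else 0 := by
  split_ifs with hv
  · obtain ⟨v, hv⟩ := hv
    have : Bc F h X 0 = Submodule.span F {Pi.single (∅ : Finset V) (1 : F)} := by
      apply le_antisymm
      · intro c hc
        obtain ⟨b, hb, rfl⟩ := mem_Bc.mp hc
        rw [Submodule.mem_span_singleton]
        refine ⟨D h b ∅, ?_⟩
        funext t
        by_cases ht : t = ∅
        · rw [ht]; simp
        · rw [Pi.smul_apply, Pi.single_eq_of_ne ht, smul_zero]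
          rw [D_apply, sum_eq_zero]
          intro w hw
          have : b (insert w t) = 0 := by
            by_contra h1
            have h2 := (hb _ h1).2
            rw [mem_compl] at hw
            rw [card_insert_of_notMem hw] at h2
            exact ht (card_eq_zero.mp (by omega))
          rw [this, mul_zero]
      · rw [Submodule.span_singleton_le_iff_mem]
        exact mem_Bc.mpr ⟨_, single_mem hv (by simp), D_single_vertex h v⟩
    rw [this, finrank_span_singleton]
    intro h0
    have := congrFun h0 ∅
    simp at this
  · have : Bc F h X 0 = ⊥ := by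
      rw [eq_bot_iff]
      intro c hc
      obtain ⟨b, hb, rfl⟩ := mem_Bc.mp hc
      have : b = 0 := by
        funext s
        by_contra h1
        obtain ⟨h2, h3⟩ := hb _ h1
        rw [zero_add, card_eq_one] at h3
        obtain ⟨a, rfl⟩ := h3
        exact hv ⟨a, h2⟩
      rw [this, map_zero]; exact Submodule.zero_mem _
    rw [this, finrank_bot]

theorem be1_indep {F' : Type} [Field F'] {h : V → ℕ} (hh : Function.Injective h)
    {X : Set (Finset V)} (hX : Down X) : be F h X 1 = be F' h X 1 := by
  have a1 := finrank_Bc1 (F := F) hh hX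
  have a2 := finrank_Bc1 (F := F') hh hX
  have b1 : finrank F (Bc F h X 0) + finrank F (Zc F h X 1) = fn X 1 := finrank_Zc h X 0
  have b2 : finrank F' (Bc F' h X 0) + finrank F' (Zc F' h X 1) = fn X 1 := finrank_Zc h X 0
  rw [finrank_Bc0] at b1 b2
  unfold be
  omega

end

end Pool.Agent.H999R3.Tm
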