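import Pool.Agent.H999R3.Tm.Sub
import Pool.Agent.H999R3.Tm.Defs

namespace Pool.Agent.H999R3.Tm

open Finset Module

noncomputable section

/-- number of faces with n elements -/
def fn {V : Type} [Fintype V] [DecidableEq V] (X : Set (Finset V)) (n : ℕ) : ℕ :=
  {s | s ∈ X ∧ s.card = n}.ncard

variable {V : Type} [Fintype V] [DecidableEq V] {F : Type} [Field F]

open Classical in
theorem finrank_Sp (X : Set (Finset V)) (n : ℕ) : finrank F (Sp F X n) = fn X n := by
  let e : Sp F X n ≃ₗ[F] ({s : Finset V // s ∈ X ∧ s.card = n} → F) :=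
    { toFun := fun c s => c.1 s.1
      map_add' := fun _ _ => rfl
      map_smul' := fun _ _ => rfl
      invFun := fun g => ⟨fun s => if h : s ∈ X ∧ s.card = n then g ⟨s, h⟩ else 0, by
        intro s hs
        by_contra h
        simp [h] at hs⟩
      left_inv := by
        intro c
        apply Subtype.ext
        funext s
        by_cases h : s ∈ X ∧ s.card = n
        · simp only [h, and_self, dif_pos]
        · simp only [h, dif_neg, not_false_eq_true]
          by_contra h1
          exact h (c.2 s (fun h2 => h1 h2.symm))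
      right_inv := by
        intro g
        funext s
        simp only [s.2, and_self, dif_pos] }
  rw [e.finrank_eq, finrank_fintype_fun_eq_card, fn, ← Nat.card_eq_fintype_card]
  rfl

theorem finrank_Zc (h : V → ℕ) (X : Set (Finset V)) (n : ℕ) :
    finrank F (Bc F h X n) + finrank F (Zc F h X (n + 1)) = fn X (n + 1) := by
  rw [← finrank_Sp (F := F)]
  exact fr (Sp F X (n + 1)) (D h)

theorem D_single (h : V → ℕ) {j u : Finset V} (hne : D h (Pi.single j (1 : F)) u ≠ 0) :
    u ⊆ j ∧ j.card = u.card + 1 := by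
  rw [D_apply] at hne
  obtain ⟨v, hv, h1⟩ := exists_ne_zero_of_sum_ne_zero hne
  have h2 := right_ne_zero_of_mul h1
  have h3 : insert v u = j := by
    by_contra h4
    rw [Pi.single_eq_of_ne h4] at h2
    exact h2 rfl
  rw [mem_compl] at hv
  rw [← h3]
  exact ⟨subset_insert _ _, card_insert_of_notMem hv⟩

theorem D_single' (h : V → ℕ) {j u : Finset V} (h1 : u ⊆ j) (h2 : j.card = u.card + 1) :
    D h (Pi.single j (1 : F)) u ≠ 0 := by
  have h3 : (j \ u).card = 1 := by
    rw [card_sdiff_of_subset h1]; omega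
  rw [card_eq_one] at h3
  obtain ⟨a, ha⟩ := h3
  have ha' : a ∈ j \ u := by rw [ha]; exact mem_singleton_self _
  rw [mem_sdiff] at ha'
  have hj : insert a u = j := by
    rw [← union_sdiff_of_subset h1, ha]
    ext x; simp [or_comm]
  rw [D_apply, sum_eq_single a]
  · rw [hj, Pi.single_eq_same, mul_one]
    exact sg_ne _ _ _
  · intro v hv hva
    have : insert v u ≠ j := by
      intro h4
      have : a ∈ insert v u := by rw [h4]; exact ha'.1
      rw [mem_insert] at this
      rcases this with h5 | h5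
      · exact hva h5.symm
      · exact ha'.2 h5
    rw [Pi.single_eq_of_ne this, mul_zero]
  · intro h4
    exact absurd (mem_compl.mpr ha'.2) h4

open Classical in
theorem indep (h : V → ℕ) {X : Set (Finset V)} (f : Finset V → ℝ) (n : ℕ)
    (hup : ∀ s ∈ X, s.card = n → {t | t ∈ X ∧ s ⊆ t ∧ t.card = s.card + 1 ∧ f t ≤ f s}.Subsingleton) :
    {s | s ∈ X ∧ s.card = n + 1 ∧ ∃ u ∈ X, u ⊆ s ∧ s.card = u.card + 1 ∧ f s ≤ f u}.ncard
      ≤ finrank F (Bc F h X n) := by
  set J := {s | s ∈ X ∧ s.card = n + 1 ∧ ∃ u ∈ X, u ⊆ s ∧ s.card = u.card + 1 ∧ f s ≤ f u} with hJ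
  let w : J → Bc F h X n := fun j => ⟨D h (Pi.single j.1 1), mem_Bc.mpr ⟨Pi.single j.1 1, by
    intro s hs
    have : s = j.1 := by
      by_contra h1
      rw [Pi.single_eq_of_ne h1] at hs
      exact hs rfl
    rw [this]
    exact ⟨j.2.1, j.2.2.1⟩, rfl⟩⟩
  have hw : LinearIndependent F w := by
    apply LinearIndependent.of_comp (Bc F h X n).subtype
    rw [Fintype.linearIndependent_iff]
    intro g hg
    by_contra hcon
    push Not at hcon
    choose lo hlo using fun j : J => j.2.2.2
    obtain ⟨i0, hi0⟩ := hcon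
    obtain ⟨i, hi, hmax⟩ := exists_max_image (univ.filter fun j => g j ≠ 0) (fun j => f (lo j))
      ⟨i0, by simp [hi0]⟩
    simp only [mem_filter, mem_univ, true_and] at hi hmax
    have h1 := congrFun hg (lo i)
    rw [Finset.sum_apply, sum_eq_single i] at h1
    · have h2 : D h (Pi.single i.1 (1 : F)) (lo i) ≠ 0 :=
        D_single' h (hlo i).2.1 (hlo i).2.2.1
      have h3 : g i * D h (Pi.single i.1 (1 : F)) (lo i) = 0 := h1
      rcases mul_eq_zero.mp h3 with h4 | h4
      · exact hi h4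
      · exact h2 h4
    · intro j _ hji
      by_cases hgj : g j = 0
      · rw [hgj, zero_smul]; rfl
      · have h2 : D h (Pi.single j.1 (1 : F)) (lo i) = 0 := by
          by_contra h3
          obtain ⟨h4, h5⟩ := D_single h h3
          have hci : (lo i).card = n := by
            have := (hlo i).2.2.1
            have := i.2.2.1
            omega
          have h6 : ¬ f j.1 ≤ f (lo i) := by
            intro h7
            apply hji
            apply Subtype.ext
            exact hup (lo i) (hlo i).1 hci ⟨j.2.1, h4, h5, h7⟩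
              ⟨i.2.1, (hlo i).2.1, (hlo i).2.2.1, (hlo i).2.2.2⟩
          have h8 := hmax j hgj
          have h9 := (hlo j).2.2.2
          linarith
        show g j * D h (Pi.single j.1 (1 : F)) (lo i) = 0
        rw [h2, mul_zero]
    · intro h2; exact absurd (mem_univ _) h2
  have := hw.fintype_card_le_finrank
  rwa [← Nat.card_eq_fintype_card] at this

open Classical in
/-- the Morse inequality for sets with n+2 elements -/
theorem morse (C : Cplx) (h : C.V → ℕ) (hh : Function.Injective h) (f : Finset C.V → ℝ)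
    (hf : C.IsMorse f) (n : ℕ) :
    be F h {s | s ∈ C.faces ∨ s = ∅} (n + 2) ≤ (C.crit f (n + 1)).ncard := by
  set X : Set (Finset C.V) := {s | s ∈ C.faces ∨ s = ∅} with hX
  have hXne : ∀ s ∈ X, 0 < s.card → s ∈ C.faces := by
    rintro s (hs | rfl) h1
    · exact hs
    · simp at h1
  have hup : ∀ m, 0 < m → ∀ s ∈ X, s.card = m →
      {t | t ∈ X ∧ s ⊆ t ∧ t.card = s.card + 1 ∧ f t ≤ f s}.Subsingleton := by
    intro m hm s hs hc t ht t' ht'
    exact (hf s (hXne s hs (by omega))).1 ⟨hXne t ht.1 (by have := ht.2.2.1; omega), ht.2⟩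
      ⟨hXne t' ht'.1 (by have := ht'.2.2.1; omega), ht'.2⟩
  have i1 := indep (F := F) h f (n + 1) (hup (n + 1) (by omega))
  have i2 := indep (F := F) h f (n + 2) (hup (n + 2) (by omega))
  have z : finrank F (Bc F h X (n + 1)) + finrank F (Zc F h X (n + 2)) = fn X (n + 2) :=
    finrank_Zc (F := F) h X (n + 1)
  set J1 := {s | s ∈ X ∧ s.card = n + 1 + 1 ∧ ∃ u ∈ X, u ⊆ s ∧ s.card = u.card + 1 ∧ f s ≤ f u}
    with hJ1
  set J2 := {s | s ∈ X ∧ s.card = n + 2 + 1 ∧ ∃ u ∈ X, u ⊆ s ∧ s.card = u.card + 1 ∧ f s ≤ f u}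
    with hJ2
  set U := {s | s ∈ X ∧ s.card = n + 2 ∧ ∃ t ∈ X, s ⊆ t ∧ t.card = s.card + 1 ∧ f t ≤ f s} with hU
  have hUJ : U.ncard ≤ J2.ncard := by
    have hch : ∀ s : Finset C.V, s ∈ U → ∃ t, t ∈ X ∧ s ⊆ t ∧ t.card = s.card + 1 ∧ f t ≤ f s :=
      fun s hs => by
        obtain ⟨_, _, t, ht⟩ := hs
        exact ⟨t, ht⟩
    choose! tt htt using hch
    apply Set.ncard_le_ncard_of_injOn tt
    · intro s hs
      obtain ⟨h1, h2, h3, h4⟩ := htt s hs
      exact ⟨h1, by rw [h3, hs.2.1], s, hs.1, h2, h3, h4⟩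
    · intro s hs s' hs' he
      obtain ⟨h1, h2, h3, h4⟩ := htt s hs
      obtain ⟨h1', h2', h3', h4'⟩ := htt s' hs'
      have hcs := hs.2.1
      have hcs' := hs'.2.1
      refine (hf (tt s) (hXne _ h1 (by omega))).2
        ⟨hXne s hs.1 (by omega), h2, h3, h4⟩ ?_
      rw [he]
      exact ⟨hXne s' hs'.1 (by omega), h2', h3', h4'⟩
  have hcov : {s | s ∈ X ∧ s.card = n + 2} ⊆ C.crit f (n + 1) ∪ (J1 ∪ U) := by
    rintro s ⟨hs, hc⟩
    by_cases h1 : s ∈ J1
    · exact Or.inr (Or.inl h1)
    by_cases h2 : s ∈ U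
    · exact Or.inr (Or.inr h2)
    left
    refine ⟨hXne s hs (by omega), by omega, ?_, ?_⟩
    · rw [Set.eq_empty_iff_forall_notMem]
      rintro t ⟨ht1, ht2, ht3, ht4⟩
      exact h2 ⟨hs, hc, t, Or.inl ht1, ht2, ht3, ht4⟩
    · rw [Set.eq_empty_iff_forall_notMem]
      rintro u ⟨hu1, hu2, hu3, hu4⟩
      exact h1 ⟨hs, hc, u, Or.inl hu1, hu2, hu3, hu4⟩
  have c1 : fn X (n + 2) ≤ (C.crit f (n + 1)).ncard + (J1.ncard + U.ncard) := by
    refine (Set.ncard_le_ncard hcov (Set.toFinite _)).trans ?_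
    refine (Set.ncard_union_le _ _).trans ?_
    exact Nat.add_le_add_left (Set.ncard_union_le _ _) _
  unfold be
  omega

end

end Pool.Agent.H999R3.Tm
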