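import Pool.Agent.H999R3.Tm.Graph

namespace Pool.Agent.H999R3.Tm

open Finset Module

noncomputable section

variable {ι : Type} [Fintype ι] [DecidableEq ι] {F : Type} [Field F]

abbrev SV (ι : Type) : Type := ι → SignType

def zs (x : SV ι) : Finset ι := univ.filter fun i => x i = 0

omit [DecidableEq ι] in
theorem mem_zs {x : SV ι} {i : ι} : i ∈ zs x ↔ x i = 0 := by simp [zs]

def le (x y : SV ι) : Prop := ∀ i, y i = x i ∨ y i = 0

omit [Fintype ι] [DecidableEq ι] in
theorem le_refl' (x : SV ι) : le x x := fun _ => Or.inl rfl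

omit [Fintype ι] [DecidableEq ι] in
theorem le_trans' (x y z : SV ι) (h1 : le x y) (h2 : le y z) : le x z := by
  intro i
  rcases h2 i with h3 | h3
  · rw [h3]; exact h1 i
  · exact Or.inr h3

omit [DecidableEq ι] in
theorem zs_mono {x y : SV ι} (h1 : le x y) : zs x ⊆ zs y := by
  intro i hi
  rw [mem_zs] at hi ⊢
  rcases h1 i with h2 | h2
  · rw [h2, hi]
  · exact h2

omit [DecidableEq ι] in
theorem eq_of_le_zs {x y : SV ι} (h1 : le x y) (h2 : zs y ⊆ zs x) : x = y := by
  funext i
  rcases h1 i with h3 | h3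
  · exact h3.symm
  · have := h2 (mem_zs.mpr h3)
    rw [mem_zs] at this
    rw [this, h3]

omit [DecidableEq ι] in
theorem zs_card_lt {x y : SV ι} (h1 : le x y) (h2 : x ≠ y) : (zs x).card < (zs y).card := by
  apply card_lt_card
  refine ⟨zs_mono h1, fun h3 => h2 (eq_of_le_zs h1 h3)⟩

def ell (p : ι → ℝ) (x : SV ι) : ℝ := ∑ i, p i * (x i : ℝ)

omit [DecidableEq ι] in
theorem ell_mono {p : ι → ℝ} {x y : SV ι} (h : ∀ i, p i * (x i : ℝ) ≤ p i * (y i : ℝ)) :
    ell p x ≤ ell p y := sum_le_sum fun i _ => h i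

theorem p_ne {p : ι → ℝ} (hp : Function.Injective (ell p)) (i : ι) : p i ≠ 0 := by
  intro h0
  have h1 : ell p (fun _ => 0) = ell p (fun j => if j = i then 1 else 0) := by
    unfold ell
    refine sum_congr rfl fun j _ => ?_
    by_cases hj : j = i
    · rw [hj, h0]; simp
    · simp [hj]
  have h2 := congrFun (hp h1) i
  simp at h2

theorem st_zero {s : SignType} (h : (s : ℝ) = 0) : s = 0 := by
  rcases s with _ | _ | _
  · rfl
  · exfalso
    have h1 : ((SignType.neg : SignType) : ℝ) = -1 := by simp
    rw [h1] at h; norm_num at h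
  · exfalso
    have h1 : ((SignType.pos : SignType) : ℝ) = 1 := by simp
    rw [h1] at h; norm_num at h

def PT (K : Set (Finset ι)) (T : Finset (SV ι)) : Set (SV ι) := {y | zs y ∈ K ∧ y ∈ T}

def XT (K : Set (Finset ι)) (T : Finset (SV ι)) : Set (Finset (SV ι)) := Ch le (PT K T)

theorem XT_down (K : Set (Finset ι)) (T : Finset (SV ι)) : Down (XT K T) := Ch_down _ _

theorem del_XT (K : Set (Finset ι)) (T : Finset (SV ι)) (x : SV ι) :
    del (XT K T) x = XT K (T.erase x) := by
  ext s
  constructor
  · rintro ⟨h1, h2, h3⟩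
    refine ⟨fun y hy => ⟨(h2 y hy).1, ?_⟩, h3⟩
    rw [mem_erase]
    exact ⟨fun e => h1 (e ▸ hy), (h2 y hy).2⟩
  · rintro ⟨h2, h3⟩
    refine ⟨fun hx => ?_, fun y hy => ⟨(h2 y hy).1, mem_of_mem_erase (h2 y hy).2⟩, h3⟩
    have := (h2 x hx).2
    simp at this

theorem lk_XT (K : Set (Finset ι)) (T : Finset (SV ι)) (x : SV ι) (hx : zs x ∈ K) (hxT : x ∈ T) :
    lk (XT K T) x = Ch le {y | y ∈ PT K T ∧ y ≠ x ∧ (le x y ∨ le y x)} := by
  ext s
  constructor
  · rintro ⟨h1, h2, h3⟩
    refine ⟨fun y hy => ⟨h2 y (mem_insert_of_mem hy), fun e => h1 (e ▸ hy), ?_⟩, ?_⟩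
    · exact h3 x (mem_insert_self _ _) y (mem_insert_of_mem hy)
    · exact fun y hy z hz => h3 y (mem_insert_of_mem hy) z (mem_insert_of_mem hz)
  · rintro ⟨h2, h3⟩
    refine ⟨fun hx => (h2 x hx).2.1 rfl, ?_, ?_⟩
    · intro y hy
      rcases mem_insert.mp hy with rfl | hy
      · exact ⟨hx, hxT⟩
      · exact (h2 y hy).1
    · intro y hy z hz
      rcases mem_insert.mp hy with hy | hy
      · rcases mem_insert.mp hz with hz | hz
        · rw [hy, hz]; exact Or.inl (le_refl' _)
        · rw [hy]; exact (h2 z hz).2.2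
      · rcases mem_insert.mp hz with hz | hz
        · rw [hz]; exact (h2 y hy).2.2.symm
        · exact h3 y hy z hz

/-- upper set for ell -/
def Tx (p : ι → ℝ) (x : SV ι) : Finset (SV ι) := univ.filter fun y => ell p x ≤ ell p y

theorem mem_Tx {p : ι → ℝ} {x y : SV ι} : y ∈ Tx p x ↔ ell p x ≤ ell p y := by simp [Tx]

open Classical in
def ga (p : ι → ℝ) (x : SV ι) (y : SV ι) : SV ι :=
  fun i => if x i = 0 ∧ p i * (y i : ℝ) < 0 then 0 else y i

def ys (p : ι → ℝ) (x : SV ι) : SV ι := fun i => if x i = 0 then SignType.sign (p i) else x i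

omit [Fintype ι] [DecidableEq ι] in
theorem ga_cases (p : ι → ℝ) (x y : SV ι) (i : ι) :
    (x i = 0 ∧ p i * (y i : ℝ) < 0 ∧ ga p x y i = 0) ∨
    (¬ (x i = 0 ∧ p i * (y i : ℝ) < 0) ∧ ga p x y i = y i) := by
  unfold ga
  by_cases h : x i = 0 ∧ p i * (y i : ℝ) < 0
  · left; exact ⟨h.1, h.2, by simp [h]⟩
  · right; exact ⟨h, by rw [if_neg h]⟩

theorem p_sign (a : ℝ) : a * ((SignType.sign a : SignType) : ℝ) = |a| := by
  rcases lt_trichotomy a 0 with h | h | h
  · rw [sign_neg h, abs_of_neg h]; simp
  · rw [h]; simp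
  · rw [sign_pos h, abs_of_pos h]; simp

theorem sign_unique {a : ℝ} {s : SignType} (h : 0 < a * (s : ℝ)) : s = SignType.sign a := by
  rcases s with _ | _ | _
  · simp at h
  · have : a < 0 := by
      have h1 : ((SignType.neg : SignType) : ℝ) = -1 := by simp
      rw [h1] at h; linarith
    rw [sign_neg this]; rfl
  · have : 0 < a := by
      have h1 : ((SignType.pos : SignType) : ℝ) = 1 := by simp
      rw [h1] at h; linarith
    rw [sign_pos this]; rfl

/-- acyclic links at sign vectors with a zero -/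
theorem acyc1 {h : SV ι → ℕ} (hh : Function.Injective h) {K : Set (Finset ι)} (hK : Down K)
    (h0 : ∅ ∈ K) {p : ι → ℝ} (hp : Function.Injective (ell p)) (x : SV ι) (hx : zs x ∈ K)
    (hne : zs x ≠ ∅) : Acyc F h (lk (XT K (Tx p x)) x) := by
  rw [lk_XT K _ x hx (mem_Tx.mpr le_rfl)]
  have hlt : ∀ y, y ∈ PT K (Tx p x) → y ≠ x → ell p x < ell p y := by
    intro y hy hyx
    have h1 := mem_Tx.mp hy.2
    exact lt_of_le_of_ne h1 fun e => hyx (hp e).symm
  have hle : ∀ y, le y (ga p x y) := by
    intro y i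
    rcases ga_cases p x y i with ⟨_, _, h1⟩ | ⟨_, h1⟩
    · exact Or.inr h1
    · exact Or.inl h1
  have hell : ∀ y, ell p y ≤ ell p (ga p x y) := by
    intro y
    apply ell_mono
    intro i
    rcases ga_cases p x y i with ⟨_, h2, h1⟩ | ⟨_, h1⟩
    · rw [h1]; simpa using h2.le
    · rw [h1]
  refine Acyc.of_red hh (retr hh le le_refl' le_trans' _ (ga p x) ?_ ?_ (fun y _ => hle y) ?_
    (fun y => (univ.filter fun i => y i ≠ 0).card) ?_) ?_
  · rintro y ⟨hy1, hy2, hy3⟩
    have e1 : ell p x < ell p (ga p x y) := (hlt y hy1 hy2).trans_le (hell y)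
    refine ⟨⟨?_, mem_Tx.mpr e1.le⟩, fun e => by rw [e] at e1; exact lt_irrefl _ e1, ?_⟩
    · rcases hy3 with hy3 | hy3
      · have : ga p x y = y := by
          funext i
          rcases ga_cases p x y i with ⟨h3, h2, h1⟩ | ⟨_, h1⟩
          · rcases hy3 i with h4 | h4
            · rw [h1, h4, h3]
            · rw [h1, h4]
          · exact h1
        rw [this]; exact hy1.1
      · apply hK _ hx
        intro i hi
        rw [mem_zs] at hi ⊢
        rcases ga_cases p x y i with ⟨h3, h2, h1⟩ | ⟨_, h1⟩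
        · exact h3
        · rw [h1] at hi
          rcases hy3 i with h4 | h4
          · rw [h4, hi]
          · exact h4
    · rcases hy3 with hy3 | hy3
      · exact Or.inl (le_trans' _ _ _ hy3 (hle y))
      · right
        intro i
        rcases ga_cases p x y i with ⟨h3, h2, h1⟩ | ⟨_, h1⟩
        · exact Or.inr h3
        · rw [h1]; exact hy3 i
  · intro y _
    funext i
    rcases ga_cases p x y i with ⟨h3, h2, h1⟩ | ⟨h2, h1⟩
    · rcases ga_cases p x (ga p x y) i with ⟨_, _, h4⟩ | ⟨_, h4⟩
      · rw [h1, h4]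
      · exact h4
    · rcases ga_cases p x (ga p x y) i with ⟨h5, h6, h4⟩ | ⟨_, h4⟩
      · rw [h1] at h6
        exact absurd ⟨h5, h6⟩ h2
      · exact h4
  · intro y _ z _ hyz i
    rcases hyz i with h1 | h1
    · left
      unfold ga
      rw [h1]
    · right
      rcases ga_cases p x z i with ⟨_, _, h4⟩ | ⟨_, h4⟩
      · exact h4
      · rw [h4, h1]
  · intro y z hyz hne
    apply card_lt_card
    constructor
    · intro i hi
      simp only [mem_filter, mem_univ, true_and] at hi ⊢
      rcases hyz i with h1 | h1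
      · rw [← h1]; exact hi
      · exact absurd h1 hi
    · intro hcon
      apply hne
      funext i
      rcases hyz i with h1 | h1
      · exact h1.symm
      · by_contra h2
        have h3 : y i ≠ 0 := by rw [h1] at h2; exact h2
        have := hcon (by simp only [mem_filter, mem_univ, true_and]; exact h3 :
          i ∈ univ.filter fun i => y i ≠ 0)
        simp only [mem_filter, mem_univ, true_and] at this
        exact this h1
  · have hys0 : ∀ i, ys p x i ≠ 0 := by
      intro i
      unfold ys
      by_cases h1 : x i = 0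
      · rw [if_pos h1]
        intro h2
        exact p_ne hp i (sign_eq_zero_iff.mp h2)
      · rw [if_neg h1]; exact h1
    have hzs : zs (ys p x) = ∅ := by
      rw [Finset.eq_empty_iff_forall_notMem]
      intro i hi
      exact hys0 i (mem_zs.mp hi)
    have hysx : le (ys p x) x := by
      intro i
      unfold ys
      by_cases h1 : x i = 0
      · exact Or.inr h1
      · left; rw [if_neg h1]
    have hyne : ys p x ≠ x := by
      intro e
      rw [e] at hzs
      exact hne hzs
    have hga : ga p x (ys p x) = ys p x := by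
      funext i
      rcases ga_cases p x (ys p x) i with ⟨h3, h2, h1⟩ | ⟨h2, h1⟩
      · exfalso
        have : ys p x i = SignType.sign (p i) := by unfold ys; rw [if_pos h3]
        rw [this, p_sign] at h2
        exact absurd h2 (not_lt.mpr (abs_nonneg _))
      · exact h1
    have hyl : ell p x ≤ ell p (ys p x) := by
      apply ell_mono
      intro i
      unfold ys
      by_cases h1 : x i = 0
      · rw [if_pos h1, p_sign, h1]; simp
      · rw [if_neg h1]
    have hmin : ∀ y, y ∈ {y | y ∈ PT K (Tx p x) ∧ y ≠ x ∧ (le x y ∨ le y x)} → ga p x y = y →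
        le (ys p x) y := by
      rintro y ⟨hy1, hy2, hy3⟩ hgy i
      rcases hy3 with hy3 | hy3
      · rcases hy3 i with h4 | h4
        · by_cases h5 : x i = 0
          · right; rw [h4, h5]
          · left; unfold ys; rw [if_neg h5, h4]
        · exact Or.inr h4
      · by_cases h5 : x i = 0
        · by_cases h6 : y i = 0
          · exact Or.inr h6
          · left
            unfold ys; rw [if_pos h5]
            apply sign_unique
            rcases ga_cases p x y i with ⟨h3, h2, h1⟩ | ⟨h2, h1⟩
            · rw [hgy] at h1; exact absurd h1 h6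
            · have h7 : ¬ p i * (y i : ℝ) < 0 := fun h => h2 ⟨h5, h⟩
              refine lt_of_le_of_ne (not_lt.mp h7) fun h8 => ?_
              rcases mul_eq_zero.mp h8.symm with h9 | h9
              · exact p_ne hp i h9
              · apply h6
                exact st_zero h9
        · left
          unfold ys; rw [if_neg h5]
          rcases hy3 i with h4 | h4
          · exact h4.symm
          · exact absurd h4 h5
    apply Acyc.of_cone hh (ys p x)
    rintro s ⟨h1, h2⟩
    refine ⟨?_, ?_⟩
    · intro y hy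
      rcases mem_insert.mp hy with rfl | hy
      · refine ⟨⟨⟨?_, mem_Tx.mpr hyl⟩, hyne, Or.inr hysx⟩, hga⟩
        rw [hzs]; exact h0
      · exact h1 y hy
    · intro y hy z hz
      rcases mem_insert.mp hy with rfl | hy <;> rcases mem_insert.mp hz with rfl | hz
      · exact Or.inl (le_refl' _)
      · exact Or.inl (hmin z (h1 z hz).1 (h1 z hz).2)
      · exact Or.inr (hmin y (h1 y hy).1 (h1 y hy).2)
      · exact h2 y hy z hz

end

end Pool.Agent.H999R3.Tm
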