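import Pool.Agent.H999R3.Tm.Rz

namespace Pool.Agent.H999R3.Tm

open Finset Module

noncomputable section

variable {ι : Type} [Fintype ι] [DecidableEq ι] {F : Type} [Field F]

open Classical in
def Wx (p : ι → ℝ) (x : SV ι) : Finset ι := univ.filter fun i => p i * (x i : ℝ) < 0

omit [DecidableEq ι] in
theorem mem_Wx {p : ι → ℝ} {x : SV ι} {i : ι} : i ∈ Wx p x ↔ p i * (x i : ℝ) < 0 := by
  simp [Wx]

def LxP (K : Set (Finset ι)) (p : ι → ℝ) (x : SV ι) : Set (SV ι) :=
  {y | zs y ∈ K ∧ le x y ∧ y ≠ x ∧ zs y ⊆ Wx p x}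

def Lx (K : Set (Finset ι)) (p : ι → ℝ) (x : SV ι) : Set (Finset (SV ι)) := Ch le (LxP K p x)

open Classical in
def gf (p : ι → ℝ) (x : SV ι) (y : SV ι) : SV ι :=
  fun i => if p i * (x i : ℝ) < 0 then y i else x i

omit [Fintype ι] [DecidableEq ι] in
theorem gf_cases (p : ι → ℝ) (x y : SV ι) (i : ι) :
    (p i * (x i : ℝ) < 0 ∧ gf p x y i = y i) ∨ (¬ (p i * (x i : ℝ) < 0) ∧ gf p x y i = x i) := by
  unfold gf
  by_cases h : p i * (x i : ℝ) < 0
  · left; exact ⟨h, by rw [if_pos h]⟩
  · right; exact ⟨h, by rw [if_neg h]⟩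

omit [Fintype ι] [DecidableEq ι] in
theorem Ch_swap (P : Set (SV ι)) : Ch (fun a b => le b a) P = Ch le P := by
  ext s
  constructor
  · rintro ⟨h1, h2⟩
    exact ⟨h1, fun y hy z hz => (h2 y hy z hz).symm⟩
  · rintro ⟨h1, h2⟩
    exact ⟨h1, fun y hy z hz => (h2 y hy z hz).symm⟩

theorem red2 {h : SV ι → ℕ} (hh : Function.Injective h) {K : Set (Finset ι)} (hK : Down K)
    (h0 : ∅ ∈ K) {p : ι → ℝ} (hp : Function.Injective (ell p)) (x : SV ι) (hx : zs x = ∅) :
    Red F h (lk (XT K (Tx p x)) x) (Lx K p x) := by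
  rw [lk_XT K _ x (by rw [hx]; exact h0) (mem_Tx.mpr le_rfl)]
  have hlt : ∀ y, y ∈ PT K (Tx p x) → y ≠ x → ell p x < ell p y := by
    intro y hy hyx
    have h1 := mem_Tx.mp hy.2
    exact lt_of_le_of_ne h1 fun e => hyx (hp e).symm
  have hxy : ∀ y, y ≠ x → (le x y ∨ le y x) → le x y := by
    intro y hyx hc
    rcases hc with hc | hc
    · exact hc
    · exact absurd (eq_of_le_zs hc (by rw [hx]; exact empty_subset _)) hyx
  have hx0 : ∀ i, x i ≠ 0 := by
    intro i hi
    have := mem_zs.mpr hi
    rw [hx] at this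
    simp at this
  have hgle : ∀ y, le x y → le (gf p x y) y := by
    intro y hy i
    rcases gf_cases p x y i with ⟨_, h2⟩ | ⟨_, h2⟩
    · exact Or.inl h2.symm
    · rw [h2]; exact hy i
  have hell : ∀ y, le x y → ell p y ≤ ell p (gf p x y) := by
    intro y hy
    apply ell_mono
    intro i
    rcases gf_cases p x y i with ⟨_, h2⟩ | ⟨h1, h2⟩
    · rw [h2]
    · rw [h2]
      rcases hy i with h3 | h3
      · rw [h3]
      · rw [h3]; simpa using not_lt.mp h1
  have hxg : ∀ y, le x y → le x (gf p x y) := by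
    intro y hy i
    rcases gf_cases p x y i with ⟨_, h2⟩ | ⟨h1, h2⟩
    · rw [h2]; exact hy i
    · exact Or.inl h2
  have key := retr (F := F) hh (fun a b => le b a) le_refl' (fun a b c h1 h2 => le_trans' _ _ _ h2 h1)
    {y | y ∈ PT K (Tx p x) ∧ y ≠ x ∧ (le x y ∨ le y x)} (gf p x) ?_ ?_ ?_ ?_
    (fun y => (zs y).card) ?_
  · rw [Ch_swap, Ch_swap] at key
    convert key using 1
    unfold Lx
    congr 1
    ext y
    constructor
    · rintro ⟨h1, h2, h3, h4⟩
      refine ⟨⟨⟨h1, mem_Tx.mpr ?_⟩, h3, Or.inl h2⟩, ?_⟩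
      · apply ell_mono
        intro i
        rcases h2 i with h5 | h5
        · rw [h5]
        · have h6 := h4 (mem_zs.mpr h5)
          rw [mem_Wx] at h6
          rw [h5]; simpa using h6.le
      · funext i
        rcases gf_cases p x y i with ⟨_, h5⟩ | ⟨h6, h5⟩
        · exact h5
        · rw [h5]
          rcases h2 i with h7 | h7
          · exact h7.symm
          · exact absurd (mem_Wx.mp (h4 (mem_zs.mpr h7))) h6
    · rintro ⟨⟨⟨h1, _⟩, h3, h4⟩, h5⟩
      refine ⟨h1, hxy y h3 h4, h3, ?_⟩
      intro i hi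
      rw [mem_zs] at hi
      rw [mem_Wx]
      rcases gf_cases p x y i with ⟨h6, _⟩ | ⟨_, h7⟩
      · exact h6
      · rw [h5, hi] at h7
        exact absurd h7.symm (hx0 i)
  · rintro y ⟨hy1, hy2, hy3⟩
    have hy4 := hxy y hy2 hy3
    have e1 : ell p x < ell p (gf p x y) := (hlt y hy1 hy2).trans_le (hell y hy4)
    refine ⟨⟨hK _ hy1.1 _ (zs_mono (hgle y hy4)), mem_Tx.mpr e1.le⟩,
      fun e => by rw [e] at e1; exact lt_irrefl _ e1, Or.inl (hxg y hy4)⟩
  · intro y _
    funext i
    rcases gf_cases p x (gf p x y) i with ⟨_, h2⟩ | ⟨h1, h2⟩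
    · exact h2
    · rw [h2]
      rcases gf_cases p x y i with ⟨h3, _⟩ | ⟨_, h3⟩
      · exact absurd h3 h1
      · exact h3.symm
  · rintro y ⟨_, hy2, hy3⟩
    exact hgle y (hxy y hy2 hy3)
  · intro y _ z _ hyz i
    rcases gf_cases p x z i with ⟨h3, h4⟩ | ⟨h3, h4⟩
    · rcases gf_cases p x y i with ⟨h5, h6⟩ | ⟨h5, h6⟩
      · rw [h4, h6]; exact hyz i
      · exact absurd h3 h5
    · rcases gf_cases p x y i with ⟨h5, h6⟩ | ⟨h5, h6⟩
      · exact absurd h5 h3
      · left; rw [h4, h6]
  · intro y z hyz hne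
    exact zs_card_lt hyz (Ne.symm hne)

/-- sign flips -/
def fl (G : Finset ι) : SV ι ≃ SV ι where
  toFun x := fun i => if i ∈ G then - x i else x i
  invFun x := fun i => if i ∈ G then - x i else x i
  left_inv x := by funext i; by_cases h : i ∈ G <;> simp [h]
  right_inv x := by funext i; by_cases h : i ∈ G <;> simp [h]

omit [Fintype ι] in
theorem fl_apply (G : Finset ι) (x : SV ι) (i : ι) :
    fl G x i = if i ∈ G then - x i else x i := rfl

omit [Fintype ι] in
theorem fl_fl (G : Finset ι) (x : SV ι) : fl G (fl G x) = x := (fl G).left_inv x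

omit [Fintype ι] in
theorem fl_le {G : Finset ι} {x y : SV ι} (h : le x y) : le (fl G x) (fl G y) := by
  intro i
  rw [fl_apply, fl_apply]
  rcases h i with h1 | h1
  · left; rw [h1]
  · right; rw [h1]; simp

theorem zs_fl (G : Finset ι) (x : SV ι) : zs (fl G x) = zs x := by
  ext i
  rw [mem_zs, mem_zs, fl_apply]
  by_cases h : i ∈ G
  · rw [if_pos h]
    constructor
    · intro h1
      rw [← neg_neg (x i), h1]; simp
    · intro h1; rw [h1]; simp
  · rw [if_neg h]

abbrev rho (F : Type) [Field F] (G : Finset ι) : (Finset (SV ι) → F) →ₗ[F] (Finset (SV ι) → F) :=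
  pull F (fl G).toEmbedding

theorem D_rho {h : SV ι → ℕ} (hm : ∀ x y, le x y → x ≠ y → h x < h y) (G : Finset ι)
    {c : Finset (SV ι) → F} (hc : ∀ s, c s ≠ 0 → ∀ y ∈ s, ∀ z ∈ s, le y z ∨ le z y) :
    D h (rho F G c) = rho F G (D h c) := by
  funext s
  show D h (rho F G c) s = D h c (s.map (fl G).toEmbedding)
  rw [D_apply, D_apply]
  have h1 : (s.map (fl G).toEmbedding)ᶜ = (sᶜ).map (fl G).toEmbedding := by
    ext w
    rw [mem_compl]
    have : w = fl G (fl G w) := (fl_fl G w).symm
    rw [this]
    have e1 : fl G (fl G w) ∈ s.map (fl G).toEmbedding ↔ fl G w ∈ s := mem_map' _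
    have e2 : fl G (fl G w) ∈ (sᶜ).map (fl G).toEmbedding ↔ fl G w ∈ sᶜ := mem_map' _
    rw [e1, e2, mem_compl]
  rw [h1, sum_map]
  refine sum_congr rfl fun v _ => ?_
  show _ * c ((insert v s).map _) = _
  rw [map_insert]
  by_cases h2 : c (insert ((fl G).toEmbedding v) (s.map (fl G).toEmbedding)) = 0
  · rw [h2, mul_zero, mul_zero]
  · congr 1
    unfold sg
    rw [filter_map, card_map]
    congr 2
    apply filter_congr
    intro u hu
    have h3 := hc _ h2 (fl G u) (mem_insert_of_mem (mem_map_of_mem _ hu)) (fl G v)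
      (mem_insert_self _ _)
    show h u < h v ↔ h (fl G u) < h (fl G v)
    by_cases huv : u = v
    · rw [huv]; simp
    have hne : fl G u ≠ fl G v := fun e => huv ((fl G).injective e)
    rcases h3 with h3 | h3
    · have h4 := fl_le (G := G) h3
      rw [fl_fl, fl_fl] at h4
      exact ⟨fun _ => hm _ _ h3 hne, fun _ => hm _ _ h4 huv⟩
    · have h4 := fl_le (G := G) h3
      rw [fl_fl, fl_fl] at h4
      have h5 := hm _ _ h3 (Ne.symm hne)
      have h6 := hm _ _ h4 (Ne.symm huv)
      constructor
      · intro h7; omega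
      · intro h7; omega

theorem ext2 {h : SV ι → ℕ} (hh : Function.Injective h)
    (hm : ∀ x y, le x y → x ≠ y → h x < h y) {K : Set (Finset ι)} (hK : Down K)
    (h0 : ∅ ∈ K) {p : ι → ℝ} (hp : Function.Injective (ell p)) (x : SV ι) (hx : zs x = ∅)
    (n : ℕ) (e : Finset (SV ι) → F) (he : e ∈ Sp F (lk (XT K (Tx p x)) x) (n + 1))
    (hDe : D h e = 0) :
    ∃ A ∈ Sp F (XT K (Tx p x)) (n + 2), D h A = 0 ∧ lx h x A = e := by
  obtain ⟨g, hg, hg'⟩ := (red2 (F := F) hh hK h0 hp x hx).surj _ e he hDe
  set e2 := e + D h g with he2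
  have hDe2 : D h e2 = 0 := by rw [he2, map_add, hDe, D_D hh, add_zero]
  have hx0 : ∀ i, x i ≠ 0 := by
    intro i hi
    have := mem_zs.mpr hi
    rw [hx] at this
    simp at this
  have he2off : ∀ s, x ∈ s → e2 s = 0 := by
    intro s hs
    by_contra h1
    have := (hg' s h1).1.1 x hs
    exact this.2.2.1 rfl
  -- support of the cone
  have hcone : ∀ s, kp h x e2 s ≠ 0 → s.card = n + 2 ∧ x ∈ s ∧
      (∀ y ∈ s, zs y ∈ K ∧ le x y ∧ zs y ⊆ Wx p x) ∧ ∀ y ∈ s, ∀ z ∈ s, le y z ∨ le z y := by
    intro s hs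
    rw [kp_apply] at hs
    by_cases hxs : x ∈ s
    · rw [if_pos hxs] at hs
      obtain ⟨⟨h1, h2⟩, h3⟩ := hg' _ (right_ne_zero_of_mul hs)
      rw [card_erase_of_mem hxs] at h3
      have h4 : ∀ y ∈ s, zs y ∈ K ∧ le x y ∧ zs y ⊆ Wx p x := by
        intro y hy
        by_cases hyx : y = x
        · rw [hyx, hx]; exact ⟨h0, le_refl' _, empty_subset _⟩
        · have := h1 y (mem_erase.mpr ⟨hyx, hy⟩)
          exact ⟨this.1, this.2.1, this.2.2.2⟩
      refine ⟨by omega, hxs, h4, ?_⟩
      intro y hy z hz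
      by_cases hyx : y = x
      · rw [hyx]; exact Or.inl (h4 z hz).2.1
      by_cases hzx : z = x
      · rw [hzx]; exact Or.inr (h4 y hy).2.1
      exact h2 y (mem_erase.mpr ⟨hyx, hy⟩) z (mem_erase.mpr ⟨hzx, hz⟩)
    · rw [if_neg hxs] at hs; exact absurd rfl hs
  set A' : Finset (SV ι) → F := ∑ G ∈ (Wx p x).powerset, (-1 : F) ^ G.card • rho F G (kp h x e2)
    with hA'
  have hA'mem : A' ∈ Sp F (XT K (Tx p x)) (n + 2) := by
    apply Submodule.sum_mem
    intro G hG
    apply Submodule.smul_mem
    intro t ht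
    obtain ⟨h1, _, h3, h4⟩ := hcone _ ht
    rw [card_map] at h1
    refine ⟨⟨?_, ?_⟩, h1⟩
    · intro y hy
      have h5 := h3 (fl G y) (mem_map_of_mem _ hy)
      rw [zs_fl] at h5
      refine ⟨h5.1, mem_Tx.mpr (ell_mono fun i => ?_)⟩
      rcases h5.2.1 i with h6 | h6
      · rw [fl_apply] at h6
        by_cases hi : i ∈ G
        · have h7 := mem_Wx.mp (mem_powerset.mp hG hi)
          rw [if_pos hi] at h6
          have h8 : y i = - x i := by rw [← h6, neg_neg]
          rw [h8]
          have h9 : ((-(x i) : SignType) : ℝ) = - (x i : ℝ) := by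
            rcases x i with _ | _ | _ <;> simp
          rw [h9]; linarith
        · rw [if_neg hi] at h6
          rw [h6]
      · have h7 : i ∈ zs y := by rw [← zs_fl G y]; exact mem_zs.mpr h6
        have h8 := mem_Wx.mp (h5.2.2 h7)
        rw [mem_zs.mp h7]
        simpa using h8.le
    · intro y hy z hz
      have h5 := h4 (fl G y) (mem_map_of_mem _ hy) (fl G z) (mem_map_of_mem _ hz)
      rcases h5 with h5 | h5
      · left
        have := fl_le (G := G) h5
        rwa [fl_fl, fl_fl] at this
      · right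
        have := fl_le (G := G) h5
        rwa [fl_fl, fl_fl] at this
  have hDcone : D h (kp h x e2) = e2 := by rw [D_kp hh, hDe2, map_zero, sub_zero]
  have hDA' : D h A' = 0 := by
    rw [hA', map_sum]
    have h1 : ∀ G ∈ (Wx p x).powerset, D h ((-1 : F) ^ G.card • rho F G (kp h x e2))
        = (-1 : F) ^ G.card • rho F G e2 := by
      intro G _
      rw [map_smul, D_rho hm G (fun s hs => (hcone s hs).2.2.2), hDcone]
    rw [sum_congr rfl h1]
    funext t
    rw [Finset.sum_apply]
    by_cases h2 : ∃ G ∈ (Wx p x).powerset, e2 (t.map (fl G).toEmbedding) ≠ 0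
    · obtain ⟨G0, hG0, h3⟩ := h2
      obtain ⟨⟨h4, h5⟩, h6⟩ := hg' _ h3
      have hne : (t.map (fl G0).toEmbedding).Nonempty := by rw [← card_pos]; omega
      obtain ⟨z0, hz0, hmin⟩ := exists_min_image _ (fun y => (zs y).card) hne
      have hz0L := h4 z0 hz0
      have hzne : (zs z0).Nonempty := by
        rw [Finset.nonempty_iff_ne_empty]
        intro h7
        apply hz0L.2.2.1
        exact (eq_of_le_zs hz0L.2.1 (by rw [h7]; exact empty_subset _)).symm
      obtain ⟨i, hi⟩ := hzne
      have hiW : i ∈ Wx p x := hz0L.2.2.2 hi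
      have hall : ∀ y ∈ t, y i = 0 := by
        intro y hy
        have hy' : fl G0 y ∈ t.map (fl G0).toEmbedding := mem_map_of_mem _ hy
        have h7 : i ∈ zs (fl G0 y) := by
          rcases h5 z0 hz0 _ hy' with h8 | h8
          · exact zs_mono h8 hi
          · by_cases h9 : fl G0 y = z0
            · rw [h9]; exact hi
            · have := zs_card_lt h8 h9
              have := hmin _ hy'
              omega
        rw [zs_fl] at h7
        exact mem_zs.mp h7
      have hflip : ∀ G : Finset ι, i ∉ G →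
          t.map (fl (insert i G)).toEmbedding = t.map (fl G).toEmbedding := by
        intro G hiG
        rw [map_eq_image, map_eq_image]
        apply image_congr
        intro y hy
        show fl (insert i G) y = fl G y
        funext j
        rw [fl_apply, fl_apply]
        by_cases hj : j = i
        · rw [hj, if_pos (mem_insert_self _ _), if_neg hiG, hall y hy]; simp
        · have : j ∈ insert i G ↔ j ∈ G := by simp [hj]
          by_cases hjG : j ∈ G
          · rw [if_pos (this.mpr hjG), if_pos hjG]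
          · rw [if_neg (fun h => hjG (this.mp h)), if_neg hjG]
      have hW : Wx p x = insert i ((Wx p x).erase i) := (insert_erase hiW).symm
      rw [hW, sum_powerset_insert (by simp)]
      rw [← sum_add_distrib]
      apply sum_eq_zero
      intro G hG
      have hiG : i ∉ G := by
        intro h7
        have := mem_powerset.mp hG h7
        simp at this
      rw [card_insert_of_notMem hiG, pow_succ]
      show (-1 : F) ^ G.card * e2 (t.map (fl G).toEmbedding) +
        ((-1 : F) ^ G.card * -1) * e2 (t.map (fl (insert i G)).toEmbedding) = 0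
      rw [hflip G hiG]; ring
    · apply sum_eq_zero
      intro G hG
      show (-1 : F) ^ G.card * e2 (t.map (fl G).toEmbedding) = 0
      have : e2 (t.map (fl G).toEmbedding) = 0 := by
        by_contra h3
        exact h2 ⟨G, hG, h3⟩
      rw [this, mul_zero]
  have hlA' : lx h x A' = e2 := by
    rw [hA', map_sum, sum_eq_single ∅]
    · rw [map_smul]
      have : rho F ∅ (kp h x e2) = kp h x e2 := by
        funext t
        have hid : ∀ z : SV ι, (fl ∅).toEmbedding z = z := by
          intro z
          funext i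
          show fl ∅ z i = z i
          rw [fl_apply]; simp
        have ht : t.map (fl ∅).toEmbedding = t := by
          ext y
          constructor
          · intro hy
            rw [mem_map] at hy
            obtain ⟨z, hz, rfl⟩ := hy
            rw [hid]; exact hz
          · intro hy
            rw [mem_map]
            exact ⟨y, hy, hid y⟩
        show kp h x e2 (t.map (fl ∅).toEmbedding) = kp h x e2 t
        rw [ht]
      rw [this, lx_kp h x he2off]; simp
    · intro G hG hGne
      rw [map_smul]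
      have : lx h x (rho F G (kp h x e2)) = 0 := by
        funext s
        rw [lx_apply]
        by_cases hxs : x ∈ s
        · simp [hxs]
        · rw [if_neg hxs]
          have : rho F G (kp h x e2) (insert x s) = 0 := by
            by_contra h1
            have h1' : kp h x e2 ((insert x s).map (fl G).toEmbedding) ≠ 0 := h1
            obtain ⟨_, h2, h3, _⟩ := hcone _ h1'
            have h4 := (h3 (fl G x) (mem_map_of_mem _ (mem_insert_self _ _))).2.1
            obtain ⟨i, hi⟩ := Finset.nonempty_iff_ne_empty.mpr hGne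
            rcases h4 i with h5 | h5
            · rw [fl_apply, if_pos hi] at h5
              have h6 := hx0 i
              revert h5 h6
              rcases x i with _ | _ | _ <;> decide
            · rw [fl_apply, if_pos hi] at h5
              have h6 := hx0 i
              revert h5 h6
              rcases x i with _ | _ | _ <;> decide
          rw [this, mul_zero]; rfl
      rw [this, smul_zero]
    · intro h1
      exact absurd (mem_powerset.mpr (empty_subset _)) h1
  refine ⟨A' + - D h (kp h x (-g)), ?_, ?_, ?_⟩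
  · apply Submodule.add_mem _ hA'mem
    apply Submodule.neg_mem
    exact D_mem (XT_down _ _) (kp_mem (Submodule.neg_mem _ hg))
  · rw [map_add, map_neg, D_D hh, hDA']; simp
  · have ho : ∀ s, x ∈ s → g s = 0 := off_of_lk hg
    rw [map_add, hlA', map_neg, lx_D hh, map_neg, map_neg, lx_kp h x ho, map_neg, he2]
    abel

end

end Pool.Agent.H999R3.Tm
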