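import Pool.Agent.H999R3.Tm.Rz2

namespace Pool.Agent.H999R3.Tm

open Finset Module

noncomputable section

variable {ι : Type} [Fintype ι] [DecidableEq ι] {F : Type} [Field F]

def UpC (p : ι → ℝ) (T : Finset (SV ι)) : Prop := ∀ y ∈ T, ∀ z, ell p y < ell p z → z ∈ T

theorem upc_eq {p : ι → ℝ} (hp : Function.Injective (ell p)) {T : Finset (SV ι)} (hT : UpC p T)
    {x : SV ι} (hx : x ∈ T) (hmin : ∀ y ∈ T, ell p x ≤ ell p y) : T = Tx p x := by
  ext y
  rw [mem_Tx]
  constructor
  · exact hmin y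
  · intro h1
    rcases h1.lt_or_eq with h2 | h2
    · exact hT x hx y h2
    · rw [← hp h2]; exact hx

theorem upc_erase {p : ι → ℝ} {T : Finset (SV ι)} (hT : UpC p T)
    {x : SV ι} (hmin : ∀ y ∈ T, ell p x ≤ ell p y) : UpC p (T.erase x) := by
  intro y hy z hyz
  rw [mem_erase] at hy ⊢
  refine ⟨?_, hT y hy.2 z hyz⟩
  rintro rfl
  have := hmin y hy.2
  linarith

theorem XT_no {K : Set (Finset ι)} {T : Finset (SV ι)} {x : SV ι} (hx : zs x ∉ K) :
    ∀ s ∈ XT K T, x ∉ s := fun _ hs hxs => hx (hs.1 x hxs).1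

theorem step_inj {h : SV ι → ℕ} (hh : Function.Injective h)
    (hm : ∀ x y, le x y → x ≠ y → h x < h y) {K : Set (Finset ι)} (hK : Down K)
    (h0 : ∅ ∈ K) {p : ι → ℝ} (hp : Function.Injective (ell p)) (x : SV ι) (n : ℕ)
    (b : Finset (SV ι) → F) (hb : b ∈ Sp F (XT K (Tx p x)) (n + 2))
    (hDb : D h b ∈ Sp F (del (XT K (Tx p x)) x) (n + 1)) :
    ∃ b' ∈ Sp F (del (XT K (Tx p x)) x) (n + 2), D h b' = D h b := by
  by_cases h1 : zs x ∈ K
  · by_cases h2 : zs x = ∅
    · have h3 : D h (lx h x b) = 0 := by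
        have := lx_D hh x b
        rw [lx_zero h x (off_of_del hDb)] at this
        exact neg_eq_zero.mp this.symm
      obtain ⟨A, hA, hDA, hlA⟩ := ext2 hh hm hK h0 hp x h2 n _ (lx_mem hb) h3
      refine ⟨b - A, mem_del_of_lx (h := h) (Submodule.sub_mem _ hb hA) ?_, ?_⟩
      · rw [map_sub, hlA, sub_self]
      · rw [map_sub, hDA, sub_zero]
    · exact (red_del (F := F) hh (XT_down _ _) x (acyc1 hh hK h0 hp x h1 h2)).inj _ b hb hDb
  · refine ⟨b, ?_, rfl⟩
    apply mem_del_of_off hb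
    intro s hs
    by_contra h2
    exact XT_no h1 s (hb s h2).1 hs

theorem inj_all {h : SV ι → ℕ} (hh : Function.Injective h)
    (hm : ∀ x y, le x y → x ≠ y → h x < h y) {K : Set (Finset ι)} (hK : Down K)
    (h0 : ∅ ∈ K) {p : ι → ℝ} (hp : Function.Injective (ell p)) {T2 : Finset (SV ι)}
    (hT2 : UpC p T2) : ∀ k, ∀ T1, UpC p T1 → T2 ⊆ T1 → (T1 \ T2).card = k → ∀ n,
    ∀ b ∈ Sp F (XT K T1) (n + 2), D h b ∈ Sp F (XT K T2) (n + 1) →
    ∃ b' ∈ Sp F (XT K T2) (n + 2), D h b' = D h b := by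
  intro k
  induction k with
  | zero =>
    intro T1 _ hs hc n b hb hDb
    rw [card_eq_zero, sdiff_eq_empty_iff_subset] at hc
    rw [subset_antisymm hc hs] at hb
    exact ⟨b, hb, rfl⟩
  | succ k ih =>
    intro T1 hT1 hs hc n b hb hDb
    have hne : (T1 \ T2).Nonempty := by rw [← card_pos]; omega
    obtain ⟨x, hx, hmin⟩ := exists_min_image (T1 \ T2) (ell p) hne
    rw [mem_sdiff] at hx
    have hmin' : ∀ y ∈ T1, ell p x ≤ ell p y := by
      intro y hy
      by_cases hy2 : y ∈ T2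
      · by_contra h1
        exact hx.2 (hT2 y hy2 x (not_le.mp h1))
      · exact hmin y (mem_sdiff.mpr ⟨hy, hy2⟩)
    have heq := upc_eq hp hT1 hx.1 hmin'
    have hsub : T2 ⊆ T1.erase x := by
      intro y hy
      rw [mem_erase]
      exact ⟨fun e => hx.2 (e ▸ hy), hs hy⟩
    have hmono : XT K T2 ⊆ XT K (T1.erase x) := by
      rintro s ⟨h1, h2⟩
      exact ⟨fun y hy => ⟨(h1 y hy).1, hsub (h1 y hy).2⟩, h2⟩
    have hDb' : D h b ∈ Sp F (del (XT K (Tx p x)) x) (n + 1) := by
      rw [← heq, del_XT]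
      exact Sp_mono hmono _ hDb
    rw [heq] at hb
    obtain ⟨b1, hb1, hb1'⟩ := step_inj hh hm hK h0 hp x n b hb hDb'
    rw [← heq, del_XT] at hb1
    have hcard : (T1.erase x \ T2).card = k := by
      have : T1.erase x \ T2 = (T1 \ T2).erase x := by
        ext y; simp only [mem_sdiff, mem_erase]; tauto
      rw [this, card_erase_of_mem (mem_sdiff.mpr hx)]; omega
    obtain ⟨b2, hb2, hb2'⟩ := ih (T1.erase x) (upc_erase hT1 hmin') hsub hcard n b1 hb1
      (by rw [hb1']; exact hDb)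
    exact ⟨b2, hb2, hb2'.trans hb1'⟩

theorem be_step {h : SV ι → ℕ} (hh : Function.Injective h)
    (hm : ∀ x y, le x y → x ≠ y → h x < h y) {K : Set (Finset ι)} (hK : Down K)
    (h0 : ∅ ∈ K) {p : ι → ℝ} (hp : Function.Injective (ell p)) (x : SV ι) (n : ℕ) :
    be F h (XT K (Tx p x)) (n + 2) = be F h (del (XT K (Tx p x)) x) (n + 2) +
      if zs x = ∅ then be F h (Lx K p x) (n + 1) else 0 := by
  by_cases h1 : zs x ∈ K
  · by_cases h2 : zs x = ∅
    · rw [if_pos h2]
      rw [be_count hh (XT_down _ _) x (n + 1)]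
      · congr 1
        exact be_red hh (Ch_down _ _) (lk_down (XT_down _ _) x) (red2 hh hK h0 hp x h2) _
      · intro e he hDe
        exact ext2 hh hm hK h0 hp x h2 n e he hDe
      · intro b hb hDb
        exact step_inj hh hm hK h0 hp x (n + 1) b hb hDb
    · rw [if_neg h2, add_zero]
      exact be_red hh (del_down (XT_down _ _) x) (XT_down _ _)
        (red_del (F := F) hh (XT_down _ _) x (acyc1 hh hK h0 hp x h1 h2)) _
  · have h2 : zs x ≠ ∅ := fun e => h1 (e ▸ h0)
    rw [if_neg h2, add_zero]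
    have : del (XT K (Tx p x)) x = XT K (Tx p x) := by
      ext s
      exact ⟨fun hs => hs.2, fun hs => ⟨XT_no h1 s hs, hs⟩⟩
    rw [this]

theorem be_total {h : SV ι → ℕ} (hh : Function.Injective h)
    (hm : ∀ x y, le x y → x ≠ y → h x < h y) {K : Set (Finset ι)} (hK : Down K)
    (h0 : ∅ ∈ K) {p : ι → ℝ} (hp : Function.Injective (ell p)) (n : ℕ) :
    ∀ k, ∀ T, UpC p T → T.card = k →
    be F h (XT K T) (n + 2) = ∑ x ∈ T, if zs x = ∅ then be F h (Lx K p x) (n + 1) else 0 := by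
  intro k
  induction k with
  | zero =>
    intro T _ hc
    rw [card_eq_zero] at hc
    rw [hc, sum_empty]
    apply be_acyc
    intro e he _
    refine ⟨0, Submodule.zero_mem _, ?_⟩
    rw [map_zero]
    funext s
    by_contra h1
    obtain ⟨⟨h2, _⟩, h3⟩ := he s (fun h => h1 h.symm)
    have : s.Nonempty := by rw [← card_pos]; omega
    obtain ⟨y, hy⟩ := this
    have := (h2 y hy).2
    simp at this
  | succ k ih =>
    intro T hT hc
    have hne : T.Nonempty := by rw [← card_pos]; omega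
    obtain ⟨x, hx, hmin⟩ := exists_min_image T (ell p) hne
    have heq := upc_eq hp hT hx hmin
    have h1 := be_step (F := F) hh hm hK h0 hp x n
    rw [← heq, del_XT, ih (T.erase x) (upc_erase hT hmin) (by rw [card_erase_of_mem hx]; omega)]
      at h1
    rw [h1, ← add_sum_erase T _ hx, add_comm]

/-- full subcomplex on W -/
def KW (K : Set (Finset ι)) (W : Finset ι) : Set (Finset ι) := {σ | σ ∈ K ∧ σ ⊆ W}

omit [Fintype ι] [DecidableEq ι] in
theorem KW_down {K : Set (Finset ι)} (hK : Down K) (W : Finset ι) : Down (KW K W) :=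
  fun s hs t hts => ⟨hK s hs.1 t hts, hts.trans hs.2⟩

theorem be_Lx {h : SV ι → ℕ} (hh : Function.Injective h) {h' : ι → ℕ}
    (hh' : Function.Injective h') {K : Set (Finset ι)} (hK : Down K)
    (h0 : ∅ ∈ K) {p : ι → ℝ} (x : SV ι) (hx : zs x = ∅) (n : ℕ) :
    be F h (Lx K p x) n = be F h' (KW K (Wx p x)) n := by
  have hx0 : ∀ i, x i ≠ 0 := by
    intro i hi
    have := mem_zs.mpr hi
    rw [hx] at this
    simp at this
  let f : Finset ι ↪ SV ι := ⟨fun σ i => if i ∈ σ then 0 else x i, by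
    intro σ τ hστ
    ext i
    have h1 := congrFun hστ i
    simp only at h1
    by_cases hi : i ∈ σ
    · rw [if_pos hi] at h1
      by_cases hi2 : i ∈ τ
      · exact ⟨fun _ => hi2, fun _ => hi⟩
      · rw [if_neg hi2] at h1
        exact absurd h1.symm (hx0 i)
    · rw [if_neg hi] at h1
      by_cases hi2 : i ∈ τ
      · rw [if_pos hi2] at h1
        exact absurd h1 (hx0 i)
      · exact ⟨fun h => absurd h hi, fun h => absurd h hi2⟩⟩
  have hf : ∀ σ i, f σ i = if i ∈ σ then 0 else x i := fun _ _ => rfl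
  have hzf : ∀ σ, zs (f σ) = σ := by
    intro σ
    ext i
    rw [mem_zs, hf]
    by_cases hi : i ∈ σ
    · simp [hi]
    · simp [hi, hx0 i]
  have hfz : ∀ y, le x y → f (zs y) = y := by
    intro y hy
    funext i
    rw [hf]
    by_cases hi : i ∈ zs y
    · rw [if_pos hi, mem_zs.mp hi]
    · rw [if_neg hi]
      rcases hy i with h1 | h1
      · exact h1.symm
      · exact absurd (mem_zs.mpr h1) hi
  rw [be_map (h' := fun σ => h (f σ)) (X' := SD (KW K (Wx p x))) f (fun _ _ => Iff.rfl)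
    (Ch_down _ _)]
  · exact be_sd hh' (hh.comp f.injective) (KW_down hK _) ⟨h0, empty_subset _⟩ n
  · intro s
    constructor
    · rintro ⟨h1, h2⟩
      refine ⟨s.image zs, ⟨?_, ?_⟩, ?_⟩
      · intro σ hσ
        rw [mem_image] at hσ
        obtain ⟨y, hy, rfl⟩ := hσ
        obtain ⟨h3, h4, h5, h6⟩ := h1 y hy
        refine ⟨⟨h3, h6⟩, ?_⟩
        rw [Finset.nonempty_iff_ne_empty]
        intro h7
        exact h5 (eq_of_le_zs h4 (by rw [h7]; exact empty_subset _)).symm
      · intro σ hσ τ hτ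
        rw [mem_image] at hσ hτ
        obtain ⟨y, hy, rfl⟩ := hσ
        obtain ⟨z, hz, rfl⟩ := hτ
        rcases h2 y hy z hz with h3 | h3
        · exact Or.inl (zs_mono h3)
        · exact Or.inr (zs_mono h3)
      · ext y
        rw [mem_map]
        constructor
        · rintro ⟨σ, hσ, rfl⟩
          rw [mem_image] at hσ
          obtain ⟨z, hz, rfl⟩ := hσ
          rw [hfz z (h1 z hz).2.1]; exact hz
        · intro hy
          exact ⟨zs y, mem_image_of_mem _ hy, hfz y (h1 y hy).2.1⟩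
    · rintro ⟨s', ⟨h1, h2⟩, rfl⟩
      refine ⟨?_, ?_⟩
      · intro y hy
        rw [mem_map] at hy
        obtain ⟨σ, hσ, rfl⟩ := hy
        obtain ⟨⟨h3, h4⟩, h5⟩ := h1 σ hσ
        refine ⟨by rw [hzf]; exact h3, ?_, ?_, by rw [hzf]; exact h4⟩
        · intro i
          rw [hf]
          by_cases hi : i ∈ σ
          · right; rw [if_pos hi]
          · left; rw [if_neg hi]
        · intro h6
          rw [← hzf σ, h6, hx] at h5
          simp at h5
      · intro y hy z hz
        rw [mem_map] at hy hz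
        obtain ⟨σ, hσ, rfl⟩ := hy
        obtain ⟨τ, hτ, rfl⟩ := hz
        have key : ∀ σ τ : Finset ι, σ ⊆ τ → le (f σ) (f τ) := by
          intro σ τ hst i
          rw [hf, hf]
          by_cases hi : i ∈ τ
          · right; rw [if_pos hi]
          · left; rw [if_neg hi, if_neg (fun h => hi (hst h))]
        rcases h2 σ hσ τ hτ with h3 | h3
        · exact Or.inl (key _ _ h3)
        · exact Or.inr (key _ _ h3)

theorem be_rz {h : SV ι → ℕ} (hh : Function.Injective h)
    (hm : ∀ x y, le x y → x ≠ y → h x < h y) {h' : ι → ℕ}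
    (hh' : Function.Injective h') {K : Set (Finset ι)} (hK : Down K)
    (h0 : ∅ ∈ K) {p : ι → ℝ} (hp : Function.Injective (ell p)) (n : ℕ) :
    be F h (XT K univ) (n + 2) =
      ∑ x : SV ι, if zs x = ∅ then be F h' (KW K (Wx p x)) (n + 1) else 0 := by
  rw [be_total hh hm hK h0 hp n _ univ (fun y _ z _ => mem_univ z) rfl]
  refine sum_congr rfl fun x _ => ?_
  by_cases hx : zs x = ∅
  · rw [if_pos hx, if_pos hx, be_Lx hh hh' hK h0 x hx]
  · rw [if_neg hx, if_neg hx]

end

end Pool.Agent.H999R3.Tm
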