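import Pool.Agent.H999R3.Tm.Be

namespace Pool.Agent.H999R3.Tm

open Finset Module

noncomputable section

variable {V : Type} [Fintype V] [DecidableEq V] {F : Type} [Field F]

/-- faces of the barycentric subdivision -/
def SD (X : Set (Finset V)) : Set (Finset (Finset V)) :=
  Ch (fun s t => s ⊆ t) {σ | σ ∈ X ∧ σ.Nonempty}

def lft (s : Finset (V ⊕ Finset V)) : Finset V := univ.filter fun v => Sum.inl v ∈ s

theorem mem_lft {s : Finset (V ⊕ Finset V)} {v : V} : v ∈ lft s ↔ Sum.inl v ∈ s := by
  simp [lft]

structure LkP (X : Set (Finset V)) (s0 T : Finset V) (s : Finset (V ⊕ Finset V)) : Prop where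
  a : ∀ v, Sum.inl v ∈ s → v ∈ T
  b : s0 ∪ lft s ∈ X
  c : ∀ σ, Sum.inr σ ∈ s → σ ∈ X ∧ σ.Nonempty
  d : ∀ σ τ, Sum.inr σ ∈ s → Sum.inr τ ∈ s → σ ⊆ τ ∨ τ ⊆ σ
  e : ∀ v σ, Sum.inl v ∈ s → Sum.inr σ ∈ s → v ∈ σ
  f : ∀ σ, Sum.inr σ ∈ s → s0 ⊆ σ

def Lk (X : Set (Finset V)) (s0 T : Finset V) : Set (Finset (V ⊕ Finset V)) :=
  {s | LkP X s0 T s}

theorem Lk_down {X : Set (Finset V)} (hX : Down X) (s0 T : Finset V) : Down (Lk X s0 T) := by
  intro s hs t hts
  have hs : LkP X s0 T s := hs
  refine ⟨fun v hv => hs.a v (hts hv), ?_, fun σ h => hs.c σ (hts h),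
    fun σ τ h1 h2 => hs.d σ τ (hts h1) (hts h2), fun v σ h1 h2 => hs.e v σ (hts h1) (hts h2),
    fun σ h => hs.f σ (hts h)⟩
  apply hX _ hs.b
  apply union_subset_union_right
  intro v hv
  rw [mem_lft] at hv ⊢
  exact hts hv

theorem del_Lk {X : Set (Finset V)} {s0 T : Finset V} {u : V} (hu : u ∉ T) :
    del (Lk X s0 (insert u T)) (Sum.inl u) = Lk X s0 T := by
  ext s
  constructor
  · rintro ⟨h1, h2⟩
    have h2 : LkP X s0 (insert u T) s := h2
    refine ⟨fun v hv => ?_, h2.b, h2.c, h2.d, h2.e, h2.f⟩
    rcases mem_insert.mp (h2.a v hv) with rfl | h3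
    · exact absurd hv h1
    · exact h3
  · intro h
    have h : LkP X s0 T s := h
    refine ⟨fun h1 => hu (h.a u h1), ?_⟩
    exact ⟨fun v hv => mem_insert_of_mem (h.a v hv), h.b, h.c, h.d, h.e, h.f⟩

theorem lft_insert_inl (s : Finset (V ⊕ Finset V)) (u : V) :
    lft (insert (Sum.inl u) s) = insert u (lft s) := by
  ext v
  simp [mem_lft]

theorem lft_insert_inr (s : Finset (V ⊕ Finset V)) (σ : Finset V) :
    lft (insert (Sum.inr σ) s) = lft s := by
  ext v
  simp [mem_lft]

theorem lk_Lk {X : Set (Finset V)} {s0 T : Finset V} {u : V} (hu : u ∉ T) :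
    lk (Lk X s0 (insert u T)) (Sum.inl u) = Lk X (insert u s0) T := by
  ext s
  constructor
  · rintro ⟨h1, h2⟩
    have h2 : LkP X s0 (insert u T) (insert (Sum.inl u) s) := h2
    refine ⟨fun v hv => ?_, ?_, fun σ h => h2.c σ (mem_insert_of_mem h),
      fun σ τ h3 h4 => h2.d σ τ (mem_insert_of_mem h3) (mem_insert_of_mem h4),
      fun v σ h3 h4 => h2.e v σ (mem_insert_of_mem h3) (mem_insert_of_mem h4), ?_⟩
    · rcases mem_insert.mp (h2.a v (mem_insert_of_mem hv)) with rfl | h3
      · exact absurd hv h1
      · exact h3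
    · have := h2.b
      rw [lft_insert_inl, union_insert] at this
      rwa [insert_union]
    · intro σ h
      rw [insert_subset_iff]
      exact ⟨h2.e u σ (mem_insert_self _ _) (mem_insert_of_mem h), h2.f σ (mem_insert_of_mem h)⟩
  · intro h
    have h : LkP X (insert u s0) T s := h
    refine ⟨fun h1 => hu (h.a u h1), ?_, ?_, ?_, ?_, ?_, ?_⟩
    · intro v hv
      simp only [mem_insert, Sum.inl.injEq] at hv ⊢
      rcases hv with rfl | hv
      · exact Or.inl rfl
      · exact Or.inr (h.a v hv)
    · have := h.b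
      rw [lft_insert_inl, union_insert]
      rwa [insert_union] at this
    · intro σ hσ
      simp only [mem_insert, reduceCtorEq, false_or] at hσ
      exact h.c σ hσ
    · intro σ τ hσ hτ
      simp only [mem_insert, reduceCtorEq, false_or] at hσ hτ
      exact h.d σ τ hσ hτ
    · intro v σ hv hσ
      simp only [mem_insert, reduceCtorEq, false_or, Sum.inl.injEq] at hv hσ
      rcases hv with rfl | hv
      · exact h.f σ hσ (mem_insert_self _ _)
      · exact h.e v σ hv hσ
    · intro σ hσ
      simp only [mem_insert, reduceCtorEq, false_or] at hσ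
      exact (subset_insert _ _).trans (h.f σ hσ)

theorem Lk_no {X : Set (Finset V)} (hX : Down X) {s0 T : Finset V} (h0 : s0 ∉ X) :
    ∀ s, s ∉ Lk X s0 T := by
  intro s hs
  have hs : LkP X s0 T s := hs
  exact h0 (hX _ hs.b _ subset_union_left)

theorem Lk_acyc {hA : V ⊕ Finset V → ℕ} (hh : Function.Injective hA) {X : Set (Finset V)}
    (hX : Down X) (T : Finset V) : ∀ s0 : Finset V, s0.Nonempty → Acyc F hA (Lk X s0 T) := by
  induction T using Finset.induction_on with
  | empty =>
    intro s0 hne
    by_cases h0 : s0 ∈ X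
    · apply Acyc.of_cone hh (Sum.inr s0)
      intro s hs
      have hs : LkP X s0 ∅ s := hs
      refine ⟨?_, ?_, ?_, ?_, ?_, ?_⟩
      · intro v hv
        simp only [mem_insert, reduceCtorEq, false_or] at hv
        exact hs.a v hv
      · rw [lft_insert_inr]; exact hs.b
      · intro σ hσ
        simp only [mem_insert, Sum.inr.injEq] at hσ
        rcases hσ with rfl | hσ
        · exact ⟨h0, hne⟩
        · exact hs.c σ hσ
      · intro σ τ hσ hτ
        simp only [mem_insert, Sum.inr.injEq] at hσ hτ
        rcases hσ with rfl | hσ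
        · rcases hτ with rfl | hτ
          · exact Or.inl (subset_refl _)
          · exact Or.inl (hs.f τ hτ)
        · rcases hτ with rfl | hτ
          · exact Or.inr (hs.f σ hσ)
          · exact hs.d σ τ hσ hτ
      · intro v σ hv hσ
        simp only [mem_insert, reduceCtorEq, false_or] at hv
        have := hs.a v hv
        simp at this
      · intro σ hσ
        simp only [mem_insert, Sum.inr.injEq] at hσ
        rcases hσ with rfl | hσ
        · exact subset_refl _
        · exact hs.f σ hσ
    · exact Acyc.of_no (Lk_no hX h0)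
  | insert u T hu ih =>
    intro s0 hne
    apply Acyc.of_red hh (red_del hh (Lk_down hX s0 (insert u T)) (Sum.inl u) ?_)
    · rw [del_Lk hu]; exact ih s0 hne
    · rw [lk_Lk hu]; exact ih _ (insert_nonempty _ _)

theorem Lk_red {hA : V ⊕ Finset V → ℕ} (hh : Function.Injective hA) {X : Set (Finset V)}
    (hX : Down X) (T : Finset V) : Red F hA (Lk X ∅ T) (Lk X ∅ ∅) := by
  induction T using Finset.induction_on with
  | empty => exact Red.refl _ _
  | insert u T hu ih =>
    have h1 : Red F hA (Lk X ∅ (insert u T)) (del (Lk X ∅ (insert u T)) (Sum.inl u)) := by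
      apply red_del hh (Lk_down hX _ _)
      rw [lk_Lk hu]
      exact Lk_acyc hh hX T _ (insert_nonempty _ _)
    rw [del_Lk hu] at h1
    exact h1.trans hh ih

theorem Lk_red2 {hA : V ⊕ Finset V → ℕ} (hh : Function.Injective hA) {X : Set (Finset V)}
    (hX : Down X) :
    Red F hA (Lk X ∅ univ) (keep (Lk X ∅ univ) (univ.map ⟨Sum.inr, Sum.inr_injective⟩) ∅) := by
  apply red_induct hh (Lk_down hX _ _) _ (fun a => Sum.elim (fun _ => 0) (fun σ => σ.card) a)
  intro T hT a ha hmin
  have haR := hT ha
  rw [mem_map] at haR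
  obtain ⟨σ, _, rfl⟩ := haR
  simp only [Function.Embedding.coeFn_mk] at ha hmin ⊢
  rcases σ.eq_empty_or_nonempty with rfl | ⟨v, hv⟩
  · apply Acyc.of_no
    rintro s ⟨_, hs, _⟩
    have hs : LkP X ∅ univ (insert (Sum.inr ∅) s) := hs
    exact absurd (hs.c ∅ (mem_insert_self _ _)).2 (by simp)
  · apply Acyc.of_cone hh (Sum.inl v)
    rintro s ⟨h1, h2, h3⟩
    have h2 : LkP X ∅ univ (insert (Sum.inr σ) s) := h2
    have hvτ : ∀ τ, Sum.inr τ ∈ insert (Sum.inr σ) s → v ∈ τ := by
      intro τ hτ
      rcases h2.d σ τ (mem_insert_self _ _) hτ with h4 | h4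
      · exact h4 hv
      · have h5 : (Sum.inr τ : V ⊕ Finset V) ∈ T := h3 _ hτ (by simp)
        have h6 := hmin _ h5
        simp only [Sum.elim_inr] at h6
        rw [eq_of_subset_of_card_le h4 h6]; exact hv
    refine ⟨?_, ?_, ?_⟩
    · simp [h1]
    · rw [insert_comm]
      refine ⟨fun v _ => mem_univ _, ?_, ?_, ?_, ?_, fun _ _ => empty_subset _⟩
      · rw [lft_insert_inl, empty_union]
        apply hX _ (h2.c σ (mem_insert_self _ _)).1
        rw [insert_subset_iff]
        refine ⟨hv, fun w hw => ?_⟩
        rw [mem_lft] at hw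
        exact h2.e w σ hw (mem_insert_self _ _)
      · intro τ hτ
        rw [mem_insert] at hτ
        rcases hτ with hτ | hτ
        · simp at hτ
        · exact h2.c τ hτ
      · intro τ ρ hτ hρ
        rw [mem_insert] at hτ hρ
        rcases hτ with hτ | hτ
        · simp at hτ
        rcases hρ with hρ | hρ
        · simp at hρ
        exact h2.d τ ρ hτ hρ
      · intro w τ hw hτ
        rw [mem_insert] at hw hτ
        rcases hτ with hτ | hτ
        · simp at hτ
        rcases hw with hw | hw
        · simp only [Sum.inl.injEq] at hw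
          rw [hw]; exact hvτ τ hτ
        · exact h2.e w τ hw hτ
    · intro b hb hbR
      rw [insert_comm, mem_insert] at hb
      rcases hb with rfl | hb
      · simp at hbR
      · exact h3 b hb hbR

def hA (h : V → ℕ) (h2 : Finset V → ℕ) : V ⊕ Finset V → ℕ :=
  Sum.elim (fun v => 2 * h v) (fun s => 2 * h2 s + 1)

omit [Fintype V] [DecidableEq V] in
theorem hA_inj {h : V → ℕ} {h2 : Finset V → ℕ} (hh : Function.Injective h)
    (hh2 : Function.Injective h2) : Function.Injective (hA h h2) := by
  rintro (a | a) (b | b) hab <;> simp only [hA, Sum.elim_inl, Sum.elim_inr] at hab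
  · rw [hh (by omega : h a = h b)]
  · omega
  · omega
  · rw [hh2 (by omega : h2 a = h2 b)]

theorem be_sd {h : V → ℕ} {h2 : Finset V → ℕ} (hh : Function.Injective h)
    (hh2 : Function.Injective h2) {X : Set (Finset V)} (hX : Down X) (h0 : ∅ ∈ X) (n : ℕ) :
    be F h2 (SD X) n = be F h X n := by
  have hi := hA_inj hh hh2
  have e1 := be_red hi (Lk_down hX _ _) (Lk_down hX _ _) (Lk_red (F := F) hi hX univ) n
  have e2 := be_red hi (keep_down (Lk_down hX _ _) _ _) (Lk_down hX _ _)
    (Lk_red2 (F := F) hi hX) n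
  have e3 : be F (hA h h2) (Lk X ∅ ∅) n = be F h2 (SD X) n := by
    apply be_map ⟨Sum.inr, Sum.inr_injective⟩ _ (Ch_down _ _)
    · intro s
      constructor
      · intro hs
        have hs : LkP X ∅ ∅ s := hs
        refine ⟨univ.filter (fun σ => (Sum.inr σ : V ⊕ Finset V) ∈ s), ⟨?_, ?_⟩, ?_⟩
        · intro σ hσ
          simp only [mem_filter, mem_univ, true_and] at hσ
          exact hs.c σ hσ
        · intro σ hσ τ hτ
          simp only [mem_filter, mem_univ, true_and] at hσ hτ
          exact hs.d σ τ hσ hτ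
        · ext a
          rcases a with v | σ
          · simp only [mem_map, Function.Embedding.coeFn_mk, reduceCtorEq, and_false,
              exists_false, false_iff]
            intro hv
            have := hs.a v hv
            simp at this
          · simp
      · rintro ⟨s', ⟨h1, h2'⟩, rfl⟩
        refine ⟨?_, ?_, ?_, ?_, ?_, ?_⟩
        · intro v hv; simp at hv
        · have : lft (s'.map ⟨Sum.inr, Sum.inr_injective⟩) = (∅ : Finset V) := by
            ext v; simp [mem_lft]
          rw [this]; simpa using h0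
        · intro σ hσ
          simp only [mem_map, Function.Embedding.coeFn_mk, Sum.inr.injEq, exists_eq_right] at hσ
          exact h1 σ hσ
        · intro σ τ hσ hτ
          simp only [mem_map, Function.Embedding.coeFn_mk, Sum.inr.injEq, exists_eq_right] at hσ hτ
          exact h2' σ hσ τ hτ
        · intro v σ hv; simp at hv
        · intro σ _; exact empty_subset _
    · intro u v
      simp only [hA, Function.Embedding.coeFn_mk, Sum.elim_inr]
      omega
  have e4 : be F (hA h h2) (keep (Lk X ∅ univ) (univ.map ⟨Sum.inr, Sum.inr_injective⟩) ∅) n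
      = be F h X n := by
    apply be_map ⟨Sum.inl, Sum.inl_injective⟩ _ hX
    · intro s
      constructor
      · rintro ⟨hs, hs2⟩
        have hs : LkP X ∅ univ s := hs
        refine ⟨lft s, ?_, ?_⟩
        · have := hs.b
          rwa [empty_union] at this
        · ext a
          rcases a with v | σ
          · simp [mem_lft]
          · simp only [mem_map, Function.Embedding.coeFn_mk, reduceCtorEq, and_false,
              exists_false, false_iff]
            intro hv
            have := hs2 _ hv (by simp)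
            simp at this
      · rintro ⟨s', hs', rfl⟩
        have hl : lft (s'.map ⟨Sum.inl, Sum.inl_injective⟩) = s' := by
          ext v; simp [mem_lft]
        refine ⟨⟨fun v _ => mem_univ v, ?_, ?_, ?_, ?_, ?_⟩, ?_⟩
        · rw [hl, empty_union]; exact hs'
        · intro σ hσ; simp at hσ
        · intro σ τ hσ; simp at hσ
        · intro v σ _ hσ; simp at hσ
        · intro σ hσ; simp at hσ
        · intro b hb hbR
          simp only [mem_map, Function.Embedding.coeFn_mk, mem_univ, true_and] at hb hbR
          obtain ⟨v, _, rfl⟩ := hb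
          obtain ⟨σ, hσ⟩ := hbR
          simp at hσ
    · intro u v
      simp only [hA, Function.Embedding.coeFn_mk, Sum.elim_inl]
      omega
  rw [← e3, ← e1, e2, e4]

end

end Pool.Agent.H999R3.Tm
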